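import Mathlib

/-! The Schwarz-Pick inequality on the disc, the half-plane and the annulus. -/

namespace Pool.Agent.Lib.MP_5cb574_an

open Complex Filter Topology Metric Real
open scoped ComplexConjugate

lemma moeb_id (a w : ℂ) :
    ‖1 - conj a * w‖ ^ 2 - ‖w - a‖ ^ 2 = (1 - ‖a‖ ^ 2) * (1 - ‖w‖ ^ 2) := by
  simp only [← Complex.normSq_eq_norm_sq, Complex.normSq_apply, sub_re, sub_im, mul_re, mul_im,
    conj_re, conj_im, one_re, one_im]
  ring

lemma moeb_ne {a w : ℂ} (ha : ‖a‖ < 1) (hw : ‖w‖ ≤ 1) : 1 - conj a * w ≠ 0 := by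
  intro h
  have h1 : ‖conj a * w‖ = 1 := by rw [← sub_eq_zero.mp h, norm_one]
  rw [norm_mul, norm_conj] at h1
  nlinarith [norm_nonneg a, norm_nonneg w]

lemma pick0 {h : ℂ → ℂ} (hd : DifferentiableOn ℂ h (ball 0 1))
    (hb : ∀ z ∈ ball (0 : ℂ) 1, ‖h z‖ ≤ 1) : ‖deriv h 0‖ ≤ 1 - ‖h 0‖ ^ 2 := by
  have h0 : (0 : ℂ) ∈ ball (0 : ℂ) 1 := mem_ball_self one_pos
  have hn : ball (0 : ℂ) 1 ∈ 𝓝 0 := ball_mem_nhds 0 one_pos
  rcases (hb 0 h0).eq_or_lt with h1 | h1
  · have := Complex.eqOn_of_isPreconnected_of_isMaxOn_norm (convex_ball (0 : ℂ) 1).isPreconnected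
      isOpen_ball hd h0 (fun z hz => by simpa [h1] using hb z hz)
    have h2 : h =ᶠ[𝓝 0] fun _ => h 0 := by filter_upwards [hn] with z hz using this hz
    rw [h2.deriv_eq, deriv_const, norm_zero, h1]; norm_num
  · set a := h 0 with ha
    have hp : 0 < 1 - ‖a‖ ^ 2 := by nlinarith [norm_nonneg a]
    have hne : ∀ z ∈ ball (0 : ℂ) 1, 1 - conj a * h z ≠ 0 := fun z hz => moeb_ne h1 (hb z hz)
    have hM : DifferentiableOn ℂ (fun z => (h z - a) / (1 - conj a * h z)) (ball 0 1) :=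
      (hd.sub_const a).div ((hd.const_mul _).const_sub 1) hne
    have h2 := Complex.norm_deriv_le_one_of_mapsTo_ball hM (fun z hz => by
      simp only [← ha, sub_self, zero_div, mem_closedBall_zero_iff, norm_div]
      rw [div_le_one (norm_pos_iff.mpr (hne z hz))]
      refine le_of_sq_le_sq ?_ (norm_nonneg _)
      have h3 := moeb_id a (h z)
      have h4 : 0 ≤ 1 - ‖h z‖ ^ 2 := by nlinarith [norm_nonneg (h z), hb z hz]
      nlinarith [mul_nonneg hp.le h4]) one_pos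
    have h3 := (hd.differentiableAt hn).hasDerivAt
    have h4 := (h3.sub_const a).fun_div ((h3.const_mul (conj a)).const_sub 1) (hne 0 h0)
    rw [h4.deriv] at h2
    have h5 : 1 - conj a * a = ((1 - ‖a‖ ^ 2 : ℝ) : ℂ) := by
      rw [conj_mul']; push_cast; ring
    rw [← ha, sub_self, zero_mul, sub_zero, h5, sq (((1 - ‖a‖ ^ 2 : ℝ) : ℂ)),
      mul_div_mul_right _ _ (by exact_mod_cast hp.ne'), norm_div, norm_real, Real.norm_eq_abs, abs_of_pos hp, div_le_one hp] at h2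
    exact h2

lemma pickH {G : ℂ → ℂ} (hd : ∀ y : ℂ, 0 < y.im → DifferentiableAt ℂ G y)
    (hb : ∀ y : ℂ, 0 < y.im → ‖G y‖ ≤ 1) {y₀ : ℂ} (h0 : 0 < y₀.im) :
    ‖deriv G y₀‖ * (2 * y₀.im) ≤ 1 - ‖G y₀‖ ^ 2 := by
  have hne : ∀ z ∈ ball (0 : ℂ) 1, 1 - z ≠ 0 := fun z hz h => by
    rw [← sub_eq_zero.mp h] at hz; simp at hz
  have him : ∀ z ∈ ball (0 : ℂ) 1, 0 < ((y₀ - conj y₀ * z) / (1 - z)).im := by
    intro z hz
    have h1 : 0 < Complex.normSq (1 - z) := Complex.normSq_pos.mpr (hne z hz)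
    have h2 : z.re ^ 2 + z.im ^ 2 < 1 := by
      have h3 := Complex.normSq_eq_norm_sq z
      have h4 := mem_ball_zero_iff.mp hz
      rw [Complex.normSq_apply] at h3
      nlinarith [norm_nonneg z]
    have h3 : ((y₀ - conj y₀ * z) / (1 - z)).im =
        y₀.im * (1 - (z.re ^ 2 + z.im ^ 2)) / Complex.normSq (1 - z) := by
      rw [div_im]
      simp only [sub_re, sub_im, mul_re, mul_im, conj_re, conj_im, one_re, one_im]
      field_simp
      ring
    rw [h3]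
    exact div_pos (mul_pos h0 (by linarith)) h1
  have hY : ∀ z ∈ ball (0 : ℂ) 1,
      DifferentiableAt ℂ (fun z : ℂ => (y₀ - conj y₀ * z) / (1 - z)) z := fun z hz =>
    DifferentiableAt.div (by fun_prop) (by fun_prop) (hne z hz)
  have h1 := pick0 (h := fun z => G ((y₀ - conj y₀ * z) / (1 - z)))
    (fun z hz => ((hd _ (him z hz)).comp z (hY z hz)).differentiableWithinAt)
    (fun z hz => hb _ (him z hz))
  have h2 : HasDerivAt (fun z : ℂ => (y₀ - conj y₀ * z) / (1 - z)) (y₀ - conj y₀) 0 := by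
    have := (((hasDerivAt_id' (0 : ℂ)).const_mul (conj y₀)).const_sub y₀).fun_div
      ((hasDerivAt_id' (0 : ℂ)).const_sub 1) (by simp)
    refine this.congr_deriv ?_
    simp; ring
  have h3 : HasDerivAt G (deriv G y₀) ((y₀ - conj y₀ * 0) / (1 - 0)) := by
    simpa using (hd y₀ h0).hasDerivAt
  have h4 := (HasDerivAt.comp (0 : ℂ) h3 h2).deriv
  have h5 : deriv (fun z => G ((y₀ - conj y₀ * z) / (1 - z))) 0 = deriv G y₀ * (y₀ - conj y₀) := h4
  rw [h5, norm_mul, sub_conj, norm_mul, norm_I, mul_one, norm_real, Real.norm_eq_abs,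
    abs_of_pos (by positivity)] at h1
  simpa using h1

/-- The reciprocal of the hyperbolic density of the annulus `c < |z| < 1`. -/
noncomputable def sig (c r : ℝ) : ℝ :=
  2 * r / (π / -Real.log c) * Real.sin (π / -Real.log c * Real.log (r / c))

lemma sig_arg {c r : ℝ} (hc : 0 < c) (h1 : c < r) (h2 : r < 1) :
    0 < π / -Real.log c * Real.log (r / c) ∧ π / -Real.log c * Real.log (r / c) < π := by
  have hL : 0 < -Real.log c := neg_pos.mpr (Real.log_neg hc (h1.trans h2))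
  have h3 : 0 < Real.log (r / c) := Real.log_pos ((one_lt_div hc).mpr h1)
  have h4 : Real.log (r / c) < -Real.log c := by
    rw [Real.log_div (hc.trans h1).ne' hc.ne']
    linarith [Real.log_neg (hc.trans h1) h2]
  refine ⟨by positivity, ?_⟩
  rw [div_mul_eq_mul_div, div_lt_iff₀ hL]
  exact mul_lt_mul_of_pos_left h4 pi_pos

lemma sig_pos {c r : ℝ} (hc : 0 < c) (h1 : c < r) (h2 : r < 1) : 0 < sig c r := by
  have hL : 0 < -Real.log c := neg_pos.mpr (Real.log_neg hc (h1.trans h2))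
  obtain ⟨a, b⟩ := sig_arg hc h1 h2
  have := Real.sin_pos_of_pos_of_lt_pi a b
  have h3 : 0 < r := hc.trans h1
  unfold sig
  positivity

lemma pickA {w : ℂ → ℂ} {c : ℝ} (hc : 0 < c)
    (hd : ∀ z : ℂ, c < ‖z‖ → ‖z‖ < 1 → DifferentiableAt ℂ w z)
    (hb : ∀ z : ℂ, c < ‖z‖ → ‖z‖ < 1 → ‖w z‖ ≤ 1) {ζ : ℂ} (h1 : c < ‖ζ‖) (h2 : ‖ζ‖ < 1) :
    ‖deriv w ζ‖ * sig c ‖ζ‖ ≤ 1 - ‖w ζ‖ ^ 2 := by
  have hL : 0 < -Real.log c := neg_pos.mpr (Real.log_neg hc (h1.trans h2))
  obtain ⟨a1, a2⟩ := sig_arg hc h1 h2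
  unfold sig
  set β := π / -Real.log c with hβ
  set t := Real.log (‖ζ‖ / c) with ht
  have hβ0 : 0 < β := by positivity
  have hr : 0 < ‖ζ‖ := hc.trans h1
  have hn : ∀ y : ℂ, ‖ζ * cexp (-I / β * Complex.log y - t)‖ = c * rexp (arg y / β) := by
    intro y
    have e : (-I / β * Complex.log y - t).re = arg y / β - t := by
      rw [sub_re, ofReal_re, div_mul_eq_mul_div, div_ofReal_re, ← log_im]
      simp
    rw [norm_mul, norm_exp, e, Real.exp_sub, ht, Real.exp_log (by positivity)]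
    field_simp
  have hA : ∀ y : ℂ, 0 < y.im → c < ‖ζ * cexp (-I / β * Complex.log y - t)‖ ∧
      ‖ζ * cexp (-I / β * Complex.log y - t)‖ < 1 := by
    intro y hy
    have b1 : 0 < arg y := lt_of_le_of_ne (arg_nonneg_iff.mpr hy.le)
      fun h => hy.ne' (arg_eq_zero_iff.mp h.symm).2
    have b2 : arg y < π := arg_lt_pi_iff.mpr (Or.inr hy.ne')
    rw [hn]
    constructor
    · exact lt_mul_of_one_lt_right hc (Real.one_lt_exp_iff.mpr (by positivity))
    · have b3 : arg y / β < -Real.log c := by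
        rw [div_lt_iff₀ hβ0, hβ, mul_div_cancel₀ _ hL.ne']; exact b2
      have b4 := Real.exp_lt_exp.mpr b3
      rw [Real.exp_neg, Real.exp_log hc] at b4
      calc c * rexp (arg y / β) < c * c⁻¹ := mul_lt_mul_of_pos_left b4 hc
        _ = 1 := mul_inv_cancel₀ hc.ne'
  have hψ : ∀ y : ℂ, 0 < y.im → HasDerivAt (fun y => ζ * cexp (-I / β * Complex.log y - t))
      (ζ * (cexp (-I / β * Complex.log y - t) * (-I / β * y⁻¹))) y := fun y hy =>
    ((((Complex.hasDerivAt_log (Or.inr hy.ne')).const_mul _).sub_const _).cexp).const_mul ζ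
  have hy0 : (cexp ((β * t : ℝ) * I)).im = Real.sin (β * t) := exp_ofReal_mul_I_im _
  have hy1 : 0 < (cexp ((β * t : ℝ) * I)).im := by
    rw [hy0]; exact Real.sin_pos_of_pos_of_lt_pi a1 a2
  have hlog : -I / β * Complex.log (cexp ((β * t : ℝ) * I)) - t = 0 := by
    rw [Complex.log_exp (by simp; linarith [pi_pos]) (by simpa using a2.le)]
    have : (β : ℂ) ≠ 0 := by exact_mod_cast hβ0.ne'
    push_cast
    field_simp
    simp
  have h3 := pickH (G := fun y => w (ζ * cexp (-I / β * Complex.log y - t)))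
    (fun y hy => (hd _ (hA y hy).1 (hA y hy).2).comp y (hψ y hy).differentiableAt)
    (fun y hy => hb _ (hA y hy).1 (hA y hy).2) hy1
  have h4 : HasDerivAt w (deriv w ζ)
      (ζ * cexp (-I / β * Complex.log (cexp ((β * t : ℝ) * I)) - t)) := by
    rw [hlog, Complex.exp_zero, mul_one]; exact (hd ζ h1 h2).hasDerivAt
  have h5 : deriv (fun y => w (ζ * cexp (-I / β * Complex.log y - t))) (cexp ((β * t : ℝ) * I)) =
      _ := (HasDerivAt.comp (h := fun y => ζ * cexp (-I / β * Complex.log y - t))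
        (cexp ((β * t : ℝ) * I)) h4 (hψ _ hy1)).deriv
  rw [h5, hy0] at h3
  simp only [hlog, Complex.exp_zero, mul_one, one_mul, norm_mul, norm_div, norm_neg, norm_I,
    norm_inv, norm_exp_ofReal_mul_I, inv_one, norm_real, Real.norm_eq_abs, abs_of_pos hβ0] at h3
  refine le_trans (le_of_eq ?_) h3
  ring

lemma pick_ext {f : ℂ → ℂ} {c : ℝ} (hc : 0 < c)
    (hd : ∀ z : ℂ, c < ‖z‖ → ‖z‖ < 1 → DifferentiableAt ℂ f z)
    (hb : ∀ z : ℂ, c < ‖z‖ → ‖z‖ < 1 → 1 ≤ ‖f z‖) {ζ : ℂ} (h1 : c < ‖ζ‖) (h2 : ‖ζ‖ < 1) :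
    ‖deriv f ζ‖ * sig c ‖ζ‖ ≤ ‖f ζ‖ ^ 2 - 1 := by
  have hne : ∀ z : ℂ, c < ‖z‖ → ‖z‖ < 1 → f z ≠ 0 := fun z a b h => by
    have := hb z a b
    rw [h, norm_zero] at this; linarith
  have h3 := pickA (w := fun z => (f z)⁻¹) hc (fun z a b => (hd z a b).inv (hne z a b))
    (fun z a b => by rw [norm_inv]; exact inv_le_one_of_one_le₀ (hb z a b)) h1 h2
  rw [((hd ζ h1 h2).hasDerivAt.fun_inv (hne ζ h1 h2)).deriv, norm_div, norm_neg, norm_pow,
    norm_inv, inv_pow, div_mul_eq_mul_div, div_le_iff₀ (by have := hb ζ h1 h2; positivity), sub_mul,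
    one_mul, inv_mul_cancel₀ (by have := hb ζ h1 h2; positivity)] at h3
  exact h3

end Pool.Agent.Lib.MP_5cb574_an
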