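import Mathlib
import Pool.Agent.Lib.MP_5cb574_an.Pick

/-! A comparison of Ahlfors type, and approximation of positive weights on a circle. -/

namespace Pool.Agent.Lib.MP_5cb574_an

open Complex Filter Topology Metric Real
open scoped ComplexConjugate

lemma local_cmp {F Z H : ℂ → ℂ} {F' Z' z₀ : ℂ} (hF : HasDerivAt F F' z₀) (hZ : HasDerivAt Z Z' z₀)
    (hH : ∀ᶠ z in 𝓝 z₀, DifferentiableAt ℂ H z) (hF0 : F z₀ = 0) (hZ0 : Z z₀ = 0)
    (hH0 : H z₀ ≠ 0)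
    (h : ∀ᶠ z in 𝓝 z₀, ‖H z‖ * (1 - ‖F z‖ ^ 2) ≤ ‖H z₀‖ * (1 - ‖Z z‖ ^ 2)) : ‖Z'‖ ≤ ‖F'‖ := by
  by_contra hc
  rw [not_le] at hc
  have h1 := (hasDerivAt_iff_tendsto_slope.mp hF).norm.eventually_lt
    (hasDerivAt_iff_tendsto_slope.mp hZ).norm hc
  have h2 : ∀ᶠ z in 𝓝 z₀, ‖F z‖ < 1 :=
    hF.continuousAt.norm.eventually_lt continuousAt_const (by simp [hF0])
  have h3 : ∀ᶠ z in 𝓝[≠] z₀, ‖H z‖ < ‖H z₀‖ := by
    filter_upwards [h1, nhdsWithin_le_nhds h2, nhdsWithin_le_nhds h, self_mem_nhdsWithin]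
      with z a b d e
    have e1 : 0 < ‖(z - z₀)⁻¹‖ := norm_pos_iff.mpr (inv_ne_zero (sub_ne_zero.mpr e))
    simp only [slope, vsub_eq_sub, hF0, hZ0, sub_zero, norm_smul] at a
    have a1 := lt_of_mul_lt_mul_left a e1.le
    have a2 : 0 < 1 - ‖F z‖ ^ 2 := by nlinarith [norm_nonneg (F z)]
    have a3 : 1 - ‖Z z‖ ^ 2 < 1 - ‖F z‖ ^ 2 := by nlinarith [norm_nonneg (F z)]
    exact lt_of_mul_lt_mul_right
      (lt_of_le_of_lt d (mul_lt_mul_of_pos_left a3 (norm_pos_iff.mpr hH0))) a2.le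
  have h4 : IsLocalMax (norm ∘ H) z₀ := by
    have := eventually_nhdsWithin_iff.mp h3
    filter_upwards [this] with z hz
    by_cases e : z = z₀
    · rw [e]
    · exact (hz e).le
  have h5 := Complex.norm_eventually_eq_of_isLocalMax hH h4
  obtain ⟨z, a, b⟩ := (h3.and (nhdsWithin_le_nhds h5)).exists
  exact a.ne b

lemma moeb_id2 (s : ℝ) (a w : ℂ) :
    ‖(s : ℂ) ^ 2 - conj a * w‖ ^ 2 - ‖s * (w - a)‖ ^ 2 = (s ^ 2 - ‖a‖ ^ 2) * (s ^ 2 - ‖w‖ ^ 2) := by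
  simp only [← Complex.normSq_eq_norm_sq, Complex.normSq_apply, sub_re, sub_im, mul_re, mul_im,
    conj_re, conj_im, ← ofReal_pow, ofReal_re, ofReal_im]
  ring

lemma ahl_alg {b a b2 a2 e e0 u u0 v v0 : ℝ} (hb : 0 < b) (hb2 : 0 < b2) (hu0 : 0 < u0)
    (hv0 : 0 < v0) (hv : 0 < v) (h1 : b ^ 2 - a ^ 2 = u0 * u) (h2 : b2 ^ 2 - a2 ^ 2 = v0 * v)
    (h : u * e / v ≤ u0 * e0 / v0) :
    b ^ 2 * e / b2 ^ 2 * (1 - (a / b) ^ 2) ≤ u0 ^ 2 * e0 / v0 ^ 2 * (1 - (a2 / b2) ^ 2) := by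
  have e1 : b ^ 2 * e / b2 ^ 2 * (1 - (a / b) ^ 2) = u * e / v * (u0 * v / b2 ^ 2) := by
    have : 1 - (a / b) ^ 2 = u0 * u / b ^ 2 := by rw [← h1]; field_simp
    rw [this]; field_simp
  have e2 : u0 ^ 2 * e0 / v0 ^ 2 * (1 - (a2 / b2) ^ 2) = u0 * e0 / v0 * (u0 * v / b2 ^ 2) := by
    have : 1 - (a2 / b2) ^ 2 = v0 * v / b2 ^ 2 := by rw [← h2]; field_simp
    rw [this]; field_simp
  rw [e1, e2]
  exact mul_le_mul_of_nonneg_right h (by positivity)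

lemma ahl_local {f p : ℂ → ℂ} {s : ℝ} {z₀ : ℂ} (hf : ∀ᶠ z in 𝓝 z₀, DifferentiableAt ℂ f z)
    (hp : Differentiable ℂ p) (hs : ‖z₀‖ < s) (h1 : ‖f z₀‖ < 1)
    (h : ∀ᶠ z in 𝓝 z₀, (1 - ‖f z‖ ^ 2) * rexp (-(p z).re) / (s ^ 2 - ‖z‖ ^ 2) ≤
      (1 - ‖f z₀‖ ^ 2) * rexp (-(p z₀).re) / (s ^ 2 - ‖z₀‖ ^ 2)) :
    s / (s ^ 2 - ‖z₀‖ ^ 2) ≤ ‖deriv f z₀‖ / (1 - ‖f z₀‖ ^ 2) := by
  have hs0 : 0 < s := (norm_nonneg _).trans_lt hs
  have hu : 0 < 1 - ‖f z₀‖ ^ 2 := by nlinarith [norm_nonneg (f z₀)]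
  have hv : 0 < s ^ 2 - ‖z₀‖ ^ 2 := by nlinarith [norm_nonneg z₀]
  have e1 : 1 - conj (f z₀) * f z₀ = ((1 - ‖f z₀‖ ^ 2 : ℝ) : ℂ) := by
    rw [conj_mul']; push_cast; ring
  have e2 : (s : ℂ) ^ 2 - conj z₀ * z₀ = ((s ^ 2 - ‖z₀‖ ^ 2 : ℝ) : ℂ) := by
    rw [conj_mul']; push_cast; ring
  have n1 : ((1 - ‖f z₀‖ ^ 2 : ℝ) : ℂ) ≠ 0 := by exact_mod_cast hu.ne'
  have n2 : ((s ^ 2 - ‖z₀‖ ^ 2 : ℝ) : ℂ) ≠ 0 := by exact_mod_cast hv.ne'
  have hd := hf.self_of_nhds.hasDerivAt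
  have d1 := (hd.sub_const (f z₀)).fun_div ((hd.const_mul (conj (f z₀))).const_sub 1)
    (by rw [e1]; exact n1)
  have d2 := (((hasDerivAt_id' z₀).sub_const z₀).const_mul (s : ℂ)).fun_div
    (((hasDerivAt_id' z₀).const_mul (conj z₀)).const_sub ((s : ℂ) ^ 2)) (by rw [e2]; exact n2)
  have m1 : ∀ᶠ z in 𝓝 z₀, 1 - conj (f z₀) * f z ≠ 0 :=
    ((hd.const_mul (conj (f z₀))).const_sub 1).continuousAt.eventually_ne (by rw [e1]; exact n1)
  have m2 : ∀ᶠ z in 𝓝 z₀, (s : ℂ) ^ 2 - conj z₀ * z ≠ 0 :=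
    ContinuousAt.eventually_ne (by fun_prop) (by rw [e2]; exact n2)
  have m3 : ∀ᶠ z in 𝓝 z₀, ‖z‖ < s :=
    continuous_norm.continuousAt.eventually_lt continuousAt_const hs
  have key := local_cmp (H := fun z => (1 - conj (f z₀) * f z) ^ 2 * cexp (-p z) /
    ((s : ℂ) ^ 2 - conj z₀ * z) ^ 2) d1 d2 ?_ (by simp) (by simp) ?_ ?_
  · rw [sub_self, sub_self, e1, e2, mul_zero, zero_mul, zero_mul, sub_zero, sub_zero, mul_one,
      sq (((1 - ‖f z₀‖ ^ 2 : ℝ) : ℂ)), sq (((s ^ 2 - ‖z₀‖ ^ 2 : ℝ) : ℂ)),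
      mul_div_mul_right _ _ n1, mul_div_mul_right _ _ n2, norm_div, norm_div, norm_real, norm_real,
      norm_real, Real.norm_eq_abs, Real.norm_eq_abs, Real.norm_eq_abs, abs_of_pos hs0,
      abs_of_pos hu, abs_of_pos hv] at key
    exact key
  · filter_upwards [hf, m2] with z a b
    exact ((((a.const_mul _).const_sub 1).pow 2).mul (hp z).neg.cexp).div (by fun_prop)
      (pow_ne_zero 2 b)
  · simp only [e1, e2]
    exact div_ne_zero (mul_ne_zero (pow_ne_zero 2 n1) (Complex.exp_ne_zero _)) (pow_ne_zero 2 n2)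
  · filter_upwards [h, m1, m2, m3] with z a b c d
    simp only [e1, e2, norm_div, norm_mul (_ ^ 2 : ℂ), norm_pow, norm_exp, neg_re, norm_real,
      Real.norm_eq_abs, abs_of_pos hu, abs_of_pos hv]
    exact ahl_alg (norm_pos_iff.mpr b) (norm_pos_iff.mpr c) hu hv
      (by nlinarith [norm_nonneg z]) (moeb_id _ _) (moeb_id2 _ _ _) a

lemma ahlfors {f p : ℂ → ℂ} {c s : ℝ} (hc : 0 < c) (hs : c < s)
    (hf : ∀ z : ℂ, ‖z‖ ≤ c → DifferentiableAt ℂ f z) (hp : Differentiable ℂ p)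
    (hb : ∀ z : ℂ, ‖z‖ = c → 1 ≤ ‖f z‖) (hd : ∀ z : ℂ, ‖z‖ ≤ c → ‖deriv f z‖ ≤ rexp (p z).re)
    {z : ℂ} (hz : ‖z‖ ≤ c) : 1 - ‖f z‖ ^ 2 ≤ (s ^ 2 - ‖z‖ ^ 2) / s * rexp (p z).re := by
  have hs0 : 0 < s := hc.trans hs
  have hv : ∀ z : ℂ, ‖z‖ ≤ c → 0 < s ^ 2 - ‖z‖ ^ 2 := fun z hz => by nlinarith [norm_nonneg z]
  have hcont : ContinuousOn
      (fun z => (1 - ‖f z‖ ^ 2) * rexp (-(p z).re) / (s ^ 2 - ‖z‖ ^ 2)) (closedBall 0 c) := by
    intro z hz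
    have h1 := (hf z (mem_closedBall_zero_iff.mp hz)).continuousAt
    have h2 := (hp z).continuousAt
    refine ContinuousAt.continuousWithinAt (ContinuousAt.div (by fun_prop) (by fun_prop) ?_)
    exact (hv z (mem_closedBall_zero_iff.mp hz)).ne'
  obtain ⟨z₀, h0, hm⟩ := (isCompact_closedBall (0 : ℂ) c).exists_isMaxOn
    (nonempty_closedBall.mpr hc.le) hcont
  rw [mem_closedBall_zero_iff] at h0
  have key : (1 - ‖f z₀‖ ^ 2) * rexp (-(p z₀).re) / (s ^ 2 - ‖z₀‖ ^ 2) ≤ 1 / s := by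
    have a0 := hv z₀ h0
    rcases le_or_gt 1 ‖f z₀‖ with h1 | h1
    · refine le_trans (div_nonpos_of_nonpos_of_nonneg ?_ a0.le) (by positivity)
      exact mul_nonpos_of_nonpos_of_nonneg (by nlinarith) (Real.exp_pos _).le
    · have h2 : ‖z₀‖ < c := lt_of_le_of_ne h0 fun h => (hb z₀ h).not_gt h1
      have h3 : ∀ᶠ z in 𝓝 z₀, ‖z‖ < c :=
        continuous_norm.continuousAt.eventually_lt continuousAt_const h2
      have h4 := ahl_local (f := f) (by filter_upwards [h3] with z hz using hf z hz.le) hp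
        (h2.trans hs) h1 (by
          filter_upwards [h3] with z hz using hm (mem_closedBall_zero_iff.mpr hz.le))
      have hu : 0 < 1 - ‖f z₀‖ ^ 2 := by nlinarith [norm_nonneg (f z₀)]
      rw [div_le_div_iff₀ a0 hu] at h4
      rw [div_le_div_iff₀ a0 hs0, Real.exp_neg, mul_assoc, mul_comm _ s, ← mul_assoc,
        ← div_eq_mul_inv, div_le_iff₀ (Real.exp_pos _)]
      nlinarith [mul_le_mul_of_nonneg_right (hd z₀ h0) a0.le]
  have h5 := le_trans (hm (mem_closedBall_zero_iff.mpr hz)) key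
  rw [div_le_div_iff₀ (hv z hz) hs0, Real.exp_neg, mul_assoc, mul_comm _ s, ← mul_assoc,
    ← div_eq_mul_inv, div_le_iff₀ (Real.exp_pos _)] at h5
  rw [div_mul_eq_mul_div, le_div_iff₀ hs0]
  linarith

lemma re_zpow {r : ℝ} (hr : 0 < r) (a : ℂ) (m : ℤ) :
    ∃ p : ℂ → ℂ, Differentiable ℂ p ∧ ∀ z ∈ sphere (0 : ℂ) r, (a * z ^ m).re = (p z).re := by
  obtain ⟨n, rfl | rfl⟩ := Int.eq_nat_or_neg m
  · exact ⟨fun z => a * z ^ n, by fun_prop, fun z _ => by rw [zpow_natCast]⟩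
  · refine ⟨fun z => conj a * (z / (r : ℂ) ^ 2) ^ n, by fun_prop, fun z hz => ?_⟩
    have h1 : z * conj z = (r : ℂ) ^ 2 := by rw [mul_conj', mem_sphere_zero_iff_norm.mp hz]
    have h2 : z ≠ 0 := by
      rintro rfl
      simp at hz
      exact hr.ne hz
    have h3 : conj z ≠ 0 := by simpa using h2
    rw [← conj_re (a * _), map_mul, zpow_neg, zpow_natCast, map_inv₀, map_pow, ← h1, ← inv_pow]
    congr 3
    field_simp

/-- Every `a z ^ m F` has a real part which is a uniform limit of real parts of entire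
functions. -/
def Apx (r : ℝ) (F : C(sphere (0 : ℂ) r, ℂ)) : Prop :=
  ∀ (a : ℂ) (m : ℤ) (ε : ℝ), 0 < ε → ∃ p : ℂ → ℂ, Differentiable ℂ p ∧
    ∀ z : sphere (0 : ℂ) r, |(a * (z : ℂ) ^ m * F z).re - (p z).re| ≤ ε

lemma apx_all {r : ℝ} (hr : 0 < r) (G : C(sphere (0 : ℂ) r, ℂ)) : ∀ F, Apx r F → Apx r (G * F) := by
  have hz0 : ∀ z : sphere (0 : ℂ) r, (z : ℂ) ≠ 0 := by
    rintro ⟨z, hz⟩ rfl
    simp at hz
    exact hr.ne hz
  induction G using ContinuousMap.induction_on_of_compact with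
  | const b =>
    intro F hF a m ε hε
    obtain ⟨p, h1, h2⟩ := hF (a * b) m ε hε
    refine ⟨p, h1, fun z => ?_⟩
    convert h2 z using 4
    simp; ring
  | id =>
    intro F hF a m ε hε
    obtain ⟨p, h1, h2⟩ := hF a (m + 1) ε hε
    refine ⟨p, h1, fun z => ?_⟩
    convert h2 z using 4
    rw [zpow_add_one₀ (hz0 z)]
    simp; ring
  | star_id =>
    intro F hF a m ε hε
    obtain ⟨p, h1, h2⟩ := hF (a * (r : ℂ) ^ 2) (m - 1) ε hε
    refine ⟨p, h1, fun z => ?_⟩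
    convert h2 z using 4
    have h3 : (z : ℂ) * conj (z : ℂ) = (r : ℂ) ^ 2 := by
      rw [mul_conj', mem_sphere_zero_iff_norm.mp z.2]
    have h4 := hz0 z
    rw [zpow_sub_one₀ h4, ← h3]
    simp
    field_simp
  | add G₁ G₂ a1 a2 =>
    intro F hF a m ε hε
    obtain ⟨p, h1, h2⟩ := a1 F hF a m (ε / 2) (by positivity)
    obtain ⟨q, h3, h4⟩ := a2 F hF a m (ε / 2) (by positivity)
    refine ⟨fun z => p z + q z, h1.add h3, fun z => ?_⟩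
    have h5 := abs_le.mp (h2 z)
    have h6 := abs_le.mp (h4 z)
    rw [add_mul, ContinuousMap.add_apply, mul_add, add_re, add_re, abs_le]
    constructor <;> linarith [h5.1, h5.2, h6.1, h6.2]
  | mul G₁ G₂ a1 a2 =>
    intro F hF
    rw [mul_assoc]
    exact a1 _ (a2 F hF)
  | frequently G h =>
    intro F hF a m ε hε
    have hK : 0 < ‖a‖ * r ^ m * ‖F‖ + 1 := by positivity
    obtain ⟨G', h1, h2⟩ := (h.and_eventually
      (Metric.ball_mem_nhds G (ε := ε / 2 / (‖a‖ * r ^ m * ‖F‖ + 1)) (by positivity))).exists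
    obtain ⟨p, h3, h4⟩ := h1 F hF a m (ε / 2) (by positivity)
    refine ⟨p, h3, fun z => ?_⟩
    have h5 : |(a * (z : ℂ) ^ m * (G * F) z).re - (a * (z : ℂ) ^ m * (G' * F) z).re| ≤ ε / 2 := by
      rw [← sub_re]
      refine (abs_re_le_norm _).trans ?_
      have h6 : ‖G z - G' z‖ ≤ ε / 2 / (‖a‖ * r ^ m * ‖F‖ + 1) := by
        rw [← dist_eq_norm, dist_comm]
        exact (ContinuousMap.dist_apply_le_dist z).trans (le_of_lt h2)
      rw [le_div_iff₀ hK] at h6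
      have h7 := F.norm_coe_le_norm z
      rw [ContinuousMap.mul_apply, ContinuousMap.mul_apply, ← mul_sub, ← sub_mul, norm_mul, norm_mul,
        norm_mul, norm_zpow, mem_sphere_zero_iff_norm.mp z.2]
      have h8 : ‖a‖ * r ^ m * (‖G z - G' z‖ * ‖F z‖) ≤ ‖a‖ * r ^ m * (‖G z - G' z‖ * ‖F‖) := by
        gcongr
      nlinarith [norm_nonneg (G z - G' z)]
    have h6 := abs_le.mp (h4 z)
    have h7 := abs_le.mp h5
    rw [abs_le]
    constructor <;> linarith [h6.1, h6.2, h7.1, h7.2]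

lemma outer {r : ℝ} (hr : 0 < r) {K : ℂ → ℝ} (hK : ContinuousOn K (sphere 0 r))
    (h0 : ∀ z ∈ sphere (0 : ℂ) r, 0 < K z) {ε : ℝ} (hε : 0 < ε) :
    ∃ p : ℂ → ℂ, Differentiable ℂ p ∧
      ∀ z ∈ sphere (0 : ℂ) r, K z ≤ rexp (p z).re ∧ rexp (p z).re ≤ rexp ε * K z := by
  have h1 : Apx r 1 := by
    intro a m δ hδ
    obtain ⟨p, h1, h2⟩ := re_zpow hr a m
    exact ⟨p, h1, fun z => by simp [h2 z z.2, hδ.le]⟩
  have h2 : ContinuousOn (fun z => ((Real.log (K z) : ℝ) : ℂ)) (sphere 0 r) :=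
    continuous_ofReal.comp_continuousOn (hK.log fun z hz => (h0 z hz).ne')
  obtain ⟨p, h3, h4⟩ := apx_all hr ⟨_, h2.domRestrict⟩ 1 h1 1 0 (ε / 2) (by positivity)
  refine ⟨fun z => p z + (ε / 2 : ℝ), h3.add_const _, fun z hz => ?_⟩
  have h5 := h4 ⟨z, hz⟩
  simp only [zpow_zero, mul_one, one_mul, ContinuousMap.coe_mk, Set.domRestrict_apply, ofReal_re,
    abs_le] at h5
  rw [add_re, ofReal_re, ← Real.exp_log (h0 z hz), ← Real.exp_add]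
  constructor <;> apply Real.exp_le_exp.mpr <;> linarith [h5.1, h5.2]

end Pool.Agent.Lib.MP_5cb574_an
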