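import Mathlib

/-! Positive semidefinite kernels on the naturals and Schur-type bounds for Toeplitz sequences. -/

namespace Pool.Agent.Lib.MP_5cb574_an

open Finset Complex Filter Topology
open scoped ComplexConjugate

/-- Hermitian positive semidefinite kernels. -/
structure PSD (M : ℕ → ℕ → ℂ) : Prop where
  herm : ∀ j k, M j k = conj (M k j)
  pos : ∀ (n : ℕ) (u : ℕ → ℂ), 0 ≤ (∑ j ∈ range n, ∑ k ∈ range n, M j k * u j * conj (u k)).re

lemma PSD.pull {M : ℕ → ℕ → ℂ} (h : PSD M) {ι : Type*} (s : Finset ι) (p : ι → ℕ) (u : ι → ℂ) :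
    0 ≤ (∑ i ∈ s, ∑ l ∈ s, M (p i) (p l) * u i * conj (u l)).re := by
  classical
  set n := s.sup p + 1 with hn
  have hm : ∀ i ∈ s, p i ∈ range n := fun i hi =>
    mem_range.mpr (Nat.lt_succ_of_le (le_sup (f := p) hi))
  have h1 := h.pos n (fun j => ∑ i ∈ s with p i = j, u i)
  convert h1 using 2
  rw [← sum_fiberwise_of_maps_to hm]
  refine sum_congr rfl fun j _ => ?_
  have e : ∀ i ∈ s.filter (fun i => p i = j), ∑ l ∈ s, M (p i) (p l) * u i * conj (u l) =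
      ∑ k ∈ range n, ∑ l ∈ s with p l = k, M j k * u i * conj (u l) := by
    intro i hi
    rw [← sum_fiberwise_of_maps_to hm]
    refine sum_congr rfl fun k _ => sum_congr rfl fun l hl => ?_
    rw [(mem_filter.mp hi).2, (mem_filter.mp hl).2]
  rw [sum_congr rfl e, sum_comm]
  refine sum_congr rfl fun k _ => ?_
  rw [map_sum, mul_assoc, sum_mul_sum, mul_sum]
  refine sum_congr rfl fun i _ => ?_
  rw [mul_sum]
  exact sum_congr rfl fun l _ => by ring

lemma PSD.transpose {M : ℕ → ℕ → ℂ} (h : PSD M) : PSD (fun j k => M k j) where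
  herm j k := h.herm k j
  pos n u := by
    have := h.pos n (fun j => conj (u j))
    rw [sum_comm] at this
    convert this using 2
    refine sum_congr rfl fun j _ => sum_congr rfl fun k _ => ?_
    rw [conj_conj]; ring

lemma PSD.diag_im {M : ℕ → ℕ → ℂ} (h : PSD M) (j : ℕ) : M j j = ((M j j).re : ℂ) := by
  have := h.herm j j
  exact (conj_eq_iff_re.mp this.symm).symm

lemma PSD.two {M : ℕ → ℕ → ℂ} (h : PSD M) :
    2 * (M 0 1).re ≤ (M 0 0).re + (M 1 1).re := by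
  have h1 := h.pos 2 (fun j => if j = 0 then 1 else -1)
  have h2 : (M 1 0).re = (M 0 1).re := by rw [h.herm 1 0, conj_re]
  simp [sum_range_succ] at h1
  linarith

/-- The bilinear form of a kernel on two families. -/
noncomputable def Q (M : ℕ → ℕ → ℂ) (n : ℕ) (p p' : ℕ → ℕ) (u v : ℕ → ℂ) : ℂ :=
  ∑ k ∈ range n, ∑ l ∈ range n, M (p k) (p' l) * u k * conj (v l)

lemma PSD.cs {M : ℕ → ℕ → ℂ} (h : PSD M) (n : ℕ) (p p' : ℕ → ℕ) (u v : ℕ → ℂ) {w : ℂ}
    (hw : ‖w‖ ≤ 1) : 2 * (w * Q M n p p' u v).re ≤ (Q M n p p u u).re + (Q M n p' p' v v).re := by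
  have h1 := h.pull ((range n).disjSum (range n)) (Sum.elim p p')
    (Sum.elim (fun k => w * u k) (fun l => - v l))
  simp only [sum_disjSum, Sum.elim_inl, Sum.elim_inr, sum_add_distrib] at h1
  have e1 : ∑ k ∈ range n, ∑ l ∈ range n, M (p k) (p l) * (w * u k) * conj (w * u l) =
      ((‖w‖ ^ 2 : ℝ) : ℂ) * Q M n p p u u := by
    unfold Q
    rw [mul_sum]
    refine sum_congr rfl fun k _ => ?_
    rw [mul_sum]
    refine sum_congr rfl fun l _ => ?_
    rw [map_mul, ← Complex.normSq_eq_norm_sq, ← Complex.mul_conj]; ring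
  have e2 : ∑ k ∈ range n, ∑ l ∈ range n, M (p k) (p' l) * (w * u k) * conj (- v l) =
      - (w * Q M n p p' u v) := by
    unfold Q
    rw [mul_sum, ← sum_neg_distrib]
    refine sum_congr rfl fun k _ => ?_
    rw [mul_sum, ← sum_neg_distrib]
    refine sum_congr rfl fun l _ => ?_
    rw [map_neg]; ring
  have e3 : ∑ k ∈ range n, ∑ l ∈ range n, M (p' k) (p l) * (- v k) * conj (w * u l) =
      - conj (w * Q M n p p' u v) := by
    unfold Q
    rw [sum_comm, mul_sum, map_sum, ← sum_neg_distrib]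
    refine sum_congr rfl fun k _ => ?_
    rw [mul_sum, map_sum, ← sum_neg_distrib]
    refine sum_congr rfl fun l _ => ?_
    rw [h.herm (p' l) (p k)]
    simp only [map_mul, conj_conj]; ring
  have e4 : ∑ k ∈ range n, ∑ l ∈ range n, M (p' k) (p' l) * (- v k) * conj (- v l) =
      Q M n p' p' v v := by
    unfold Q
    refine sum_congr rfl fun k _ => sum_congr rfl fun l _ => ?_
    rw [map_neg]; ring
  rw [e1, e2, e3, e4] at h1
  have h2 : 0 ≤ (Q M n p p u u).re := h.pull (range n) p u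
  have h3 : ‖w‖ ^ 2 ≤ 1 := by nlinarith [norm_nonneg w]
  simp only [add_re, neg_re, conj_re, re_ofReal_mul] at h1
  nlinarith

/-- The Schur-type bound satisfied by the Fourier coefficients of a function of modulus at most
one. -/
def TC (w : ℤ → ℂ) : Prop :=
  ∀ (M : ℕ → ℕ → ℂ), PSD M → ∀ (n : ℕ) (p p' : ℕ → ℕ) (a b : ℕ → ℂ),
    2 * (∑ k ∈ range n, ∑ j ∈ range n, w ((j : ℤ) - k) * (M (p k) (p' j) * a k * conj (b j))).re ≤
      ∑ k ∈ range n, (M (p k) (p k)).re * ‖a k‖ ^ 2 +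
        ∑ j ∈ range n, (M (p' j) (p' j)).re * ‖b j‖ ^ 2

lemma TC.of_tendsto {α : Type*} {l : Filter α} [l.NeBot] {w : α → ℤ → ℂ} {w' : ℤ → ℂ}
    (h : ∀ᶠ x in l, TC (w x)) (hl : ∀ m, Tendsto (fun x => w x m) l (𝓝 (w' m))) : TC w' := by
  intro M hM n p p' a b
  refine le_of_tendsto (f := fun x => 2 * (∑ k ∈ range n, ∑ j ∈ range n,
    w x ((j : ℤ) - k) * (M (p k) (p' j) * a k * conj (b j))).re) (x := l) ?_ ?_
  · refine Tendsto.const_mul _ ((continuous_re.tendsto _).comp ?_)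
    exact tendsto_finsetSum _ fun k _ => tendsto_finsetSum _ fun j _ => (hl _).mul_const _
  · filter_upwards [h] with x hx using hx M hM n p p' a b

/-- The inner radius. -/
noncomputable def cc : ℝ := 1 / Real.sqrt 3

lemma sqrt3_pos : 0 < Real.sqrt 3 := by positivity
lemma sqrt3_sq : Real.sqrt 3 ^ 2 = 3 := Real.sq_sqrt (by norm_num)
lemma cc_pos : 0 < cc := by unfold cc; positivity
lemma cc_mul : cc * Real.sqrt 3 = 1 := by unfold cc; field_simp
lemma cc_sq : cc ^ 2 = 1 / 3 := by unfold cc; rw [div_pow, sqrt3_sq]; norm_num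
lemma cc_lt : cc < 3 / 5 := by nlinarith [cc_sq, cc_pos]
lemma cc_gt : 0.577 < cc := by nlinarith [cc_sq, cc_pos]
lemma cc_inv : cc⁻¹ = 3 * cc := by
  have := cc_pos
  field_simp
  nlinarith [cc_sq]

/-- An approximate certificate. -/
structure Cert (n : ℕ) (P : ℕ → ℕ → Prop) (ε : ℝ) where
  O : ℕ → ℕ → ℂ
  I : ℕ → ℕ → ℂ
  hO : PSD O
  hI : PSD I
  px : ℕ → ℕ
  py : ℕ → ℕ
  xO : ℕ → ℝ
  xI : ℕ → ℝ
  yO : ℕ → ℝ
  yI : ℕ → ℝ
  cross : ∀ k < n, ∀ j < n, P k j →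
    ‖xO k * yO j * O (px k) (py j) + (cc : ℂ) ^ ((j : ℤ) - k) * (xI k * yI j * I (px k) (py j)) -
      1 / (j + 1)‖ ≤ ε
  nx : ∀ k < n, xO k ^ 2 * (O (px k) (px k)).re + xI k ^ 2 * (I (px k) (px k)).re ≤ 1 / (k + 1) + ε
  ny : ∀ j < n, yO j ^ 2 * (O (py j) (py j)).re + yI j ^ 2 * (I (py j) (py j)).re ≤ 1 / (j + 1) + ε

theorem core_ineq {n : ℕ} {P : ℕ → ℕ → Prop} (hC : ∀ ε > 0, Nonempty (Cert n P ε)) {w : ℤ → ℂ}
    (h1 : TC w) (h2 : TC (fun m => (cc : ℂ) ^ m * w m)) (a b : ℕ → ℂ)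
    (hP : ∀ k j, ¬ P k j → w ((j : ℤ) - k) * a k * conj (b j) = 0) :
    2 * (∑ k ∈ range n, ∑ j ∈ range n, w ((j : ℤ) - k) * a k * conj (b j) / (j + 1)).re ≤
      ∑ k ∈ range n, ‖a k‖ ^ 2 / (k + 1) + ∑ j ∈ range n, ‖b j‖ ^ 2 / (j + 1) := by
  set E : ℝ := 2 * ∑ k ∈ range n, ∑ j ∈ range n, ‖w ((j : ℤ) - k) * a k * conj (b j)‖ +
    (∑ k ∈ range n, ‖a k‖ ^ 2 + ∑ j ∈ range n, ‖b j‖ ^ 2) with hE
  have hE0 : 0 ≤ E := by positivity
  refine le_of_forall_pos_le_add fun δ hδ => ?_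
  have hε : 0 < δ / (E + 1) := by positivity
  have hεE : δ / (E + 1) * E ≤ δ := by
    rw [div_mul_eq_mul_div, div_le_iff₀ (by positivity)]; nlinarith
  set ε := δ / (E + 1)
  obtain ⟨C⟩ := hC ε hε
  have a1 := h1 C.O C.hO n C.px C.py (fun k => C.xO k * a k) (fun j => C.yO j * b j)
  have a2 := h2 C.I C.hI n C.px C.py (fun k => C.xI k * a k) (fun j => C.yI j * b j)
  have b1 : (∑ k ∈ range n, ∑ j ∈ range n, w ((j : ℤ) - k) * a k * conj (b j) / (j + 1)).re ≤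
      (∑ k ∈ range n, ∑ j ∈ range n, w ((j : ℤ) - k) *
        (C.O (C.px k) (C.py j) * (C.xO k * a k) * conj (C.yO j * b j))).re +
      (∑ k ∈ range n, ∑ j ∈ range n, (cc : ℂ) ^ ((j : ℤ) - k) * w ((j : ℤ) - k) *
        (C.I (C.px k) (C.py j) * (C.xI k * a k) * conj (C.yI j * b j))).re +
      ε * ∑ k ∈ range n, ∑ j ∈ range n, ‖w ((j : ℤ) - k) * a k * conj (b j)‖ := by
    simp only [re_sum, mul_sum, ← sum_add_distrib]
    refine sum_le_sum fun k hk => sum_le_sum fun j hj => ?_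
    set t := w ((j : ℤ) - k) * a k * conj (b j) with ht
    have e : w ((j : ℤ) - k) * (C.O (C.px k) (C.py j) * (C.xO k * a k) * conj (C.yO j * b j)) +
        (cc : ℂ) ^ ((j : ℤ) - k) * w ((j : ℤ) - k) *
        (C.I (C.px k) (C.py j) * (C.xI k * a k) * conj (C.yI j * b j)) - t / (j + 1) =
        t * (C.xO k * C.yO j * C.O (C.px k) (C.py j) + (cc : ℂ) ^ ((j : ℤ) - k) *
          (C.xI k * C.yI j * C.I (C.px k) (C.py j)) - 1 / (j + 1)) := by
      simp only [map_mul, conj_ofReal, ht]; ring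
    have hb : ‖t * (C.xO k * C.yO j * C.O (C.px k) (C.py j) + (cc : ℂ) ^ ((j : ℤ) - k) *
          (C.xI k * C.yI j * C.I (C.px k) (C.py j)) - 1 / (j + 1))‖ ≤ ε * ‖t‖ := by
      by_cases hp : P k j
      · rw [norm_mul, mul_comm]
        exact mul_le_mul_of_nonneg_right (C.cross k (mem_range.mp hk) j (mem_range.mp hj) hp)
          (norm_nonneg _)
      · rw [ht, hP k j hp]; simp
    rw [← e] at hb
    have := (abs_le.mp ((abs_re_le_norm _).trans hb)).1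
    simp only [sub_re, add_re] at this
    linarith
  have b2 : ∑ k ∈ range n, (C.O (C.px k) (C.px k)).re * ‖C.xO k * a k‖ ^ 2 +
      ∑ k ∈ range n, (C.I (C.px k) (C.px k)).re * ‖C.xI k * a k‖ ^ 2 ≤
      ∑ k ∈ range n, ‖a k‖ ^ 2 / (k + 1) + ε * ∑ k ∈ range n, ‖a k‖ ^ 2 := by
    simp only [mul_sum, ← sum_add_distrib]
    refine sum_le_sum fun k hk => ?_
    have := mul_le_mul_of_nonneg_right (C.nx k (mem_range.mp hk)) (sq_nonneg ‖a k‖)
    simp only [norm_mul, norm_real, Real.norm_eq_abs, mul_pow, sq_abs]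
    have e : ‖a k‖ ^ 2 / ((k : ℝ) + 1) = 1 / (k + 1) * ‖a k‖ ^ 2 := by ring
    rw [e]; nlinarith
  have b3 : ∑ k ∈ range n, (C.O (C.py k) (C.py k)).re * ‖C.yO k * b k‖ ^ 2 +
      ∑ k ∈ range n, (C.I (C.py k) (C.py k)).re * ‖C.yI k * b k‖ ^ 2 ≤
      ∑ k ∈ range n, ‖b k‖ ^ 2 / (k + 1) + ε * ∑ k ∈ range n, ‖b k‖ ^ 2 := by
    simp only [mul_sum, ← sum_add_distrib]
    refine sum_le_sum fun k hk => ?_
    have := mul_le_mul_of_nonneg_right (C.ny k (mem_range.mp hk)) (sq_nonneg ‖b k‖)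
    simp only [norm_mul, norm_real, Real.norm_eq_abs, mul_pow, sq_abs]
    have e : ‖b k‖ ^ 2 / ((k : ℝ) + 1) = 1 / (k + 1) * ‖b k‖ ^ 2 := by ring
    rw [e]; nlinarith
  beta_reduce at a1 a2
  rw [hE] at hεE
  nlinarith

end Pool.Agent.Lib.MP_5cb574_an
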