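import Mathlib
import Pool.Agent.Lib.MP_5cb574_an.Kernel

/-! Circle averages. -/

namespace Pool.Agent.Lib.MP_5cb574_an

open Finset Complex Filter Topology Metric Real
open scoped ComplexConjugate

/-- The average over the circle of radius `r` about the origin. -/
noncomputable def av (r : ℝ) (f : ℂ → ℂ) : ℂ := circleAverage f 0 r

/-- Continuity on the circle. -/
abbrev CS (r : ℝ) (f : ℂ → ℂ) : Prop := ContinuousOn f (sphere 0 r)

variable {r : ℝ}

lemma ne_zero_of_sphere (hr : 0 < r) {z : ℂ} (hz : z ∈ sphere (0 : ℂ) r) : z ≠ 0 := by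
  rintro rfl
  simp at hz
  exact hr.ne hz

lemma CS.ci {E : Type*} [NormedAddCommGroup E] {f : ℂ → E} (hr : 0 < r)
    (hf : ContinuousOn f (sphere 0 r)) : CircleIntegrable f 0 r :=
  ContinuousOn.circleIntegrable hr.le hf

lemma cs_zpow (hr : 0 < r) (m : ℤ) : CS r (fun z => z ^ m) :=
  continuousOn_id.zpow₀ m fun _ hz => Or.inl (ne_zero_of_sphere hr hz)

lemma CS.conj {f : ℂ → ℂ} (hf : CS r f) : CS r (fun z => conj (f z)) :=
  continuous_conj.comp_continuousOn hf

lemma CS.const (a : ℂ) : CS r (fun _ => a) := continuousOn_const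

lemma CS.mul {f g : ℂ → ℂ} (hf : CS r f) (hg : CS r g) : CS r (fun z => f z * g z) :=
  ContinuousOn.mul hf hg

lemma CS.add {f g : ℂ → ℂ} (hf : CS r f) (hg : CS r g) : CS r (fun z => f z + g z) :=
  ContinuousOn.add hf hg

lemma CS.sub {f g : ℂ → ℂ} (hf : CS r f) (hg : CS r g) : CS r (fun z => f z - g z) :=
  ContinuousOn.sub hf hg

lemma CS.cmul (a : ℂ) {g : ℂ → ℂ} (hg : CS r g) : CS r (fun z => a * g z) :=
  (CS.const a).mul hg

lemma CS.mulc (a : ℂ) {g : ℂ → ℂ} (hg : CS r g) : CS r (fun z => g z * a) :=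
  hg.mul (CS.const a)

lemma CS.sum {ι : Type*} (s : Finset ι) {f : ι → ℂ → ℂ} (hf : ∀ i ∈ s, CS r (f i)) :
    CS r (fun z => ∑ i ∈ s, f i z) := continuousOn_finsetSum _ hf

lemma cs_id : CS r (fun z => z) := continuousOn_id

lemma cs_pow (k : ℕ) : CS r (fun z => z ^ k) := (continuous_pow k).continuousOn

lemma cs_inv (hr : 0 < r) : CS r (fun z => z⁻¹) :=
  continuousOn_id.inv₀ fun _ hz => ne_zero_of_sphere hr hz

lemma av_congr (hr : 0 < r) {f g : ℂ → ℂ} (h : ∀ z ∈ sphere (0 : ℂ) r, f z = g z) :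
    av r f = av r g := by
  apply circleAverage_congr_sphere
  rw [abs_of_pos hr]; exact h

lemma av_add (hr : 0 < r) {f g : ℂ → ℂ} (hf : CS r f) (hg : CS r g) :
    av r (fun z => f z + g z) = av r f + av r g :=
  circleAverage_fun_add (CS.ci hr hf) (CS.ci hr hg)

lemma av_sub (hr : 0 < r) {f g : ℂ → ℂ} (hf : CS r f) (hg : CS r g) :
    av r (fun z => f z - g z) = av r f - av r g :=
  circleAverage_fun_sub (CS.ci hr hf) (CS.ci hr hg)

lemma av_const_mul (a : ℂ) (f : ℂ → ℂ) : av r (fun z => a * f z) = a * av r f :=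
  circleAverage_fun_smul (a := a)

lemma av_mul_const (a : ℂ) (f : ℂ → ℂ) : av r (fun z => f z * a) = av r f * a := by
  simp only [mul_comm _ a]; exact av_const_mul a f

lemma av_const (a : ℂ) : av r (fun _ => a) = a := circleAverage_const a 0 r

lemma av_sum (hr : 0 < r) {ι : Type*} (s : Finset ι) {f : ι → ℂ → ℂ} (hf : ∀ i ∈ s, CS r (f i)) :
    av r (fun z => ∑ i ∈ s, f i z) = ∑ i ∈ s, av r (f i) :=
  circleAverage_fun_sum fun i hi => CS.ci hr (hf i hi)

lemma av_conj (hr : 0 < r) {f : ℂ → ℂ} (hf : CS r f) :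
    av r (fun z => conj (f z)) = conj (av r f) :=
  (conjCLE : ℂ →L[ℝ] ℂ).circleAverage_comp_comm (CS.ci hr hf)

lemma av_re (hr : 0 < r) {f : ℂ → ℂ} (hf : CS r f) :
    (av r f).re = circleAverage (fun z => (f z).re) 0 r :=
  (reCLM.circleAverage_comp_comm (CS.ci hr hf)).symm

lemma av_re_mono (hr : 0 < r) {f g : ℂ → ℂ} (hf : CS r f) (hg : CS r g)
    (h : ∀ z ∈ sphere (0 : ℂ) r, (f z).re ≤ (g z).re) : (av r f).re ≤ (av r g).re := by
  rw [av_re hr hf, av_re hr hg]
  refine circleAverage_mono (CS.ci hr (continuous_re.comp_continuousOn hf))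
    (CS.ci hr (continuous_re.comp_continuousOn hg)) ?_
  rw [abs_of_pos hr]; exact h

lemma av_re_nonneg (hr : 0 < r) {f : ℂ → ℂ} (hf : CS r f)
    (h : ∀ z ∈ sphere (0 : ℂ) r, 0 ≤ (f z).re) : 0 ≤ (av r f).re := by
  have := av_re_mono hr (f := fun _ => 0) continuousOn_const hf (by simpa using h)
  simpa [av_const] using this

lemma norm_av_le (hr : 0 < r) {f g : ℂ → ℂ} (hf : CS r f) (hg : CS r g)
    (h : ∀ z ∈ sphere (0 : ℂ) r, ‖f z‖ ≤ (g z).re) : ‖av r f‖ ≤ (av r g).re := by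
  by_cases h0 : av r f = 0
  · rw [h0, norm_zero]
    exact av_re_nonneg hr hg fun z hz => (norm_nonneg _).trans (h z hz)
  set u : ℂ := conj (av r f) / ‖av r f‖ with hu
  have hn : (‖av r f‖ : ℂ) ≠ 0 := by simpa using h0
  have hu1 : ‖u‖ = 1 := by
    rw [hu, norm_div, norm_conj, norm_real, norm_norm]; exact div_self (by simpa using h0)
  have e : (av r (fun z => u * f z)).re = ‖av r f‖ := by
    rw [av_const_mul, hu, div_mul_eq_mul_div, conj_mul', sq, mul_div_assoc, div_self hn, mul_one,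
      ofReal_re]
  rw [← e]
  refine av_re_mono hr (hf.cmul _) hg fun z hz => ?_
  refine (re_le_norm _).trans ?_
  rw [norm_mul, hu1, one_mul]; exact h z hz

lemma norm_av_le_const (hr : 0 < r) {f : ℂ → ℂ} (hf : CS r f) {C : ℝ}
    (h : ∀ z ∈ sphere (0 : ℂ) r, ‖f z‖ ≤ C) : ‖av r f‖ ≤ C := by
  have := norm_av_le hr hf (g := fun _ => (C : ℂ)) continuousOn_const (by simpa using h)
  simpa [av_const] using this

lemma av_zpow (hr : 0 < r) (m : ℤ) : av r (fun z => z ^ m) = if m = 0 then 1 else 0 := by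
  split_ifs with h
  · subst h; simpa using av_const (r := r) 1
  · unfold av
    rw [circleAverage_eq_circleIntegral hr.ne']
    have e : (∮ z in C(0, r), (z - 0)⁻¹ • z ^ m) = ∮ z in C(0, r), (z - 0) ^ (m - 1) := by
      refine circleIntegral.integral_congr hr.le fun z hz => ?_
      have := ne_zero_of_sphere hr hz
      simp only [sub_zero, smul_eq_mul]
      rw [zpow_sub_one₀ this, mul_comm]
    rw [e, circleIntegral.integral_sub_zpow_of_ne (by omega), smul_zero]

lemma av_inv (f : ℂ → ℂ) : av 1 (fun z => f z⁻¹) = av 1 f := circleAverage_zero_one_congr_inv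

lemma av_scale (f : ℂ → ℂ) : av r f = av 1 (fun z => f (r * z)) := by
  unfold av
  rw [circleAverage_eq_circleAverage_zero_one]; simp

lemma av_mean (hr : 0 < r) {f : ℂ → ℂ} (hf : ∀ z, ‖z‖ ≤ r → DifferentiableAt ℂ f z) :
    av r f = f 0 := by
  refine circleAverage_of_differentiable_on_off_countable Set.countable_empty ?_ ?_
  · rw [abs_of_pos hr]
    exact fun z hz => (hf z (mem_closedBall_zero_iff.mp hz)).continuousAt.continuousWithinAt
  · rw [abs_of_pos hr]
    exact fun z hz => hf z (mem_ball_zero_iff.mp hz.1).le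

lemma av_annulus {r₁ r₂ : ℝ} (h1 : 0 < r₁) (h12 : r₁ ≤ r₂) {f : ℂ → ℂ}
    (hf : ∀ z, r₁ ≤ ‖z‖ → ‖z‖ ≤ r₂ → DifferentiableAt ℂ f z) : av r₂ f = av r₁ f := by
  unfold av
  rw [circleAverage_eq_circleIntegral h1.ne', circleAverage_eq_circleIntegral (h1.trans_le h12).ne',
    circleIntegral_sub_center_inv_smul_eq_of_differentiable_on_annulus_off_countable h1 h12
      Set.countable_empty]
  · intro z hz
    refine (hf z ?_ (mem_closedBall_zero_iff.mp hz.1)).continuousAt.continuousWithinAt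
    simpa using hz.2
  · intro z hz
    refine hf z ?_ (mem_ball_zero_iff.mp hz.1.1).le
    have := hz.1.2
    simp only [mem_closedBall_zero_iff, not_le] at this
    exact this.le

lemma av_hasSum (hr : 0 < r) {F u : ℂ → ℂ} {a : ℕ → ℂ} (hu : CS r u)
    (hs : Summable fun k => ‖a k‖ * r ^ k)
    (hF : ∀ z ∈ sphere (0 : ℂ) r, HasSum (fun k => a k * z ^ k) (F z)) :
    HasSum (fun k => a k * av r (fun z => z ^ k * u z)) (av r (fun z => F z * u z)) := by
  obtain ⟨C, hC⟩ := (isCompact_sphere (0 : ℂ) r).exists_bound_of_continuousOn hu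
  have hm : ∀ θ, circleMap 0 r θ ∈ sphere (0 : ℂ) r := fun θ => circleMap_mem_sphere 0 hr.le θ
  have hc : Continuous fun θ => u (circleMap 0 r θ) :=
    hu.comp_continuous (continuous_circleMap 0 r) hm
  have h1 := intervalIntegral.hasSum_integral_of_dominated_convergence (μ := MeasureTheory.volume)
    (a := 0) (b := 2 * π) (F := fun k θ => a k * (circleMap 0 r θ ^ k * u (circleMap 0 r θ)))
    (f := fun θ => F (circleMap 0 r θ) * u (circleMap 0 r θ)) (fun k _ => ‖a k‖ * r ^ k * C)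
    (fun k => Continuous.aestronglyMeasurable
      (continuous_const.mul (((continuous_circleMap 0 r).pow k).mul hc)))
    (fun k => Eventually.of_forall fun θ _ => by
      rw [norm_mul, norm_mul, norm_pow, norm_circleMap_zero, abs_of_pos hr, mul_assoc]
      gcongr
      exact hC _ (hm θ))
    (Eventually.of_forall fun θ _ => hs.mul_right C) intervalIntegrable_const
    (Eventually.of_forall fun θ _ => by
      simpa only [mul_assoc] using (hF _ (hm θ)).mul_right (u (circleMap 0 r θ)))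
  have h2 := h1.const_smul ((2 * π)⁻¹ : ℝ)
  simp only [← av_const_mul]
  exact h2

lemma conj_eq_inv {z : ℂ} (hz : z ∈ sphere (0 : ℂ) 1) : conj z = z⁻¹ := by
  rw [inv_eq_conj (by simpa using hz)]

lemma Q_av {M : ℕ → ℕ → ℂ} (n : ℕ) (p p' : ℕ → ℕ) (a b : ℕ → ℂ) {W : ℂ → ℂ} (hW : CS 1 W) :
    av 1 (fun z => W z * Q M n p p' (fun k => a k * z ^ k) (fun j => b j * z ^ j)) =
      ∑ k ∈ range n, ∑ j ∈ range n, av 1 (fun z => W z * z ^ (-((j : ℤ) - k))) *
        (M (p k) (p' j) * a k * conj (b j)) := by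
  have e : ∀ z ∈ sphere (0 : ℂ) 1,
      W z * Q M n p p' (fun k => a k * z ^ k) (fun j => b j * z ^ j) =
      ∑ k ∈ range n, ∑ j ∈ range n, W z * z ^ (-((j : ℤ) - k)) *
        (M (p k) (p' j) * a k * conj (b j)) := by
    intro z hz
    have h0 := ne_zero_of_sphere one_pos hz
    unfold Q
    rw [mul_sum]
    refine sum_congr rfl fun k _ => ?_
    rw [mul_sum]
    refine sum_congr rfl fun j _ => ?_
    rw [map_mul, map_pow, conj_eq_inv hz, neg_sub, zpow_sub₀ h0, zpow_natCast, zpow_natCast,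
      inv_pow]
    field_simp
  have hc : ∀ k j : ℕ, CS 1 (fun z => W z * z ^ (-((j : ℤ) - k)) *
      (M (p k) (p' j) * a k * conj (b j))) := fun k j =>
    (hW.mul (cs_zpow one_pos _)).mulc _
  rw [av_congr one_pos e, av_sum one_pos _ fun k _ => CS.sum _ fun j _ => hc k j]
  refine sum_congr rfl fun k _ => ?_
  rw [av_sum one_pos _ fun j _ => hc k j]
  exact sum_congr rfl fun j _ => av_mul_const _ _

lemma Q_cs {M : ℕ → ℕ → ℂ} (n : ℕ) (p p' : ℕ → ℕ) (a b : ℕ → ℂ) :
    CS 1 (fun z => Q M n p p' (fun k => a k * z ^ k) (fun j => b j * z ^ j)) := by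
  unfold Q
  exact Continuous.continuousOn (by fun_prop)

lemma Q_av_diag {M : ℕ → ℕ → ℂ} (n : ℕ) (p : ℕ → ℕ) (a : ℕ → ℂ) :
    (av 1 (fun z => Q M n p p (fun k => a k * z ^ k) (fun j => a j * z ^ j))).re =
      ∑ k ∈ range n, (M (p k) (p k)).re * ‖a k‖ ^ 2 := by
  have := Q_av (M := M) n p p a a (W := fun _ => 1) continuousOn_const
  simp only [one_mul] at this
  rw [this, re_sum]
  refine sum_congr rfl fun k hk => ?_
  rw [sum_eq_single k]
  · rw [av_zpow one_pos, if_pos (by simp), one_mul, mul_assoc, mul_conj', ← ofReal_pow,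
      re_mul_ofReal]
  · intro j _ hjk
    rw [av_zpow one_pos, if_neg (by omega), zero_mul]
  · intro h; exact absurd hk h

theorem TC_of_bound {W : ℂ → ℂ} (hW : CS 1 W) (h1 : ∀ z ∈ sphere (0 : ℂ) 1, ‖W z‖ ≤ 1) :
    TC (fun m => av 1 (fun z => W z * z ^ (-m))) := by
  intro M hM n p p' a b
  rw [← Q_av n p p' a b hW, ← Q_av_diag, ← Q_av_diag, ← add_re,
    ← av_add one_pos (Q_cs n p p a a) (Q_cs n p' p' b b)]
  have e : 2 * (av 1 (fun z => W z * Q M n p p' (fun k => a k * z ^ k) (fun j => b j * z ^ j))).re =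
      (av 1 (fun z => 2 * (W z * Q M n p p' (fun k => a k * z ^ k) (fun j => b j * z ^ j)))).re := by
    rw [av_const_mul]; simp
  rw [e]
  refine av_re_mono one_pos ((hW.mul (Q_cs n p p' a b)).cmul 2)
    ((Q_cs n p p a a).add (Q_cs n p' p' b b)) fun z hz => ?_
  have := hM.cs n p p' (fun k => a k * z ^ k) (fun j => b j * z ^ j) (h1 z hz)
  simpa using this

/-- The Gram kernel of a family of functions on the unit circle. -/
noncomputable def gram (v : ℕ → ℂ → ℂ) (a b : ℕ) : ℂ := av 1 (fun z => v a z * conj (v b z))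

lemma gram_herm {v : ℕ → ℂ → ℂ} (hv : ∀ a, CS 1 (v a)) (a b : ℕ) :
    gram v a b = conj (gram v b a) := by
  unfold gram
  rw [← av_conj one_pos ((hv b).mul (hv a).conj)]
  exact av_congr one_pos fun z _ => by simp [mul_comm]

lemma bessel2 {U : ℂ → ℂ} (hU : CS 1 U) :
    ‖av 1 U‖ ^ 2 + ‖av 1 (fun z => U z * z⁻¹)‖ ^ 2 ≤ (av 1 (fun z => U z * conj (U z))).re := by
  set α := av 1 U with hα
  set β := av 1 (fun z => U z * z⁻¹) with hβ
  have hi : CS 1 (fun z => z⁻¹) := cs_inv one_pos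
  have hUi : CS 1 (fun z => U z * z⁻¹) := hU.mul hi
  have hz1 : av 1 (fun z => z) = 0 := by simpa using av_zpow one_pos 1
  have h1 : av 1 (fun z => 2 * (conj α * U z + conj β * (U z * z⁻¹)) -
      (α * conj α + β * conj β + 2 * (conj α * β) * z)) = α * conj α + β * conj β := by
    rw [av_sub one_pos (((hU.cmul _).add (hUi.cmul _)).cmul _) ((CS.const _).add (cs_id.cmul _)),
      av_const_mul, av_add one_pos (hU.cmul _) (hUi.cmul _), av_const_mul,
      av_const_mul, av_add one_pos (CS.const _) (cs_id.cmul _), av_const, av_const_mul, hz1]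
    ring
  have h2 : (α * conj α + β * conj β).re = ‖α‖ ^ 2 + ‖β‖ ^ 2 := by
    rw [mul_conj', mul_conj', ← ofReal_pow, ← ofReal_pow, ← ofReal_add, ofReal_re]
  rw [← h2, ← h1]
  refine av_re_mono one_pos ((((hU.cmul _).add (hUi.cmul _)).cmul _).sub
    ((CS.const _).add (cs_id.cmul _))) (hU.mul hU.conj) fun z hz => ?_
  rw [← conj_eq_inv hz]
  have hz2 : z.re ^ 2 + z.im ^ 2 = 1 := by
    have : ‖z‖ = 1 := by simpa using hz
    have h4 := Complex.normSq_eq_norm_sq z
    rw [this, Complex.normSq_apply] at h4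
    linarith
  have h3 := Complex.normSq_nonneg (U z - α - β * z)
  simp only [Complex.normSq_apply, sub_re, sub_im, mul_re, mul_im, add_re, add_im, conj_re,
    conj_im, re_ofNat, im_ofNat] at h3 ⊢
  nlinarith [h3, congrArg (fun t => t * (β.re ^ 2 + β.im ^ 2)) hz2]

lemma gram_lower {v : ℕ → ℂ → ℂ} (hv : ∀ a, CS 1 (v a)) (n : ℕ) (u : ℕ → ℂ) :
    ‖∑ a ∈ range n, u a * av 1 (v a)‖ ^ 2 +
      ‖∑ a ∈ range n, u a * av 1 (fun z => v a z * z⁻¹)‖ ^ 2 ≤
      (∑ a ∈ range n, ∑ b ∈ range n, gram v a b * u a * conj (u b)).re := by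
  have hi : CS 1 (fun z => z⁻¹) := cs_inv one_pos
  have hU : CS 1 (fun z => ∑ a ∈ range n, u a * v a z) := CS.sum _ fun a _ => (hv a).cmul _
  have := bessel2 hU
  rw [av_sum one_pos _ fun a _ => (hv a).cmul _] at this
  simp only [sum_mul, av_const_mul] at this
  rw [av_sum one_pos _ fun a _ => ((hv a).cmul _).mul hi] at this
  simp only [mul_assoc, av_const_mul] at this
  refine this.trans (le_of_eq ?_)
  congr 1
  rw [av_sum one_pos _ fun a _ => ((hv a).mul hU.conj).cmul _]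
  refine sum_congr rfl fun a _ => ?_
  simp only [map_sum, mul_sum]
  rw [av_sum one_pos _ fun b _ => ((hv a).mul ((hv b).cmul _).conj).cmul _]
  refine sum_congr rfl fun b _ => ?_
  unfold gram
  rw [← av_mul_const, ← av_mul_const]
  exact av_congr one_pos fun z _ => by simp only [map_mul]; ring

end Pool.Agent.Lib.MP_5cb574_an
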