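import Mathlib
import Pool.Agent.Lib.MP_5cb574_an.Circle

/-! The two kernels built from an outer-type function. -/

namespace Pool.Agent.Lib.MP_5cb574_an

open Finset Complex Filter Topology Metric Real
open scoped ComplexConjugate

lemma diffAt_of_ball {f : ℂ → ℂ} {R : ℝ} (hf : DifferentiableOn ℂ f (ball 0 R)) {z : ℂ}
    (hz : ‖z‖ < R) : DifferentiableAt ℂ f z :=
  hf.differentiableAt (isOpen_ball.mem_nhds (mem_ball_zero_iff.mpr hz))

lemma cs_of_ball {f : ℂ → ℂ} {R r : ℝ} (hf : DifferentiableOn ℂ f (ball 0 R)) (h : r < R) :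
    CS r f := fun z hz =>
  (diffAt_of_ball hf (by rw [mem_sphere_zero_iff_norm.mp hz]; exact h)).continuousAt.continuousWithinAt

lemma av_ball {f : ℂ → ℂ} {R : ℝ} (hf : DifferentiableOn ℂ f (ball 0 R)) (h : 1 < R) :
    av 1 f = f 0 := av_mean one_pos fun _ hz => diffAt_of_ball hf (hz.trans_lt h)

lemma av_div {f : ℂ → ℂ} {R : ℝ} (hf : DifferentiableOn ℂ f (ball 0 R)) (h : 1 < R) :
    av 1 (fun z => f z * z⁻¹) = deriv f 0 := by
  have hd : DifferentiableOn ℂ (dslope f 0) (ball 0 R) :=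
    (differentiableOn_dslope (ball_mem_nhds _ (by linarith))).mpr hf
  have e : ∀ z ∈ sphere (0 : ℂ) 1, f z * z⁻¹ = f 0 * z ^ (-1 : ℤ) + dslope f 0 z := by
    intro z hz
    have h0 := ne_zero_of_sphere one_pos hz
    have := sub_smul_dslope f 0 z
    simp only [sub_zero, smul_eq_mul] at this
    rw [zpow_neg_one]
    field_simp
    linear_combination -this
  rw [av_congr one_pos e, av_add one_pos ((cs_zpow one_pos _).cmul _) (cs_of_ball hd h),
    av_const_mul, av_zpow one_pos, av_ball hd h, dslope_same]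
  simp

lemma PSD.of_two {M : ℕ → ℕ → ℂ} (h1 : ∀ j k, M j k = conj (M k j))
    (h2 : ∀ (n : ℕ) (u : ℕ → ℂ),
      0 ≤ (∑ j ∈ range (n + 2), ∑ k ∈ range (n + 2), M j k * u j * conj (u k)).re) : PSD M where
  herm := h1
  pos n u := by
    have := h2 n (fun j => if j < n then u j else 0)
    simp only [sum_range_succ, lt_self_iff_false, if_false, mul_zero, zero_mul, map_zero,
      add_zero, add_lt_iff_neg_left, not_lt_zero, sum_const_zero] at this
    convert this using 2
    refine sum_congr rfl fun j hj => sum_congr rfl fun k hk => ?_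
    rw [if_pos (mem_range.mp hj), if_pos (mem_range.mp hk)]

lemma av_geom (a b : ℕ) :
    av 1 (fun z => (∑ i ∈ range a, z ^ i) * ∑ j ∈ range b, z⁻¹ ^ j) = (min a b : ℕ) := by
  have e : ∀ z ∈ sphere (0 : ℂ) 1, (∑ i ∈ range a, z ^ i) * ∑ j ∈ range b, z⁻¹ ^ j =
      ∑ i ∈ range a, ∑ j ∈ range b, z ^ ((i : ℤ) - j) := by
    intro z hz
    rw [sum_mul_sum]
    refine sum_congr rfl fun i _ => sum_congr rfl fun j _ => ?_
    rw [zpow_sub₀ (ne_zero_of_sphere one_pos hz), zpow_natCast, zpow_natCast, inv_pow, div_eq_mul_inv]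
  rw [av_congr one_pos e, av_sum one_pos _ fun i _ => CS.sum _ fun j _ => cs_zpow one_pos _]
  have e2 : ∀ i ∈ range a, av 1 (fun z => ∑ j ∈ range b, z ^ ((i : ℤ) - j)) =
      if i < b then 1 else 0 := by
    intro i _
    rw [av_sum one_pos _ fun j _ => cs_zpow one_pos _]
    simp only [av_zpow one_pos, sub_eq_zero, Nat.cast_inj, sum_ite_eq, mem_range]
  rw [sum_congr rfl e2, sum_boole]
  congr 1
  have : (range a).filter (fun i => i < b) = range (min a b) := by
    ext i; simp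
  rw [this, card_range]

lemma av_koebe (n : ℤ) : av cc (fun z => z / (1 - z) ^ 2 * z ^ (-n)) = (max n 0 : ℤ) := by
  have hc1 : cc < 1 := by linarith [cc_lt]
  have h := av_hasSum cc_pos (F := fun z => z / (1 - z) ^ 2) (a := fun k => (k : ℂ))
    (cs_zpow cc_pos (-n)) (by
      have := summable_pow_mul_geometric_of_norm_lt_one 1 (r := cc)
        (by rw [Real.norm_eq_abs, abs_of_pos cc_pos]; exact hc1)
      simpa using this)
    (fun z hz => hasSum_coe_mul_geometric_of_norm_lt_one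
      (by rw [mem_sphere_zero_iff_norm.mp hz]; exact hc1))
  have e : ∀ k : ℕ, av cc (fun z => z ^ k * z ^ (-n)) = if (k : ℤ) = n then 1 else 0 := by
    intro k
    rw [av_congr cc_pos (g := fun z => z ^ ((k : ℤ) - n)) fun z hz => by
      rw [sub_eq_add_neg, zpow_add₀ (ne_zero_of_sphere cc_pos hz), zpow_natCast], av_zpow cc_pos]
    simp only [sub_eq_zero]
  simp only [e] at h
  rcases le_or_gt 0 n with hn | hn
  · lift n to ℕ using hn
    have h2 : HasSum (fun k : ℕ => (k : ℂ) * if (k : ℤ) = n then 1 else 0) (n : ℂ) := by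
      convert hasSum_single n (f := fun k : ℕ => (k : ℂ) * if (k : ℤ) = n then 1 else 0) ?_
      · simp
      · intro k hk
        rw [if_neg (by exact_mod_cast hk), mul_zero]
    rw [h.unique h2]; simp
  · have h2 : HasSum (fun k : ℕ => (k : ℂ) * if (k : ℤ) = n then 1 else 0) 0 := by
      convert hasSum_zero with k
      rw [if_neg (by omega), mul_zero]
    rw [h.unique h2, max_eq_right hn.le]; simp

/-- The analytic data from which the kernels are built. -/
structure EData (ε : ℝ) where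
  o : ℂ → ℂ
  oc : ℂ → ℂ
  o0 : ℝ
  l : ℝ
  s : ℝ
  r : ℝ
  ho : DifferentiableOn ℂ o (ball 0 2)
  hoc : DifferentiableOn ℂ oc (ball 0 (3 / 2))
  o_one : o 1 = 1
  o_conj : ∀ z, o (conj z) = conj (o z)
  d_one : deriv o 1 = l
  l_le : l ≤ 2.68
  o_zero : o 0 = o0
  d_zero : deriv o 0 = (s - 1) * o0
  s_ge : 3.9 ≤ s
  s_le : s ≤ 4
  oc_zero : oc 0 = o0
  dc_zero : deriv oc 0 = r * o0
  r_ge : 11.2 ≤ r ^ 2
  approx : ∀ η ∈ sphere (0 : ℂ) 1,
    ‖o (cc * η) * o (cc * η)⁻¹ * (cc * η / (1 - cc * η) ^ 2) - oc η * conj (oc η)‖ ≤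
      ε * (oc η * conj (oc η)).re

namespace EData

variable {ε : ℝ} (D : EData ε)

noncomputable def p : ℂ → ℂ := dslope D.o 1
noncomputable def p2 : ℂ → ℂ := dslope D.p 1

lemma hp : DifferentiableOn ℂ D.p (ball 0 2) :=
  (differentiableOn_dslope (isOpen_ball.mem_nhds (by simp))).mpr D.ho

lemma hp2 : DifferentiableOn ℂ D.p2 (ball 0 2) :=
  (differentiableOn_dslope (isOpen_ball.mem_nhds (by simp))).mpr D.hp

lemma o_eq (z : ℂ) : D.o z = 1 + (z - 1) * D.p z := by
  have := sub_smul_dslope D.o 1 z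
  rw [D.o_one, smul_eq_mul] at this
  unfold p; linear_combination -this

lemma p_one : D.p 1 = D.l := by unfold p; rw [dslope_same, D.d_one]

lemma p_eq (z : ℂ) : D.p z = D.l + (z - 1) * D.p2 z := by
  have := sub_smul_dslope D.p 1 z
  rw [D.p_one, smul_eq_mul] at this
  unfold p2; linear_combination -this

lemma p_conj (z : ℂ) : D.p (conj z) = conj (D.p z) := by
  by_cases h : z = 1
  · subst h; rw [map_one, D.p_one, conj_ofReal]
  · have h1 : conj z - 1 ≠ 0 := by
      intro h2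
      apply h
      have := congrArg conj (sub_eq_zero.mp h2)
      simpa using this
    have h2 := D.o_conj z
    rw [D.o_eq, D.o_eq z, map_add, map_mul, map_sub, map_one] at h2
    exact mul_left_cancel₀ h1 (add_left_cancel h2)

noncomputable def R (z : ℂ) : ℂ := D.l - D.p z * D.p z⁻¹ + z * D.p2 z + z⁻¹ * D.p2 z⁻¹

lemma R_diff {z : ℂ} (h1 : 1 / 2 < ‖z‖) (h2 : ‖z‖ < 2) : DifferentiableAt ℂ D.R z := by
  have h0 : z ≠ 0 := by rintro rfl; norm_num at h1
  have hi : ‖z⁻¹‖ < 2 := by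
    rw [norm_inv, inv_lt_comm₀ (by linarith) (by norm_num)]; linarith
  have a1 := diffAt_of_ball D.hp h2
  have a2 := diffAt_of_ball D.hp2 h2
  have a0 : DifferentiableAt ℂ (fun z : ℂ => z⁻¹) z := differentiableAt_inv h0
  have a3 : DifferentiableAt ℂ (fun z => D.p z⁻¹) z := (diffAt_of_ball D.hp hi).comp z a0
  have a4 : DifferentiableAt ℂ (fun z => D.p2 z⁻¹) z := (diffAt_of_ball D.hp2 hi).comp z a0
  unfold R
  exact (((differentiableAt_const _).sub (a1.mul a3)).add (differentiableAt_id.mul a2)).add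
    (a0.mul a4)

lemma R_cs {r : ℝ} (h1 : 1 / 2 < r) (h2 : r < 2) : CS r D.R := fun z hz => by
  have := mem_sphere_zero_iff_norm.mp hz
  exact (D.R_diff (by linarith) (by linarith)).continuousAt.continuousWithinAt

noncomputable def rho (m : ℤ) : ℂ := av 1 (fun z => D.R z * z ^ (-m))

lemma rho_neg (m : ℤ) : D.rho (-m) = D.rho m := by
  unfold rho
  rw [← av_inv]
  refine av_congr one_pos fun z _ => ?_
  have : D.R z⁻¹ = D.R z := by unfold R; rw [inv_inv]; ring
  rw [this, neg_neg, inv_zpow']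

noncomputable def ut (a : ℕ) (z : ℂ) : ℂ := z ^ a * D.p z + ∑ i ∈ range a, z ^ i

lemma ut_diff (a : ℕ) : DifferentiableOn ℂ (D.ut a) (ball 0 2) := by
  unfold ut
  exact ((differentiableOn_pow a).mul D.hp).add (Differentiable.differentiableOn (by fun_prop))

lemma ut_cs (a : ℕ) : CS 1 (D.ut a) := cs_of_ball (D.ut_diff a) (by norm_num)

noncomputable def H (a : ℕ) (z : ℂ) : ℂ := z * (z ^ a * D.p2 z + D.l * ∑ i ∈ range a, z ^ i)

lemma H_diff (a : ℕ) : DifferentiableOn ℂ (D.H a) (ball 0 2) := by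
  unfold H
  exact differentiableOn_id.mul (((differentiableOn_pow a).mul D.hp2).add
    (Differentiable.differentiableOn (by fun_prop)))

lemma av_H (a : ℕ) : av 1 (D.H a) = 0 := by
  rw [av_ball (D.H_diff a) (by norm_num)]; simp [H]

lemma gram_ut (a b : ℕ) : gram D.ut a b = (min a b : ℕ) + D.l - D.rho ((a : ℤ) - b) := by
  have e : ∀ z ∈ sphere (0 : ℂ) 1, D.ut a z * conj (D.ut b z) =
      (∑ i ∈ range a, z ^ i) * (∑ j ∈ range b, z⁻¹ ^ j) + D.l - D.R z * z ^ (-((b : ℤ) - a)) +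
        (D.H a z + D.H b z⁻¹) := by
    intro z hz
    have h0 := ne_zero_of_sphere one_pos hz
    have hc : conj (D.ut b z) = D.ut b z⁻¹ := by
      unfold ut
      simp only [map_add, map_mul, map_pow, map_sum, ← D.p_conj, conj_eq_inv hz]
    have hz1 : z * z⁻¹ = 1 := mul_inv_cancel₀ h0
    have e1 : z ^ (-((b : ℤ) - a)) = z ^ a * z⁻¹ ^ b := by
      rw [neg_sub, zpow_sub₀ h0, zpow_natCast, zpow_natCast, inv_pow, div_eq_mul_inv]
    rw [hc, e1]
    unfold ut R H
    have g1 : z ^ a = 1 + (z - 1) * ∑ i ∈ range a, z ^ i := by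
      rw [mul_comm, geom_sum_mul]; ring
    have g2 : z⁻¹ ^ b = 1 + (z⁻¹ - 1) * ∑ i ∈ range b, z⁻¹ ^ i := by
      rw [mul_comm, geom_sum_mul]; ring
    have g3 := D.p_eq z
    have g4 := D.p_eq z⁻¹
    generalize ∑ i ∈ range a, z ^ i = g at *
    generalize ∑ i ∈ range b, z⁻¹ ^ i = g' at *
    generalize z ^ a = X at *
    generalize z⁻¹ ^ b = Y at *
    generalize D.p z = P at *
    generalize D.p z⁻¹ = P' at *
    generalize D.p2 z = S at *
    generalize D.p2 z⁻¹ = S' at *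
    generalize z⁻¹ = v at *
    subst g1 g2 g3 g4
    linear_combination ((D.l : ℂ) * g * g' + (1 + (z - 1) * g) * S * g' +
      (1 + (v - 1) * g') * S' * g) * hz1
  have c1 : CS 1 (fun z => (∑ i ∈ range a, z ^ i) * ∑ j ∈ range b, z⁻¹ ^ j) :=
    (CS.sum _ fun i _ => cs_pow i).mul (CS.sum _ fun j _ => ContinuousOn.pow (cs_inv one_pos) j)
  have c2 : CS 1 (fun z => D.R z * z ^ (-((b : ℤ) - a))) :=
    (D.R_cs (by norm_num) (by norm_num)).mul (cs_zpow one_pos _)
  have c3 : CS 1 (D.H a) := cs_of_ball (D.H_diff a) (by norm_num)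
  have c4 : CS 1 (fun z => D.H b z⁻¹) :=
    ContinuousOn.comp (cs_of_ball (D.H_diff b) (by norm_num : (1 : ℝ) < 2)) (cs_inv one_pos)
      fun z hz => by simpa using hz
  unfold gram
  rw [av_congr one_pos e, av_add one_pos ((c1.add (CS.const _)).sub c2) (c3.add c4),
    av_sub one_pos (c1.add (CS.const _)) c2, av_add one_pos c1 (CS.const _), av_add one_pos c3 c4,
    av_geom, av_const, av_inv (D.H b), av_H, av_H, ← D.rho_neg, neg_sub]
  simp [rho]

lemma p_zero : D.p 0 = 1 - D.o0 := by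
  have := D.o_eq 0
  rw [D.o_zero] at this
  linear_combination this

lemma dp_zero : deriv D.p 0 = 1 - D.s * D.o0 := by
  have h1 := (diffAt_of_ball D.hp (z := 0) (by simp)).hasDerivAt
  have h2 := (((hasDerivAt_id (0 : ℂ)).sub_const 1).mul h1).const_add 1
  have h3 : D.o = fun z => 1 + (z - 1) * D.p z := funext D.o_eq
  have h4 : deriv D.o 0 = 1 * D.p 0 + (0 - 1) * deriv D.p 0 := by rw [h3]; exact h2.deriv
  rw [D.d_zero, D.p_zero] at h4
  linear_combination h4

lemma av_ut (a : ℕ) : av 1 (D.ut a) = 1 - if a = 0 then (D.o0 : ℂ) else 0 := by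
  rw [av_ball (D.ut_diff a) (by norm_num)]
  unfold ut
  rcases a with _ | a
  · simp [D.p_zero]
  · simp [sum_range_succ']

lemma av_ut' (a : ℕ) : av 1 (fun z => D.ut a z * z⁻¹) =
    1 - if a = 0 then (D.s * D.o0 : ℂ) else if a = 1 then (D.o0 : ℂ) else 0 := by
  rcases a with _ | a
  · have : D.ut 0 = D.p := by ext z; simp [ut]
    rw [this, av_div D.hp (by norm_num), D.dp_zero]; simp
  · have e : ∀ z ∈ sphere (0 : ℂ) 1, D.ut (a + 1) z * z⁻¹ = D.ut a z + z ^ (-1 : ℤ) := by
      intro z hz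
      have h0 := ne_zero_of_sphere one_pos hz
      unfold ut
      rw [sum_range_succ', zpow_neg_one]
      simp only [pow_succ, ← sum_mul]
      field_simp
      ring
    rw [av_congr one_pos e, av_add one_pos (D.ut_cs a) (cs_zpow one_pos _), av_zpow one_pos,
      av_ut]
    simp

noncomputable def vt (a : ℕ) (z : ℂ) : ℂ := z ^ a * D.oc z

lemma vt_diff (a : ℕ) : DifferentiableOn ℂ (D.vt a) (ball 0 (3 / 2)) :=
  (differentiableOn_pow a).mul D.hoc

lemma vt_cs (a : ℕ) : CS 1 (D.vt a) := cs_of_ball (D.vt_diff a) (by norm_num)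

lemma av_vt (a : ℕ) : av 1 (D.vt a) = if a = 0 then (D.o0 : ℂ) else 0 := by
  rw [av_ball (D.vt_diff a) (by norm_num)]
  unfold vt
  rcases a with _ | a
  · simp [D.oc_zero]
  · simp

lemma av_vt' (a : ℕ) : av 1 (fun z => D.vt a z * z⁻¹) =
    if a = 0 then (D.r * D.o0 : ℂ) else if a = 1 then (D.o0 : ℂ) else 0 := by
  rcases a with _ | a
  · have : D.vt 0 = D.oc := by ext z; simp [vt]
    rw [this, av_div D.hoc (by norm_num), D.dc_zero]; simp
  · have e : ∀ z ∈ sphere (0 : ℂ) 1, D.vt (a + 1) z * z⁻¹ = D.vt a z := by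
      intro z hz
      have h0 := ne_zero_of_sphere one_pos hz
      unfold vt
      rw [pow_succ]
      field_simp
    rw [av_congr one_pos e, av_vt]
    simp

/-- The diagonal correction. -/
noncomputable def dl (a b : ℕ) : ℂ :=
  if a = b then (if a = 0 then ((-(13 / 5) * D.o0 ^ 2 : ℝ) : ℂ) else
    if a = 1 then ((1 / 6 * D.o0 ^ 2 : ℝ) : ℂ) else 0) else 0

lemma dl_herm (a b : ℕ) : D.dl a b = conj (D.dl b a) := by
  unfold dl
  by_cases h : a = b
  · subst h
    split_ifs <;> simp only [conj_ofReal, map_zero]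
  · rw [if_neg h, if_neg (Ne.symm h), map_zero]

lemma dl_form (n : ℕ) (u : ℕ → ℂ) :
    (∑ j ∈ range (n + 2), ∑ k ∈ range (n + 2), D.dl j k * u j * conj (u k)).re =
      -(13 / 5) * ‖D.o0 * u 0‖ ^ 2 + 1 / 6 * ‖D.o0 * u 1‖ ^ 2 := by
  have e : ∀ j ∈ range (n + 2), ∑ k ∈ range (n + 2), D.dl j k * u j * conj (u k) =
      D.dl j j * (u j * conj (u j)) := by
    intro j hj
    rw [sum_eq_single j, mul_assoc]
    · intro k _ hk
      unfold dl; rw [if_neg (Ne.symm hk), zero_mul, zero_mul]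
    · intro h; exact absurd hj h
  rw [sum_congr rfl e, sum_range_succ', sum_range_succ']
  simp only [dl, mul_conj', ← ofReal_pow, norm_mul, norm_real, Real.norm_eq_abs, mul_pow, sq_abs]
  simp only [Nat.add_eq_zero_iff, one_ne_zero, and_false, if_false, if_true, zero_add,
    Nat.add_eq_right, zero_mul, sum_const_zero, ← ofReal_mul, ← ofReal_add, ofReal_re]
  ring

noncomputable def O (a b : ℕ) : ℂ := gram D.ut a b + (2 - D.l) - D.dl a b

noncomputable def I (a b : ℕ) : ℂ := gram D.vt b a + D.dl b a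

lemma real_O {l s x a b : ℝ} (hl : l ≤ 2.68) (h1 : 3.9 ≤ s) (h2 : s ≤ 4) :
    0 ≤ (x - a) ^ 2 + (x - s * a - b) ^ 2 + (2 - l) * x ^ 2 + 13 / 5 * a ^ 2 - 1 / 6 * b ^ 2 := by
  have e1 : -(x - s * a) ^ 2 / 5 ≤ (x - s * a - b) ^ 2 - 1 / 6 * b ^ 2 := by
    nlinarith [sq_nonneg (6 * (x - s * a - b) + b)]
  have e2 : -0.68 * x ^ 2 ≤ (2 - l) * x ^ 2 := by nlinarith [sq_nonneg x]
  obtain ⟨e, rfl⟩ : ∃ e, s = 4 - e := ⟨4 - s, by ring⟩
  have he0 : 0 ≤ e := by linarith
  have he1 : e ≤ 0.1 := by linarith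
  have e3 : -0.03 * x ^ 2 ≤ -0.4 * a * x + (1.6 - 0.2 * e) * a ^ 2 := by
    nlinarith [sq_nonneg (x - 7 * a), sq_nonneg a, sq_nonneg x]
  have e4 : -0.003 * x ^ 2 ≤ e * (-0.4 * a * x + (1.6 - 0.2 * e) * a ^ 2) := by
    nlinarith [sq_nonneg x]
  nlinarith [sq_nonneg (x - 2 * a), sq_nonneg x]

lemma real_I {r a b : ℝ} (hr : 11.2 ≤ r ^ 2) :
    0 ≤ a ^ 2 + (r * a + b) ^ 2 - 13 / 5 * a ^ 2 + 1 / 6 * b ^ 2 := by
  nlinarith [sq_nonneg (6 * (r * a) + 7 * b), sq_nonneg a]

lemma psd_O : PSD D.O := by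
  refine PSD.of_two (fun j k => ?_) fun n u => ?_
  · unfold O
    rw [gram_herm D.ut_cs j k, D.dl_herm j k]
    simp only [map_sub, map_add, conj_ofReal, map_ofNat]
  · have h1 := gram_lower D.ut_cs (n + 2) u
    have h2 := D.dl_form n u
    set β := ∑ a ∈ range (n + 2), u a with hβ
    have e1 : ∑ a ∈ range (n + 2), u a * av 1 (D.ut a) = β - D.o0 * u 0 := by
      simp only [av_ut, mul_sub, mul_one, sum_sub_distrib, mul_ite, mul_zero, sum_ite_eq',
        mem_range, ← hβ]
      simp [mul_comm]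
    have e2 : ∑ a ∈ range (n + 2), u a * av 1 (fun z => D.ut a z * z⁻¹) =
        β - D.s * (D.o0 * u 0) - D.o0 * u 1 := by
      simp only [av_ut', mul_sub, mul_one, sum_sub_distrib, ← hβ]
      rw [sum_range_succ', sum_range_succ']
      simp
      ring
    have e3 : ∑ j ∈ range (n + 2), ∑ k ∈ range (n + 2), D.O j k * u j * conj (u k) =
        ∑ j ∈ range (n + 2), ∑ k ∈ range (n + 2), gram D.ut j k * u j * conj (u k) +
          ((2 - D.l : ℝ) : ℂ) * (β * conj β) -
          ∑ j ∈ range (n + 2), ∑ k ∈ range (n + 2), D.dl j k * u j * conj (u k) := by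
      rw [hβ, map_sum, sum_mul_sum, mul_sum]
      simp only [mul_sum, ← sum_add_distrib, ← sum_sub_distrib]
      refine sum_congr rfl fun j _ => sum_congr rfl fun k _ => ?_
      unfold O; push_cast; ring
    rw [e3, sub_re, add_re, h2, mul_conj', ← ofReal_pow, ← ofReal_mul, ofReal_re]
    rw [e1, e2] at h1
    generalize D.o0 * u 0 = a at *
    generalize D.o0 * u 1 = b at *
    have r1 := real_O (x := β.re) (a := a.re) (b := b.re) D.l_le D.s_ge D.s_le
    have r2 := real_O (x := β.im) (a := a.im) (b := b.im) D.l_le D.s_ge D.s_le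
    simp only [← Complex.normSq_eq_norm_sq, Complex.normSq_apply, sub_re, sub_im, re_ofReal_mul,
      im_ofReal_mul] at h1 ⊢
    nlinarith

lemma psd_I : PSD D.I := by
  refine PSD.transpose (M := fun a b => gram D.vt a b + D.dl a b) ?_
  refine PSD.of_two (fun j k => ?_) fun n u => ?_
  · rw [gram_herm D.vt_cs j k, D.dl_herm j k]
    simp only [map_add]
  · have h1 := gram_lower D.vt_cs (n + 2) u
    have h2 := D.dl_form n u
    have e1 : ∑ a ∈ range (n + 2), u a * av 1 (D.vt a) = D.o0 * u 0 := by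
      simp only [av_vt, mul_ite, mul_zero, sum_ite_eq', mem_range]
      simp [mul_comm]
    have e2 : ∑ a ∈ range (n + 2), u a * av 1 (fun z => D.vt a z * z⁻¹) =
        D.r * (D.o0 * u 0) + D.o0 * u 1 := by
      simp only [av_vt']
      rw [sum_range_succ', sum_range_succ']
      simp
      ring
    simp only [add_mul, sum_add_distrib, add_re, h2]
    rw [e1, e2] at h1
    generalize D.o0 * u 0 = a at *
    generalize D.o0 * u 1 = b at *
    have r1 := real_I (a := a.re) (b := b.re) D.r_ge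
    have r2 := real_I (a := a.im) (b := b.im) D.r_ge
    simp only [← Complex.normSq_eq_norm_sq, Complex.normSq_apply, add_re, add_im, re_ofReal_mul,
      im_ofReal_mul] at h1 ⊢
    nlinarith

end EData

end Pool.Agent.Lib.MP_5cb574_an
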