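import Mathlib
import Pool.Agent.Lib.MP_5cb574_an.Ell

/-! Taylor coefficients and the Bergman norm. -/

namespace Pool.Agent.Lib.MP_5cb574_an

open Finset Complex Filter Topology Metric Real MeasureTheory
open scoped ComplexConjugate

/-- Laurent coefficients, computed on the circle of radius `3/4`. -/
noncomputable def co (F : ℂ → ℂ) (m : ℤ) : ℂ := av (3 / 4) (fun z => F z * z ^ (-m))

lemma co_radius {F : ℂ → ℂ} {ρ r : ℝ} (hρ0 : 0 ≤ ρ) (hρ : ρ < 3 / 4)
    (hF : ∀ z, ρ < ‖z‖ → ‖z‖ < 1 → DifferentiableAt ℂ F z) (h1 : ρ < r) (h2 : r < 1) (m : ℤ) :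
    av r (fun z => F z * z ^ (-m)) = co F m := by
  have key : ∀ z : ℂ, ρ < ‖z‖ → ‖z‖ < 1 → DifferentiableAt ℂ (fun z => F z * z ^ (-m)) z := by
    intro z a b
    refine (hF z a b).mul (differentiableAt_zpow.mpr (Or.inl ?_))
    rintro rfl
    simp at a; linarith
  unfold co
  rcases le_total r (3 / 4) with h | h
  · exact (av_annulus (by linarith) h fun z a b => key z (by linarith) (by linarith)).symm
  · exact av_annulus (by norm_num) h fun z a b => key z (by linarith) (by linarith)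

lemma av_pow_zpow {r : ℝ} (hr : 0 < r) (k : ℕ) (n : ℤ) :
    av r (fun z => z ^ k * z ^ (-n)) = if (k : ℤ) = n then 1 else 0 := by
  rw [av_congr hr (g := fun z => z ^ ((k : ℤ) - n)) fun z hz => by
    rw [sub_eq_add_neg, zpow_add₀ (ne_zero_of_sphere hr hz), zpow_natCast], av_zpow hr]
  simp only [sub_eq_zero]

lemma taylor {F : ℂ → ℂ} (hF : DifferentiableOn ℂ F (ball 0 1)) :
    (∀ r : ℝ, 0 < r → r < 1 → Summable fun k : ℕ => ‖co F k‖ * r ^ k) ∧
      ∀ z : ℂ, ‖z‖ < 1 → HasSum (fun k : ℕ => co F k * z ^ k) (F z) := by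
  obtain ⟨a, h1⟩ : ∃ a : ℕ → ℂ, ∀ z : ℂ, ‖z‖ < 1 → HasSum (fun k : ℕ => a k * z ^ k) (F z) := by
    refine ⟨fun n => ((n.factorial : ℂ))⁻¹ * iteratedDeriv n F 0, fun z hz => ?_⟩
    have := hasSum_taylorSeries_on_ball hF (mem_ball_zero_iff.mpr hz)
    refine this.congr_fun ?_
    intro k
    simp only [sub_zero, smul_eq_mul]; ring
  have h2 : ∀ r : ℝ, 0 < r → r < 1 → Summable fun k : ℕ => ‖a k‖ * r ^ k := by
    intro r h0 hr
    have := (h1 r (by rwa [norm_real, Real.norm_eq_abs, abs_of_pos h0])).summable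
    have h3 := summable_norm_iff.mpr this
    convert h3 using 2 with k
    rw [norm_mul, norm_pow, norm_real, Real.norm_eq_abs, abs_of_pos h0]
  have h3 : ∀ k : ℕ, co F k = a k := by
    intro k
    have h := av_hasSum (r := 3 / 4) (by norm_num) (cs_zpow (by norm_num) (-(k : ℤ)))
      (h2 _ (by norm_num) (by norm_num))
      (fun z hz => h1 z (by rw [mem_sphere_zero_iff_norm.mp hz]; norm_num))
    simp only [av_pow_zpow (r := 3 / 4) (by norm_num)] at h
    have h4 : HasSum (fun j : ℕ => a j * if (j : ℤ) = k then 1 else 0) (a k) := by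
      convert hasSum_single k (f := fun j : ℕ => a j * if (j : ℤ) = k then 1 else 0) ?_
      · simp
      · intro j hj
        rw [if_neg (by exact_mod_cast hj), mul_zero]
    exact h.unique h4
  simp only [h3]
  exact ⟨h2, h1⟩

lemma parseval {F : ℂ → ℂ} (hF : DifferentiableOn ℂ F (ball 0 1)) {r : ℝ} (h0 : 0 < r)
    (h1 : r < 1) :
    HasSum (fun k : ℕ => ‖co F k‖ ^ 2 * r ^ (2 * k)) (av r (fun z => F z * conj (F z))).re := by
  obtain ⟨t1, t2⟩ := taylor hF
  have hc : CS r F := cs_of_ball hF h1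
  have h := av_hasSum h0 hc.conj (t1 r h0 h1)
    (fun z hz => t2 z (by rw [mem_sphere_zero_iff_norm.mp hz]; exact h1))
  have e : ∀ k : ℕ, av r (fun z => z ^ k * conj (F z)) = conj (co F k) * (r : ℂ) ^ (2 * k) := by
    intro k
    rw [← co_radius le_rfl (by norm_num) (fun z _ b => diffAt_of_ball hF b) h0 h1 k,
      ← av_conj h0 (hc.mul (cs_zpow h0 _)), ← av_mul_const]
    refine av_congr h0 fun z hz => ?_
    have hz0 := ne_zero_of_sphere h0 hz
    have hz1 : z * conj z = (r : ℂ) ^ 2 := by rw [mul_conj', mem_sphere_zero_iff_norm.mp hz]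
    have hz2 : conj z ≠ 0 := by simpa using hz0
    rw [pow_mul, ← hz1, map_mul, zpow_neg, zpow_natCast, map_inv₀, map_pow, mul_pow]
    field_simp
  simp only [e] at h
  convert hasSum_re h using 2 with k
  rw [← mul_assoc, mul_conj', ← ofReal_pow, ← ofReal_pow, ← ofReal_mul, ofReal_re]

lemma lintegral_circle {F : ℂ → ℂ} {r : ℝ} (h0 : 0 < r) (hc : CS r F) :
    ∫⁻ θ in Set.Ioo (-π) π, ‖F (Complex.polarCoord.symm (r, θ))‖ₑ ^ 2 =
      ENNReal.ofReal (2 * π * (av r (fun z => F z * conj (F z))).re) := by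
  have e1 : ∀ θ, Complex.polarCoord.symm (r, θ) = circleMap 0 r θ := by
    intro θ; simp [circleMap, Complex.exp_mul_I]
  have hm : ∀ θ, circleMap 0 r θ ∈ sphere (0 : ℂ) r := fun θ => circleMap_mem_sphere 0 h0.le θ
  have hcc : Continuous fun θ => ‖F (circleMap 0 r θ)‖ ^ 2 :=
    (ContinuousOn.comp_continuous hc (continuous_circleMap 0 r) hm).norm.pow 2
  have e2 : (av r (fun z => F z * conj (F z))).re =
      (2 * π)⁻¹ * ∫ θ in Set.Ioo (-π) π, ‖F (circleMap 0 r θ)‖ ^ 2 := by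
    rw [av_re h0 (hc.mul hc.conj), circleAverage_eq_integral_add (-π), smul_eq_mul]
    congr 1
    rw [intervalIntegral.integral_comp_add_right
      (fun θ => (F (circleMap 0 r θ) * conj (F (circleMap 0 r θ))).re) (-π),
      ← integral_Ioc_eq_integral_Ioo, ← intervalIntegral.integral_of_le (by linarith [pi_pos]),
      show (0 : ℝ) + -π = -π by ring, show 2 * π + -π = π by ring]
    congr 1
    ext θ
    rw [mul_conj', ← ofReal_pow, ofReal_re]
  rw [e2, mul_inv_cancel_left₀ (by positivity), ofReal_integral_eq_lintegral_ofReal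
    ((hcc.integrableOn_Icc (a := -π) (b := π)).mono_set Set.Ioo_subset_Icc_self)
    (Eventually.of_forall fun θ => by positivity)]
  congr 1
  ext θ
  rw [e1, ← ofReal_norm, ENNReal.ofReal_pow (norm_nonneg _)]

theorem bergman_eq {F : ℂ → ℂ} (hF : DifferentiableOn ℂ F (ball 0 1)) :
    ∫⁻ z in ball (0 : ℂ) 1, ‖F z‖ₑ ^ 2 =
      ENNReal.ofReal π * ∑' k : ℕ, ENNReal.ofReal (‖co F k‖ ^ 2 / (k + 1)) := by
  rw [← lintegral_indicator measurableSet_ball, ← Complex.lintegral_comp_polarCoord_symm,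
    polarCoord_target]
  have e1 : ∫⁻ p in Set.Ioi (0 : ℝ) ×ˢ Set.Ioo (-π) π, ENNReal.ofReal p.1 •
      (ball (0 : ℂ) 1).indicator (fun z => ‖F z‖ₑ ^ 2) (Complex.polarCoord.symm p) =
      ∫⁻ p in Set.Ioo (0 : ℝ) 1 ×ˢ Set.Ioo (-π) π,
        ENNReal.ofReal p.1 * ‖F (Complex.polarCoord.symm p)‖ₑ ^ 2 := by
    rw [← lintegral_indicator (measurableSet_Ioi.prod measurableSet_Ioo),
      ← lintegral_indicator (measurableSet_Ioo.prod measurableSet_Ioo)]
    congr 1
    ext p
    by_cases hp : p ∈ Set.Ioi (0 : ℝ) ×ˢ Set.Ioo (-π) π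
    · have hn : ‖Complex.polarCoord.symm p‖ = p.1 := by
        rw [norm_polarCoord_symm, abs_of_pos hp.1]
      by_cases h1 : p.1 < 1
      · rw [Set.indicator_of_mem hp, Set.indicator_of_mem (by rwa [mem_ball_zero_iff, hn]),
          Set.indicator_of_mem (show p ∈ Set.Ioo (0 : ℝ) 1 ×ˢ Set.Ioo (-π) π from
            ⟨⟨hp.1, h1⟩, hp.2⟩), smul_eq_mul]
      · rw [Set.indicator_of_mem hp, Set.indicator_of_notMem (by rwa [mem_ball_zero_iff, hn]),
          Set.indicator_of_notMem (fun h => h1 h.1.2), smul_zero]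
    · rw [Set.indicator_of_notMem hp, Set.indicator_of_notMem (fun h => hp ⟨h.1.1, h.2⟩)]
  have hcont : Continuous (fun p : ℝ × ℝ => Complex.polarCoord.symm p) := by
    simp only [Complex.polarCoord_symm_apply]; fun_prop
  have hmeas : AEMeasurable (fun p : ℝ × ℝ =>
      ENNReal.ofReal p.1 * ‖F (Complex.polarCoord.symm p)‖ₑ ^ 2)
      ((volume.prod volume).restrict (Set.Ioo (0 : ℝ) 1 ×ˢ Set.Ioo (-π) π)) := by
    refine (measurable_fst.ennreal_ofReal).aemeasurable.mul (AEMeasurable.pow_const ?_ 2)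
    refine AEMeasurable.enorm ?_
    refine ContinuousOn.aemeasurable ?_ (measurableSet_Ioo.prod measurableSet_Ioo)
    refine hF.continuousOn.comp hcont.continuousOn fun p hp => ?_
    rw [mem_ball_zero_iff, norm_polarCoord_symm, abs_of_pos hp.1.1]; exact hp.1.2
  rw [e1, Measure.volume_eq_prod, setLIntegral_prod _ hmeas]
  have e2 : ∀ r ∈ Set.Ioo (0 : ℝ) 1, ∫⁻ θ in Set.Ioo (-π) π,
      ENNReal.ofReal r * ‖F (Complex.polarCoord.symm (r, θ))‖ₑ ^ 2 =
      ∑' k : ℕ, ENNReal.ofReal (2 * π * ‖co F k‖ ^ 2 * r ^ (2 * k + 1)) := by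
    intro r hr
    have hp := (parseval hF hr.1 hr.2).mul_left (r * (2 * π))
    rw [lintegral_const_mul' _ _ ENNReal.ofReal_ne_top, lintegral_circle hr.1 (cs_of_ball hF hr.2),
      ← ENNReal.ofReal_mul hr.1.le, ← mul_assoc, ← hp.tsum_eq,
      ENNReal.ofReal_tsum_of_nonneg (fun k => by have := hr.1; positivity) hp.summable]
    congr 1
    ext k
    congr 1
    ring
  rw [setLIntegral_congr_fun measurableSet_Ioo e2, lintegral_tsum (fun k => by fun_prop),
    ← ENNReal.tsum_mul_left]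
  congr 1
  ext k
  have hi : IntegrableOn (fun r : ℝ => 2 * π * ‖co F k‖ ^ 2 * r ^ (2 * k + 1)) (Set.Ioo 0 1) :=
    (Continuous.integrableOn_Icc (a := 0) (b := 1) (by fun_prop)).mono_set Set.Ioo_subset_Icc_self
  rw [← ofReal_integral_eq_lintegral_ofReal hi (by
    filter_upwards [ae_restrict_mem measurableSet_Ioo] with r hr
    have := hr.1
    positivity), ← ENNReal.ofReal_mul pi_pos.le, ← integral_Ioc_eq_integral_Ioo,
    ← intervalIntegral.integral_of_le zero_le_one, intervalIntegral.integral_const_mul,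
    integral_pow]
  congr 1
  push_cast
  field_simp
  ring

end Pool.Agent.Lib.MP_5cb574_an
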