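import Mathlib
import Pool.Agent.Lib.MP_5cb574_an.Ell

/-! The approximate cross relation between the two kernels, and the explicit data. -/

namespace Pool.Agent.Lib.MP_5cb574_an

open Finset Complex Filter Topology Metric Real
open scoped ComplexConjugate

lemma ccC_ne : (cc : ℂ) ≠ 0 := by exact_mod_cast cc_pos.ne'

lemma av_cc_scale (f : ℂ → ℂ) (n : ℤ) :
    av 1 (fun η => f (cc * η) * η ^ (-n)) = (cc : ℂ) ^ n * av cc (fun z => f z * z ^ (-n)) := by
  rw [av_scale (r := cc), ← av_const_mul]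
  refine av_congr one_pos fun η _ => ?_
  rw [mul_zpow, zpow_neg (cc : ℂ)]
  have := zpow_ne_zero n ccC_ne
  field_simp

namespace EData

variable {ε : ℝ} (D : EData ε)

lemma S_eq {z : ℂ} (h0 : z ≠ 0) (h1 : z ≠ 1) :
    D.o z * D.o z⁻¹ * (z / (1 - z) ^ 2) = D.R z + z / (1 - z) ^ 2 := by
  have h2 : 1 - z ≠ 0 := sub_ne_zero.mpr h1.symm
  have g1 := D.o_eq z
  have g2 := D.o_eq z⁻¹
  have g3 := D.p_eq z
  have g4 := D.p_eq z⁻¹
  have hz1 : z * z⁻¹ = 1 := mul_inv_cancel₀ h0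
  have key : (D.o z * D.o z⁻¹ - 1) * z = D.R z * (1 - z) ^ 2 := by
    unfold R
    rw [g1, g2]
    generalize D.p z = P at *
    generalize D.p z⁻¹ = P' at *
    generalize D.p2 z = S at *
    generalize D.p2 z⁻¹ = S' at *
    generalize z⁻¹ = v at *
    have g5 : (z - 1) * (v - 1) * z = -(1 - z) ^ 2 := by linear_combination (z - 1) * hz1
    have g6 : (v - 1) * z = 1 - z := by linear_combination hz1
    have g7 : (v - 1) * (v - 1) * z = v * (1 - z) ^ 2 := by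
      linear_combination (v - z) * hz1
    linear_combination (P * P') * g5 + (z - 1) * z * g3 + (v - 1) * z * g4 + S' * g7 +
      (D.l : ℂ) * g6
  have h3 : (1 - z) ^ 2 ≠ 0 := pow_ne_zero _ h2
  have h4 : D.R z = (D.o z * D.o z⁻¹ - 1) * z / (1 - z) ^ 2 := by rw [key, mul_div_cancel_right₀ _ h3]
  rw [h4]; ring

lemma coef_S (n : ℤ) :
    av 1 (fun η => D.o (cc * η) * D.o (cc * η)⁻¹ * (cc * η / (1 - cc * η) ^ 2) * η ^ (-n)) =
      (cc : ℂ) ^ n * (D.rho n + (max n 0 : ℤ)) := by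
  have hc1 : cc < 1 := by linarith [cc_lt]
  have hc2 : 1 / 2 < cc := by linarith [cc_gt]
  rw [av_cc_scale (fun z => D.o z * D.o z⁻¹ * (z / (1 - z) ^ 2))]
  congr 1
  have hne : ∀ z ∈ sphere (0 : ℂ) cc, z ≠ 1 := by
    rintro z hz rfl
    simp at hz
    exact hc1.ne' hz
  have e : ∀ z ∈ sphere (0 : ℂ) cc, D.o z * D.o z⁻¹ * (z / (1 - z) ^ 2) * z ^ (-n) =
      D.R z * z ^ (-n) + z / (1 - z) ^ 2 * z ^ (-n) := by
    intro z hz
    rw [D.S_eq (ne_zero_of_sphere cc_pos hz) (hne z hz), add_mul]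
  have c1 : CS cc (fun z => z / (1 - z) ^ 2) :=
    continuousOn_id.div (by fun_prop) fun z hz => pow_ne_zero _ (sub_ne_zero.mpr (hne z hz).symm)
  rw [av_congr cc_pos e, av_add cc_pos ((D.R_cs hc2 (by linarith)).mul (cs_zpow cc_pos _))
    (c1.mul (cs_zpow cc_pos _)), av_koebe]
  congr 1
  unfold rho
  refine (av_annulus cc_pos hc1.le fun z h1 h2 => ?_).symm
  refine (D.R_diff (by linarith) (by linarith)).mul (differentiableAt_zpow.mpr (Or.inl ?_))
  rintro rfl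
  simp at h1; linarith [cc_pos]

lemma S_cs : CS 1 (fun η => D.o (cc * η) * D.o (cc * η)⁻¹ * (cc * η / (1 - cc * η) ^ 2)) := by
  intro η hη
  have hη1 : ‖η‖ = 1 := by simpa using hη
  have hn : ‖cc * η‖ = cc := by
    rw [norm_mul, hη1, norm_real, Real.norm_eq_abs, abs_of_pos cc_pos, mul_one]
  have h0 : cc * η ≠ 0 := by
    intro h; rw [h, norm_zero] at hn; exact cc_pos.ne hn
  have h1 : 1 - cc * η ≠ 0 := by
    intro h
    rw [← sub_eq_zero.mp h, norm_one] at hn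
    linarith [cc_lt]
  have a1 : ContinuousAt D.o (cc * η) :=
    (diffAt_of_ball D.ho (by rw [hn]; linarith [cc_lt])).continuousAt
  have a2 : ContinuousAt D.o (cc * η)⁻¹ :=
    (diffAt_of_ball D.ho (by rw [norm_inv, hn, cc_inv]; linarith [cc_lt])).continuousAt
  have a3 : ContinuousAt (fun η : ℂ => cc * η) η := by fun_prop
  refine ContinuousAt.continuousWithinAt ?_
  refine ((ContinuousAt.comp (f := fun η : ℂ => cc * η) a1 a3).mul
    (ContinuousAt.comp (f := fun η : ℂ => (cc * η)⁻¹) a2 (a3.inv₀ h0))).mul ?_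
  exact a3.div (by fun_prop) (pow_ne_zero _ h1)

lemma gram_vt (a b : ℕ) :
    ‖(cc : ℂ) ^ ((a : ℤ) - b) * (D.rho ((a : ℤ) - b) + (max ((a : ℤ) - b) 0 : ℤ)) -
      gram D.vt b a‖ ≤ ε * (gram D.vt 0 0).re := by
  have hoc : CS 1 D.oc := cs_of_ball D.hoc (by norm_num)
  have e1 : gram D.vt b a = av 1 (fun η => D.oc η * conj (D.oc η) * η ^ (-((a : ℤ) - b))) := by
    refine av_congr one_pos fun z hz => ?_
    have h0 := ne_zero_of_sphere one_pos hz
    unfold vt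
    rw [map_mul, map_pow, conj_eq_inv hz, neg_sub, zpow_sub₀ h0, zpow_natCast, zpow_natCast,
      inv_pow]
    field_simp
  have e2 : ε * (gram D.vt 0 0).re = (av 1 (fun η => ε * (D.oc η * conj (D.oc η)))).re := by
    rw [av_const_mul, re_ofReal_mul]
    congr 2
    exact av_congr one_pos fun z _ => by simp [vt]
  rw [← D.coef_S, e1, e2, ← av_sub one_pos (D.S_cs.mul (cs_zpow one_pos _))
    ((hoc.mul hoc.conj).mul (cs_zpow one_pos _))]
  refine norm_av_le one_pos ((D.S_cs.mul (cs_zpow one_pos _)).sub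
    ((hoc.mul hoc.conj).mul (cs_zpow one_pos _))) ((hoc.mul hoc.conj).cmul _) fun z hz => ?_
  have hz1 : ‖z‖ = 1 := by simpa using hz
  rw [← sub_mul, norm_mul, norm_zpow, hz1, one_zpow, mul_one, re_ofReal_mul]
  exact D.approx z hz

lemma gram_nonneg {v : ℕ → ℂ → ℂ} (hv : ∀ a, CS 1 (v a)) (a : ℕ) : 0 ≤ (gram v a a).re :=
  av_re_nonneg one_pos ((hv a).mul (hv a).conj) fun z _ => by
    rw [mul_conj', ← ofReal_pow, ofReal_re]; positivity

lemma t0_le (hε0 : 0 ≤ ε) (hε : ε ≤ 1 / 2) : ε * (gram D.vt 0 0).re ≤ 6 * ε := by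
  have h1 := D.gram_vt 0 0
  have h2 := gram_nonneg D.ut_cs 0
  have h3 := gram_nonneg D.vt_cs 0
  rw [D.gram_ut] at h2
  simp only [Nat.cast_zero, sub_zero, zpow_zero, max_self, Int.cast_zero, add_zero, one_mul,
    min_self, zero_add, sub_re, ofReal_re] at h1 h2
  have h4 := (abs_le.mp ((abs_re_le_norm _).trans h1)).1
  rw [sub_re] at h4
  have h5 : (gram D.vt 0 0).re ≤ 6 := by nlinarith [D.l_le]
  nlinarith

lemma cross (hε0 : 0 ≤ ε) (hε : ε ≤ 1 / 2) (a b : ℕ) :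
    ‖D.O a b + (cc : ℂ) ^ ((b : ℤ) - a) * D.I a b - (a + 2)‖ ≤ cc ^ ((b : ℤ) - a) * (6 * ε) := by
  have h1 := (D.gram_vt a b).trans (D.t0_le hε0 hε)
  have e0 : (cc : ℂ) ^ ((b : ℤ) - a) * (cc : ℂ) ^ ((a : ℤ) - b) = 1 := by
    rw [← zpow_add₀ ccC_ne]; simp
  have e1 : (cc : ℂ) ^ ((b : ℤ) - a) * D.dl b a = D.dl a b := by
    by_cases h : a = b
    · subst h; simp
    · unfold dl; rw [if_neg h, if_neg (Ne.symm h), mul_zero]
  have e2 : ((min a b : ℕ) : ℂ) + (max ((a : ℤ) - b) 0 : ℤ) = a := by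
    have : ((min a b : ℕ) : ℤ) + max ((a : ℤ) - b) 0 = a := by omega
    have h2 := congrArg (Int.cast : ℤ → ℂ) this
    rwa [Int.cast_add, Int.cast_natCast, Int.cast_natCast] at h2
  have e : D.O a b + (cc : ℂ) ^ ((b : ℤ) - a) * D.I a b - (a + 2) = -((cc : ℂ) ^ ((b : ℤ) - a) *
      ((cc : ℂ) ^ ((a : ℤ) - b) * (D.rho ((a : ℤ) - b) + (max ((a : ℤ) - b) 0 : ℤ)) -
      gram D.vt b a)) := by
    unfold O I
    rw [D.gram_ut]
    linear_combination e1 + e2 + (D.rho ((a : ℤ) - b) + (max ((a : ℤ) - b) 0 : ℤ)) * e0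
  rw [e, norm_neg, norm_mul, norm_zpow, norm_real, Real.norm_eq_abs, abs_of_pos cc_pos]
  exact mul_le_mul_of_nonneg_left h1 (zpow_pos cc_pos _).le

lemma gram_vt_diag (a : ℕ) : gram D.vt a a = gram D.vt 0 0 := by
  refine av_congr one_pos fun z hz => ?_
  have h0 := ne_zero_of_sphere one_pos hz
  unfold vt
  rw [map_mul, map_pow, conj_eq_inv hz, inv_pow]
  field_simp

lemma bounds (hε0 : 0 ≤ ε) (hε : ε ≤ 1 / 1000) :
    (D.I 0 0).re ≤ 1 + 20 * ε ∧ ∀ a, 1 ≤ a → 3 / 4 ≤ (D.I a a).re := by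
  have hε' : ε ≤ 1 / 2 := by linarith
  have h00 := (D.gram_vt 0 0).trans (D.t0_le hε0 hε')
  have h10 := (D.gram_vt 1 0).trans (D.t0_le hε0 hε')
  have h01 := (D.gram_vt 0 1).trans (D.t0_le hε0 hε')
  have hr : D.rho (-1) = D.rho 1 := D.rho_neg 1
  have hh : (gram D.vt 1 0).re = (gram D.vt 0 1).re := by rw [gram_herm D.vt_cs 1 0, conj_re]
  have hci : (cc : ℂ)⁻¹ = ((3 * cc : ℝ) : ℂ) := by rw [← cc_inv]; simp
  norm_num at h00 h10 h01
  rw [hr, hci] at h01
  have a00 := abs_le.mp ((abs_re_le_norm _).trans h00)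
  have a10 := abs_le.mp ((abs_re_le_norm _).trans h10)
  have a01 := abs_le.mp ((abs_re_le_norm _).trans h01)
  simp only [sub_re, re_ofReal_mul, add_re, one_re] at a00 a10 a01
  have hO := D.psd_O.two
  have hV : PSD (gram D.vt) := ⟨gram_herm D.vt_cs, fun n u =>
    le_trans (by positivity) (gram_lower D.vt_cs n u)⟩
  have hI := hV.two
  rw [D.gram_vt_diag 1] at hI
  simp only [O, D.gram_ut, dl] at hO
  norm_num at hO
  rw [hr] at hO
  have hc := cc_gt
  have hc' := cc_lt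
  have hρ1 : (D.rho 1).re ≤ 1 / 2 + 12 * ε := by nlinarith
  have hρ2 : 1 / 2 - 12 * ε ≤ (D.rho 1).re := by nlinarith
  have ho : ((D.o0 : ℂ) ^ 2).re = D.o0 ^ 2 := by rw [← ofReal_pow, ofReal_re]
  rw [ho] at hO
  constructor
  · simp only [I, dl, if_true, add_re, ofReal_re]
    nlinarith [sq_nonneg D.o0]
  · intro a ha
    have : 0 ≤ (D.dl a a).re := by
      unfold dl
      rw [if_pos rfl, if_neg (by omega)]
      split_ifs
      · rw [ofReal_re]; positivity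
      · simp
    simp only [I, add_re, D.gram_vt_diag a]
    nlinarith

end EData

/-- One factor of the product. -/
noncomputable def fac (x : ℝ) (z : ℂ) : ℂ := (1 + x * z) / (1 - x * z)

noncomputable def BB (N : ℕ) (z : ℂ) : ℂ := ∏ k ∈ range N, fac ((1 / 3) ^ k) z

noncomputable def LL (N : ℕ) (z : ℂ) : ℂ :=
  ∑ k ∈ range N, 2 * (((1 / 3) ^ k : ℝ) : ℂ) / (1 - ((((1 / 3) ^ k : ℝ) : ℂ) * z) ^ 2)

lemma norm_qz (k : ℕ) (z : ℂ) : ‖(((1 / 3) ^ k : ℝ) : ℂ) * z‖ ≤ ‖z‖ := by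
  rw [norm_mul, norm_real, Real.norm_eq_abs, abs_of_pos (by positivity)]
  exact mul_le_of_le_one_left (norm_nonneg _) (pow_le_one₀ (by norm_num) (by norm_num))

lemma one_sub_ne {w : ℂ} (h : ‖w‖ < 1) : 1 - w ≠ 0 := by
  intro h1
  rw [← sub_eq_zero.mp h1, norm_one] at h
  exact lt_irrefl _ h

lemma one_add_ne {w : ℂ} (h : ‖w‖ < 1) : 1 + w ≠ 0 := by
  have := one_sub_ne (w := -w) (by rwa [norm_neg])
  rwa [sub_neg_eq_add] at this

lemma hasDerivAt_fac {x : ℝ} {z : ℂ} (h : ‖x * z‖ < 1) :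
    HasDerivAt (fac x) (fac x z * (2 * x / (1 - (x * z) ^ 2))) z := by
  have h1 := one_sub_ne h
  have h2 := one_add_ne h
  have a1 : HasDerivAt (fun z : ℂ => 1 + x * z) x z := by
    simpa using ((hasDerivAt_id z).const_mul (x : ℂ)).const_add 1
  have a2 : HasDerivAt (fun z : ℂ => 1 - x * z) (-x) z := by
    simpa using ((hasDerivAt_id z).const_mul (x : ℂ)).const_sub 1
  have a3 := a1.div a2 h1
  have e : (1 : ℂ) - (x * z) ^ 2 = (1 - x * z) * (1 + x * z) := by ring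
  refine HasDerivAt.congr_deriv (f := fac x) a3 ?_
  unfold fac
  rw [e]
  field_simp
  ring

lemma hasDerivAt_BB (N : ℕ) {z : ℂ} (h : ‖z‖ < 1) : HasDerivAt (BB N) (BB N z * LL N z) z := by
  induction N with
  | zero =>
    have : BB 0 = fun _ => 1 := by ext; simp [BB]
    rw [this]; simpa [LL] using hasDerivAt_const z (1 : ℂ)
  | succ N ih =>
    have e : BB (N + 1) = fun z => BB N z * fac ((1 / 3) ^ N) z := by
      ext z; simp only [BB, prod_range_succ]
    have := ih.mul (hasDerivAt_fac ((norm_qz N z).trans_lt h))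
    rw [e]
    refine HasDerivAt.congr_deriv this ?_
    simp only [LL, sum_range_succ]
    ring

lemma BB_conj (N : ℕ) (z : ℂ) : BB N (conj z) = conj (BB N z) := by
  simp only [BB, fac, map_prod, map_div₀, map_add, map_sub, map_mul, map_one, conj_ofReal]

lemma BB_zero (N : ℕ) : BB N 0 = 1 := by simp [BB, fac]

lemma BB_shift (N : ℕ) (z : ℂ) :
    fac 1 z * BB N (z / 3) = BB N z * fac ((1 / 3) ^ N) z := by
  have h1 : BB (N + 1) z = BB N z * fac ((1 / 3) ^ N) z := by simp only [BB, prod_range_succ]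
  rw [← h1, BB, BB, prod_range_succ', mul_comm, pow_zero]
  congr 1
  refine prod_congr rfl fun k _ => ?_
  unfold fac
  have : (((1 / 3) ^ k : ℝ) : ℂ) * (z / 3) = (((1 / 3) ^ (k + 1) : ℝ) : ℂ) * z := by
    push_cast; ring
  rw [this]

noncomputable def bet (N : ℕ) : ℝ :=
  ∏ k ∈ range N, (1 + (1 / 3) ^ k * (1 / 3)) / (1 - (1 / 3) ^ k * (1 / 3))

lemma q_le (k : ℕ) : ((1 : ℝ) / 3) ^ k ≤ 1 := pow_le_one₀ (by norm_num) (by norm_num)

lemma bet_pos (N : ℕ) : 0 < bet N := by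
  refine prod_pos fun k _ => div_pos (by positivity) ?_
  linarith [q_le k]

lemma BB_third (N : ℕ) : BB N (1 / 3) = bet N := by
  simp only [BB, bet, fac]
  push_cast
  rfl

lemma LL_zero (N : ℕ) : LL N 0 = ((3 - 3 * (1 / 3) ^ N : ℝ) : ℂ) := by
  induction N with
  | zero => simp [LL]
  | succ N ih =>
    unfold LL at ih ⊢
    rw [sum_range_succ, ih]
    push_cast
    ring

noncomputable def lam (N : ℕ) : ℝ :=
  ∑ k ∈ range N, 2 * (1 / 3) ^ k / (1 - ((1 / 3) ^ k * (1 / 3)) ^ 2)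

lemma LL_third (N : ℕ) : LL N (1 / 3) = lam N := by
  simp only [LL, lam]
  push_cast
  rfl

lemma lam_le (N : ℕ) : lam (N + 2) ≤ 3.27 - 3.1 * (1 / 3) ^ (N + 2) := by
  induction N with
  | zero => simp only [lam, sum_range_succ, range_zero, sum_empty]; norm_num
  | succ N ih =>
    have e : lam (N + 1 + 2) = lam (N + 2) +
        2 * (1 / 3) ^ (N + 2) / (1 - ((1 / 3) ^ (N + 2) * (1 / 3)) ^ 2) := by
      unfold lam; rw [show N + 1 + 2 = N + 2 + 1 by ring, sum_range_succ]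
    have h0 : (0 : ℝ) < (1 / 3) ^ (N + 2) := by positivity
    have h1 : ((1 : ℝ) / 3) ^ (N + 2) ≤ 1 / 9 := by
      rw [pow_add]; nlinarith [q_le N]
    rw [e, show N + 1 + 2 = N + 2 + 1 by ring, pow_succ _ (N + 2)]
    generalize ((1 : ℝ) / 3) ^ (N + 2) = y at *
    have h2 : 2 * y / (1 - (y * (1 / 3)) ^ 2) ≤ 2.06 * y := by
      rw [div_le_iff₀ (by nlinarith)]
      nlinarith [mul_nonneg h0.le (sub_nonneg.mpr h1), mul_pos h0 h0]
    linarith

noncomputable def oo (N : ℕ) (z : ℂ) : ℂ := (1 + z) / 2 * (BB N (z / 3) / bet N) ^ 2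

noncomputable def ooc (N : ℕ) (η : ℂ) : ℂ := ((1 / (2 * bet N ^ 2) : ℝ) : ℂ) * BB N (cc * η) ^ 2

lemma hasDerivAt_oo (N : ℕ) {z : ℂ} (h : ‖z‖ < 3) : HasDerivAt (oo N)
    ((BB N (z / 3) / bet N) ^ 2 * (1 / 2 + (1 + z) / 3 * LL N (z / 3))) z := by
  have h1 : ‖z / 3‖ < 1 := by
    rw [norm_div, div_lt_one (by simp)]; simpa using h
  have a1 : HasDerivAt (fun z : ℂ => z / 3) (1 / 3) z := (hasDerivAt_id z).div_const 3
  have a2 := (((hasDerivAt_BB N h1).comp z a1).div_const (bet N : ℂ)).pow 2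
  have a3 := (((hasDerivAt_id z).const_add 1).div_const 2).mul a2
  refine HasDerivAt.congr_deriv (f := oo N) a3 ?_
  simp only [Function.comp, id, Pi.pow_apply, Nat.cast_ofNat]
  ring

lemma hasDerivAt_ooc (N : ℕ) {z : ℂ} (h : ‖z‖ < 3 / 2) : HasDerivAt (ooc N)
    (ooc N z * (2 * cc * LL N (cc * z))) z := by
  have h1 : ‖cc * z‖ < 1 := by
    rw [norm_mul, norm_real, Real.norm_eq_abs, abs_of_pos cc_pos]
    nlinarith [cc_lt, cc_pos, norm_nonneg z]
  have a1 : HasDerivAt (fun z : ℂ => cc * z) cc z := by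
    simpa using (hasDerivAt_id z).const_mul (cc : ℂ)
  have a2 := (((hasDerivAt_BB N h1).comp z a1).pow 2).const_mul ((1 / (2 * bet N ^ 2) : ℝ) : ℂ)
  refine HasDerivAt.congr_deriv (f := ooc N) a2 ?_
  simp only [ooc, Function.comp, Nat.cast_ofNat]
  ring

lemma fac_sq_sub {x : ℝ} {z : ℂ} {δ : ℝ} (h : ‖x * z‖ ≤ δ) (hδ : δ ≤ 1 / 3) :
    ‖fac x z ^ 2 - 1‖ ≤ 9 * δ := by
  have h1 : ‖x * z‖ < 1 := by linarith
  have h2 := one_sub_ne h1
  have e : fac x z ^ 2 - 1 = 4 * (x * z) / (1 - x * z) ^ 2 := by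
    unfold fac; field_simp; ring
  have h3 : 2 / 3 ≤ ‖1 - x * z‖ := by
    have := norm_sub_norm_le (1 : ℂ) (x * z)
    rw [norm_one] at this; linarith
  rw [e, norm_div, norm_mul, norm_pow, div_le_iff₀ (by positivity)]
  have h4 : ‖(4 : ℂ)‖ = 4 := by simp
  have h5 : 4 / 9 ≤ ‖1 - x * z‖ ^ 2 := by nlinarith
  rw [h4]
  nlinarith [norm_nonneg (x * z)]

lemma approx_oo (N : ℕ) (hN : 1 ≤ N) {η : ℂ} (hη : η ∈ sphere (0 : ℂ) 1) :
    ‖oo N (cc * η) * oo N (cc * η)⁻¹ * (cc * η / (1 - cc * η) ^ 2) - ooc N η * conj (ooc N η)‖ ≤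
      9 * (1 / 3) ^ N * (ooc N η * conj (ooc N η)).re := by
  set z : ℂ := cc * η with hz
  have hη1 : ‖η‖ = 1 := by simpa using hη
  have hn : ‖z‖ = cc := by
    rw [hz, norm_mul, hη1, norm_real, Real.norm_eq_abs, abs_of_pos cc_pos, mul_one]
  have h0 : z ≠ 0 := by
    intro h; rw [h, norm_zero] at hn; exact cc_pos.ne hn
  have h1 : 1 - z ≠ 0 := one_sub_ne (by rw [hn]; linarith [cc_lt])
  have hb : (bet N : ℂ) ≠ 0 := by exact_mod_cast (bet_pos N).ne'
  have hc : z⁻¹ / 3 = conj z := by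
    have h2 := mul_conj' z
    rw [hn, ← ofReal_pow, cc_sq] at h2
    push_cast at h2
    field_simp
    linear_combination -3 * h2
  have hs := BB_shift N z
  have e : oo N z * oo N z⁻¹ * (z / (1 - z) ^ 2) =
      ooc N η * conj (ooc N η) * fac ((1 / 3) ^ N) z ^ 2 := by
    have e1 : oo N z * oo N z⁻¹ * (z / (1 - z) ^ 2) =
        (fac 1 z * BB N (z / 3)) ^ 2 * conj (BB N z) ^ 2 / (2 * bet N ^ 2) ^ 2 := by
      unfold oo fac
      rw [hc, BB_conj]
      push_cast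
      simp only [one_mul]
      field_simp
      ring
    rw [e1, hs]
    unfold ooc
    rw [← hz, map_mul, map_pow, conj_ofReal]
    push_cast
    field_simp
  have h3 : ((1 : ℝ) / 3) ^ N ≤ 1 / 3 := by
    obtain ⟨k, rfl⟩ := Nat.exists_eq_add_of_le' hN
    rw [pow_succ]; nlinarith [q_le k]
  have h4 : ‖(((1 / 3) ^ N : ℝ) : ℂ) * z‖ ≤ (1 / 3) ^ N := by
    rw [norm_mul, hn, norm_real, Real.norm_eq_abs, abs_of_pos (by positivity)]
    exact mul_le_of_le_one_right (by positivity) (by linarith [cc_lt])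
  rw [e, ← mul_sub_one, norm_mul, mul_comm, mul_conj', ← ofReal_pow, ofReal_re, norm_real,
    Real.norm_eq_abs, abs_of_nonneg (by positivity)]
  exact mul_le_mul_of_nonneg_right (fac_sq_sub h4 h3) (by positivity)

noncomputable def edata (N : ℕ) : EData (9 * (1 / 3) ^ (N + 4)) where
  o := oo (N + 4)
  oc := ooc (N + 4)
  o0 := 1 / (2 * bet (N + 4) ^ 2)
  l := 1 / 2 + 2 / 3 * lam (N + 4)
  s := 4 - 2 * (1 / 3) ^ (N + 4)
  r := 2 * cc * (3 - 3 * (1 / 3) ^ (N + 4))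
  ho z hz := (hasDerivAt_oo _ (by
    have := mem_ball_zero_iff.mp hz; linarith)).differentiableAt.differentiableWithinAt
  hoc z hz := (hasDerivAt_ooc _ (mem_ball_zero_iff.mp hz)).differentiableAt.differentiableWithinAt
  o_one := by
    have hb : (bet (N + 4) : ℂ) ≠ 0 := by exact_mod_cast (bet_pos _).ne'
    unfold oo
    rw [BB_third, div_self hb]; norm_num
  o_conj z := by
    unfold oo
    simp only [map_mul, map_div₀, map_add, map_one, map_pow, conj_ofReal, map_ofNat, ← BB_conj]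
  d_one := by
    have hb : (bet (N + 4) : ℂ) ≠ 0 := by exact_mod_cast (bet_pos _).ne'
    rw [(hasDerivAt_oo _ (by simp)).deriv, BB_third, LL_third, div_self hb]
    push_cast; ring
  l_le := by
    have := lam_le (N + 2)
    have h0 : (0 : ℝ) < (1 / 3) ^ (N + 2 + 2) := by positivity
    linarith
  o_zero := by
    unfold oo
    rw [zero_div, BB_zero]
    push_cast; ring
  d_zero := by
    rw [(hasDerivAt_oo _ (by simp)).deriv, zero_div, BB_zero, LL_zero]
    push_cast; ring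
  s_ge := by
    rw [pow_add]; nlinarith [q_le N]
  s_le := by
    have h0 : (0 : ℝ) < (1 / 3) ^ (N + 4) := by positivity
    linarith
  oc_zero := by
    unfold ooc
    rw [mul_zero, BB_zero]; simp
  dc_zero := by
    rw [(hasDerivAt_ooc _ (by simp)).deriv, mul_zero, LL_zero]
    unfold ooc
    rw [mul_zero, BB_zero]
    push_cast; ring
  r_ge := by
    have h0 : (0 : ℝ) < (1 / 3) ^ (N + 4) := by positivity
    have h1 : ((1 : ℝ) / 3) ^ (N + 4) ≤ 1 / 81 := by rw [pow_add]; nlinarith [q_le N]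
    rw [mul_pow, mul_pow, cc_sq]
    nlinarith
  approx η hη := approx_oo _ (by omega) hη

/-- The pair of kernels. -/
theorem exists_kernels {ε : ℝ} (hε : 0 < ε) : ∃ O I : ℕ → ℕ → ℂ, PSD O ∧ PSD I ∧
    (∀ a b : ℕ, ‖O a b + (cc : ℂ) ^ ((b : ℤ) - a) * I a b - (a + 2)‖ ≤ cc ^ ((b : ℤ) - a) * ε) ∧
    (I 0 0).re ≤ 1 + ε ∧ ∀ a, 1 ≤ a → 3 / 4 ≤ (I a a).re := by
  obtain ⟨N, hN⟩ := exists_pow_lt_of_lt_one (x := min (ε / 180) (1 / 9000)) (y := (1 / 3 : ℝ))
    (by positivity) (by norm_num)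
  have h0 : (0 : ℝ) < (1 / 3) ^ (N + 4) := by positivity
  have h1 : ((1 : ℝ) / 3) ^ (N + 4) ≤ (1 / 3) ^ N :=
    pow_le_pow_of_le_one (by norm_num) (by norm_num) (by omega)
  have h2 := min_le_left (ε / 180) (1 / 9000)
  have h3 := min_le_right (ε / 180) (1 / 9000)
  set D := edata N
  have hb := D.bounds (by positivity) (by linarith)
  refine ⟨D.O, D.I, D.psd_O, D.psd_I, fun a b => (D.cross (by positivity) (by linarith) a b).trans
    (mul_le_mul_of_nonneg_left (by linarith) (zpow_pos cc_pos _).le), by linarith [hb.1], hb.2⟩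

end Pool.Agent.Lib.MP_5cb574_an
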