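import Mathlib
import Pool.Agent.Lib.MP_5cb574_an.Ell2

/-! The three families of certificates. -/

namespace Pool.Agent.Lib.MP_5cb574_an

open Finset Complex Filter Topology Metric Real
open scoped ComplexConjugate

lemma zpow_cc_le {n k j : ℕ} (hk : k < n) : cc ^ ((j : ℤ) - k) ≤ 2 ^ n := by
  have h1 : cc ≤ 1 := by linarith [cc_lt]
  have h2 : cc ^ ((j : ℤ) - k) ≤ cc ^ (-(n : ℤ)) :=
    zpow_le_zpow_right_of_le_one₀ cc_pos h1 (by omega)
  refine h2.trans ?_
  rw [zpow_neg, zpow_natCast, ← inv_pow, cc_inv]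
  exact pow_le_pow_left₀ (by linarith [cc_pos]) (by linarith [cc_lt]) n

lemma diag_le {O I : ℕ → ℕ → ℂ} {η : ℝ}
    (h : ∀ a b : ℕ, ‖O a b + (cc : ℂ) ^ ((b : ℤ) - a) * I a b - (a + 2)‖ ≤ cc ^ ((b : ℤ) - a) * η)
    (a : ℕ) : |(O a a).re + (I a a).re - (a + 2)| ≤ η := by
  have h1 := h a a
  simp only [sub_self, zpow_zero, one_mul] at h1
  have h2 := (abs_re_le_norm _).trans h1
  simpa using h2

lemma nat_norm {O I : ℕ → ℕ → ℂ} {η ε : ℝ} (hη : 0 ≤ η) (hε : η ≤ ε)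
    (h : ∀ a b : ℕ, ‖O a b + (cc : ℂ) ^ ((b : ℤ) - a) * I a b - (a + 2)‖ ≤ cc ^ ((b : ℤ) - a) * η)
    (a : ℕ) : (1 / ((a + 1 : ℕ) + 1 : ℝ)) ^ 2 * (O a a).re +
      (1 / ((a + 1 : ℕ) + 1 : ℝ)) ^ 2 * (I a a).re ≤ 1 / ((a + 1 : ℕ) + 1) + ε := by
  have h1 := (abs_le.mp (diag_le h a)).2
  push_cast
  have h2 : (0 : ℝ) < a + 1 + 1 := by positivity
  have h3 : (1 / (a + 1 + 1 : ℝ)) ^ 2 ≤ 1 := by
    apply pow_le_one₀ (by positivity)
    rw [div_le_one h2]; linarith [(Nat.cast_nonneg a : (0 : ℝ) ≤ a)]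
  have h4 : (1 / (a + 1 + 1 : ℝ)) ^ 2 * (a + 2) = 1 / (a + 1 + 1) := by
    field_simp; ring
  have h5 : (0 : ℝ) ≤ (1 / (a + 1 + 1 : ℝ)) ^ 2 := by positivity
  nlinarith [mul_le_mul_of_nonneg_left h1 h5]

lemma nat_cross {O I : ℕ → ℕ → ℂ} {ε : ℝ} (hε : 0 ≤ ε) {n : ℕ}
    (h : ∀ a b : ℕ, ‖O a b + (cc : ℂ) ^ ((b : ℤ) - a) * I a b - (a + 2)‖ ≤
      cc ^ ((b : ℤ) - a) * (ε / 2 ^ n))
    {a : ℕ} (ha : a < n) (b : ℕ) :
    ‖((1 / ((a + 1 : ℕ) + 1 : ℝ) : ℝ) : ℂ) * ((1 / ((b + 1 : ℕ) + 1 : ℝ) : ℝ) : ℂ) * O a b +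
      (cc : ℂ) ^ ((b : ℤ) - a) * (((1 / ((a + 1 : ℕ) + 1 : ℝ) : ℝ) : ℂ) *
        ((1 / ((b + 1 : ℕ) + 1 : ℝ) : ℝ) : ℂ) * I a b) - 1 / ((b + 1 : ℕ) + 1)‖ ≤ ε := by
  have h1 : ‖O a b + (cc : ℂ) ^ ((b : ℤ) - a) * I a b - (a + 2)‖ ≤ ε := by
    refine (h a b).trans ?_
    calc cc ^ ((b : ℤ) - a) * (ε / 2 ^ n) ≤ 2 ^ n * (ε / 2 ^ n) :=
          mul_le_mul_of_nonneg_right (zpow_cc_le ha) (by positivity)
      _ = ε := by field_simp
  have ha0 : (a : ℂ) + 1 + 1 ≠ 0 := by exact_mod_cast (by omega : a + 1 + 1 ≠ 0)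
  have hb0 : (b : ℂ) + 1 + 1 ≠ 0 := by exact_mod_cast (by omega : b + 1 + 1 ≠ 0)
  have e : ((1 / ((a + 1 : ℕ) + 1 : ℝ) : ℝ) : ℂ) * ((1 / ((b + 1 : ℕ) + 1 : ℝ) : ℝ) : ℂ) * O a b +
      (cc : ℂ) ^ ((b : ℤ) - a) * (((1 / ((a + 1 : ℕ) + 1 : ℝ) : ℝ) : ℂ) *
        ((1 / ((b + 1 : ℕ) + 1 : ℝ) : ℝ) : ℂ) * I a b) - 1 / ((b + 1 : ℕ) + 1) =
      ((1 / ((a + 1 + 1) * (b + 1 + 1)) : ℝ) : ℂ) *
        (O a b + (cc : ℂ) ^ ((b : ℤ) - a) * I a b - (a + 2)) := by
    push_cast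
    field_simp
    ring
  rw [e, norm_mul, norm_real, Real.norm_eq_abs, abs_of_pos (by positivity)]
  have h3 : 1 / ((a + 1 + 1) * (b + 1 + 1) : ℝ) ≤ 1 := by
    rw [div_le_one (by positivity)]
    nlinarith [(Nat.cast_nonneg a : (0 : ℝ) ≤ a), (Nat.cast_nonneg b : (0 : ℝ) ≤ b)]
  nlinarith [norm_nonneg (O a b + (cc : ℂ) ^ ((b : ℤ) - a) * I a b - (a + 2))]

/-- Certificate for the case that the dominated function vanishes at the origin. -/
theorem cert_T (n : ℕ) (ε : ℝ) (hε : 0 < ε) : Nonempty (Cert n (fun _ j => 1 ≤ j) ε) := by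
  obtain ⟨O, I, hO, hI, h1, h2, -⟩ := exists_kernels (ε := ε / 2 ^ n) (by positivity)
  have hη : ε / 2 ^ n ≤ ε := div_le_self hε.le (one_le_pow₀ (by norm_num))
  have hη0 : 0 ≤ ε / 2 ^ n := by positivity
  refine ⟨⟨O, I, hO, hI, fun k => k - 1, fun j => j - 1,
    fun k => if k = 0 then 1 / 2 else 1 / (k + 1), fun k => if k = 0 then 3 * cc / 2 else 1 / (k + 1),
    fun j => if j = 0 then 0 else 1 / (j + 1), fun j => if j = 0 then 0 else 1 / (j + 1),
    ?_, ?_, ?_⟩⟩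
  · intro k hk j _ hj
    obtain ⟨b, rfl⟩ := Nat.exists_eq_add_of_le' hj
    rcases k with _ | a
    · have := nat_cross hε.le h1 hk b
      convert this using 2
      simp only [if_true, Nat.add_eq_zero_iff, one_ne_zero, and_false, if_false, Nat.zero_sub,
        Nat.add_sub_cancel]
      have e : (cc : ℂ) ^ (((b + 1 : ℕ) : ℤ) - (0 : ℕ)) = (cc : ℂ) ^ ((b : ℤ) - (0 : ℕ)) * cc := by
        rw [← zpow_add_one₀ ccC_ne]; congr 1
      have e2 : (cc : ℂ) ^ 2 = 1 / 3 := by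
        rw [← ofReal_pow, cc_sq]; push_cast; rfl
      rw [e]
      push_cast
      linear_combination (3 / 2 * (cc : ℂ) ^ ((b : ℤ) - 0) * (1 / (b + 1 + 1)) * I 0 b) * e2
    · have := nat_cross hε.le h1 (a := a) (by omega) b
      simp only [Nat.add_eq_zero_iff, one_ne_zero, and_false, if_false, Nat.add_sub_cancel]
      rwa [show ((b + 1 : ℕ) : ℤ) - (a + 1 : ℕ) = (b : ℤ) - a by push_cast; ring]
  · intro k _
    rcases k with _ | a
    · have h3 := (abs_le.mp (diag_le h1 0)).2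
      simp only [if_true, Nat.zero_sub, div_pow, mul_pow, cc_sq]
      norm_num at h3 ⊢
      linarith
    · simpa only [Nat.add_eq_zero_iff, one_ne_zero, and_false, if_false, Nat.add_sub_cancel]
        using nat_norm hη0 hη h1 a
  · intro k _
    rcases k with _ | a
    · simp only [if_true]
      norm_num
      linarith
    · simpa only [Nat.add_eq_zero_iff, one_ne_zero, and_false, if_false, Nat.add_sub_cancel]
        using nat_norm hη0 hη h1 a

lemma three_pow_ge (m : ℕ) : 4 * ((m + 2 : ℝ) * (m + 3) + 1) ≤ 3 * (3 ^ (m + 2) - 1) + 4 := by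
  induction m with
  | zero => norm_num
  | succ m ih =>
    rw [show m + 1 + 2 = m + 2 + 1 by ring, pow_succ]
    push_cast
    nlinarith [(Nat.cast_nonneg m : (0 : ℝ) ≤ m)]

/-- Certificate for a zero of order at least two. -/
theorem cert_B (m n : ℕ) (ε : ℝ) (hε : 0 < ε) :
    Nonempty (Cert n (fun k j => m + 2 ≤ k ∧ k ≤ j + (m + 2)) ε) := by
  obtain ⟨O, I, hO, hI, h1, -, h2⟩ := exists_kernels (ε := ε / 2 ^ n) (by positivity)
  have hη : ε / 2 ^ n ≤ ε := div_le_self hε.le (one_le_pow₀ (by norm_num))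
  have hη0 : 0 ≤ ε / 2 ^ n := by positivity
  set D : ℝ := (O (m + 1) (m + 1)).re + 3 ^ (m + 2) * (I (m + 1) (m + 1)).re with hD
  have h3 := (abs_le.mp (diag_le h1 (m + 1))).1
  have h4 := h2 (m + 1) (by omega)
  have h5 := three_pow_ge m
  have h6 : (1 : ℝ) ≤ 3 ^ (m + 2) := one_le_pow₀ (by norm_num)
  have hO0 : 0 ≤ (O (m + 1) (m + 1)).re := by
    have := hO.pull {0} (fun _ : ℕ => m + 1) (fun _ => 1)
    simpa using this
  push_cast at h3
  have hD1 : (m + 3 : ℝ) ^ 2 - ε ≤ D := by nlinarith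
  have hD2 : (m + 2 : ℝ) * (m + 3) ≤ D := by nlinarith
  have hm0 : (0 : ℝ) ≤ m := Nat.cast_nonneg m
  have hD0 : 0 < D := by nlinarith
  refine ⟨⟨O, I, hO, hI, fun k => k - 1, fun j => if j = 0 then m + 1 else j - 1,
    fun k => if k = 0 then 0 else 1 / (k + 1), fun k => if k = 0 then 0 else 1 / (k + 1),
    fun j => if j = 0 then (m + 3) / D else 1 / (j + 1),
    fun j => if j = 0 then (3 * cc) ^ (m + 2) * (m + 3) / D else 1 / (j + 1),
    ?_, ?_, ?_⟩⟩
  · intro k hk j _ hj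
    rcases j with _ | b
    · have hk2 : k = m + 2 := by omega
      subst hk2
      simp only [if_true, Nat.add_eq_zero_iff, OfNat.ofNat_ne_zero, and_false, if_false,
        show m + 2 - 1 = m + 1 by omega]
      have e : (cc : ℂ) ^ (((0 : ℕ) : ℤ) - (m + 2 : ℕ)) * ((3 : ℂ) * cc) ^ (m + 2) =
          3 ^ (m + 2) := by
        rw [Nat.cast_zero, zero_sub, zpow_neg, zpow_natCast, mul_pow]
        have := pow_ne_zero (m + 2) ccC_ne
        field_simp
      have hDC : (D : ℂ) = O (m + 1) (m + 1) + 3 ^ (m + 2) * I (m + 1) (m + 1) := by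
        rw [hD, hO.diag_im, hI.diag_im]; push_cast; simp
      have hD' : (D : ℂ) ≠ 0 := by exact_mod_cast hD0.ne'
      have hm : (m : ℂ) + 2 + 1 ≠ 0 := by exact_mod_cast (by omega : m + 2 + 1 ≠ 0)
      have : ((1 / ((m + 2 : ℕ) + 1 : ℝ) : ℝ) : ℂ) * (((m + 3) / D : ℝ) : ℂ) * O (m + 1) (m + 1) +
          (cc : ℂ) ^ (((0 : ℕ) : ℤ) - (m + 2 : ℕ)) * (((1 / ((m + 2 : ℕ) + 1 : ℝ) : ℝ) : ℂ) *
          (((3 * cc) ^ (m + 2) * (m + 3) / D : ℝ) : ℂ) * I (m + 1) (m + 1)) -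
          1 / ((0 : ℕ) + 1) = 0 := by
        push_cast at e ⊢
        generalize (cc : ℂ) ^ ((0 : ℤ) - (m + 2)) = u at *
        generalize ((3 : ℂ) * cc) ^ (m + 2) = v at *
        field_simp
        linear_combination (m + 3) * I (m + 1) (m + 1) * e - (m + 3) * hDC
      rw [this, norm_zero]; exact hε.le
    · obtain ⟨a, rfl⟩ : ∃ a, k = a + 1 := ⟨k - 1, by omega⟩
      have := nat_cross hε.le h1 (a := a) (by omega) b
      simp only [Nat.add_eq_zero_iff, one_ne_zero, and_false, if_false, Nat.add_sub_cancel]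
      rwa [show ((b + 1 : ℕ) : ℤ) - (a + 1 : ℕ) = (b : ℤ) - a by push_cast; ring]
  · intro k _
    rcases k with _ | a
    · simp only [if_true]
      norm_num
      linarith
    · simpa only [Nat.add_eq_zero_iff, one_ne_zero, and_false, if_false, Nat.add_sub_cancel]
        using nat_norm hη0 hη h1 a
  · intro k _
    rcases k with _ | a
    · simp only [if_true]
      have e : ((3 * cc) ^ (m + 2)) ^ 2 = 3 ^ (m + 2) := by
        rw [← pow_mul, mul_comm (m + 2), pow_mul, mul_pow, cc_sq]; norm_num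
      have e2 : ((m + 3) / D) ^ 2 * (O (m + 1) (m + 1)).re +
          ((3 * cc) ^ (m + 2) * (m + 3) / D) ^ 2 * (I (m + 1) (m + 1)).re = (m + 3) ^ 2 / D := by
        rw [div_pow, div_pow, mul_pow, e]
        field_simp
        rw [hD]
      rw [e2, div_le_iff₀ hD0]
      norm_num
      have h7 : 1 ≤ D := by nlinarith
      nlinarith [mul_le_mul_of_nonneg_left h7 hε.le]
    · simpa only [Nat.add_eq_zero_iff, one_ne_zero, and_false, if_false, Nat.add_sub_cancel]
        using nat_norm hη0 hη h1 a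

/-- The alternating weights of the certificate for a simple zero. -/
noncomputable def al (i : ℕ) : ℝ := if i % 2 = 0 then 1 else 3 * cc / 2

noncomputable def bl (i : ℕ) : ℝ := cc ^ i * al i

noncomputable def O1 (i j : ℕ) : ℝ := (min i j : ℕ) + 2 - cc ^ (i - j + (j - i)) * al i * al j

noncomputable def D1 (i j : ℕ) : ℝ := O1 i j - (2 - bl i) * (2 - bl j)

lemma al_two (i : ℕ) : al (i + 2) = al i := by simp [al]

lemma bl_two (i : ℕ) : bl (i + 2) = bl i / 3 := by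
  unfold bl; rw [al_two, pow_add, cc_sq]; ring

lemma O1_symm (i j : ℕ) : O1 i j = O1 j i := by
  unfold O1; rw [min_comm, add_comm (i - j)]; ring

lemma D1_symm (i j : ℕ) : D1 i j = D1 j i := by
  unfold D1; rw [O1_symm]; ring

lemma D1_two (i j : ℕ) :
    D1 (i + 2) (j + 2) = D1 i j + 2 * ((1 - 2 / 3 * bl i) * (1 - 2 / 3 * bl j)) := by
  unfold D1 O1
  rw [bl_two, bl_two, al_two, al_two, Nat.add_sub_add_right, Nat.add_sub_add_right,
    Nat.add_min_add_right]
  push_cast; ring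

lemma D1_zero (j : ℕ) : D1 0 j = 0 := by
  simp [D1, O1, bl, al]
  ring

lemma D1_one (j : ℕ) : D1 1 j = 0 := by
  rcases j with _ | j
  · rw [D1_symm, D1_zero]
  · have h1 : al 1 = 3 * cc / 2 := by simp [al]
    unfold D1 O1 bl
    rw [h1, min_eq_left (by omega), show 1 - (j + 1) + (j + 1 - 1) = j by omega, pow_succ cc j]
    push_cast
    linear_combination (3 - 3 / 2 * cc ^ j * cc * al (j + 1)) * cc_sq

lemma rank_one (g : ℕ → ℝ) (n : ℕ) (u : ℕ → ℂ) :
    0 ≤ (∑ j ∈ range n, ∑ k ∈ range n, ((g j * g k : ℝ) : ℂ) * u j * conj (u k)).re := by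
  have e : ∑ j ∈ range n, ∑ k ∈ range n, ((g j * g k : ℝ) : ℂ) * u j * conj (u k) =
      (∑ j ∈ range n, g j * u j) * conj (∑ j ∈ range n, g j * u j) := by
    rw [map_sum, sum_mul_sum]
    refine sum_congr rfl fun j _ => sum_congr rfl fun k _ => ?_
    rw [map_mul, conj_ofReal]; push_cast; ring
  rw [e, mul_conj', ← ofReal_pow, ofReal_re]; positivity

lemma D1_pos (n : ℕ) : ∀ u : ℕ → ℂ,
    0 ≤ (∑ j ∈ range n, ∑ k ∈ range n, (D1 j k : ℂ) * u j * conj (u k)).re := by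
  induction n using Nat.twoStepInduction with
  | zero => simp
  | one => simp [D1_zero]
  | more n ih _ =>
    intro u
    have h1 := ih (fun j => u (j + 2))
    have h2 := rank_one (fun i => 1 - 2 / 3 * bl i) n (fun j => u (j + 2))
    have e : ∑ j ∈ range (n + 2), ∑ k ∈ range (n + 2), (D1 j k : ℂ) * u j * conj (u k) =
        ∑ j ∈ range n, ∑ k ∈ range n, (D1 j k : ℂ) * u (j + 2) * conj (u (k + 2)) +
        2 * ∑ j ∈ range n, ∑ k ∈ range n,
          (((1 - 2 / 3 * bl j) * (1 - 2 / 3 * bl k) : ℝ) : ℂ) * u (j + 2) * conj (u (k + 2)) := by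
      simp only [sum_range_succ', zero_add, D1_zero, D1_one, D1_symm _ 0, D1_symm _ 1, ofReal_zero,
        zero_mul, add_zero, sum_const_zero, mul_sum, ← sum_add_distrib]
      refine sum_congr rfl fun j _ => sum_congr rfl fun k _ => ?_
      rw [add_assoc j, add_assoc k, D1_two]
      push_cast; ring
    rw [e, add_re]
    have : (2 * ∑ j ∈ range n, ∑ k ∈ range n,
          (((1 - 2 / 3 * bl j) * (1 - 2 / 3 * bl k) : ℝ) : ℂ) * u (j + 2) * conj (u (k + 2))).re =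
        2 * (∑ j ∈ range n, ∑ k ∈ range n,
          (((1 - 2 / 3 * bl j) * (1 - 2 / 3 * bl k) : ℝ) : ℂ) * u (j + 2) * conj (u (k + 2))).re := by
      rw [mul_re]; simp
    rw [this]
    linarith

lemma psd_O1 : PSD (fun i j => (O1 i j : ℂ)) where
  herm j k := by rw [conj_ofReal, O1_symm]
  pos n u := by
    have h1 := D1_pos n u
    have h2 := rank_one (fun i => 2 - bl i) n u
    have e : ∀ j k, (O1 j k : ℂ) = D1 j k + (((2 - bl j) * (2 - bl k) : ℝ) : ℂ) := by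
      intro j k; unfold D1; push_cast; ring
    simp only [e, add_mul, sum_add_distrib, add_re]
    linarith

lemma psd_I1 : PSD (fun i j => ((al i * al j : ℝ) : ℂ)) where
  herm j k := by rw [conj_ofReal, mul_comm]
  pos := rank_one al

lemma O1_cross {a b : ℕ} (h : a ≤ b + 1) :
    O1 a b + cc ^ ((b : ℤ) - a) * (al a * al b) = a + 2 := by
  unfold O1
  rcases le_or_gt a b with h1 | h1
  · obtain ⟨d, rfl⟩ := Nat.exists_eq_add_of_le h1
    rw [min_eq_left h1, show a - (a + d) + (a + d - a) = d by omega,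
      show ((a + d : ℕ) : ℤ) - a = d by push_cast; ring, zpow_natCast]
    ring
  · obtain rfl : a = b + 1 := by omega
    have h2 : al (b + 1) * al b = 3 * cc / 2 := by
      unfold al
      rcases Nat.mod_two_eq_zero_or_one b with h3 | h3
      · rw [if_neg (by omega), if_pos h3, mul_one]
      · rw [if_pos (by omega), if_neg (by omega), one_mul]
    rw [min_eq_right (by omega), show b + 1 - b + (b - (b + 1)) = 1 by omega,
      show (b : ℤ) - (b + 1 : ℕ) = -1 by push_cast; ring, zpow_neg_one, cc_inv, mul_assoc, h2]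
    push_cast
    linear_combination 3 * cc_sq

/-- Certificate for a simple zero. -/
theorem cert_one (n : ℕ) (ε : ℝ) (hε : 0 < ε) :
    Nonempty (Cert n (fun k j => 1 ≤ k ∧ k ≤ j + 1) ε) := by
  have hn : ∀ a : ℕ, (1 / ((a + 1 : ℕ) + 1 : ℝ)) ^ 2 * ((O1 a a : ℝ) : ℂ).re +
      (1 / ((a + 1 : ℕ) + 1 : ℝ)) ^ 2 * ((al a * al a : ℝ) : ℂ).re ≤ 1 / ((a + 1 : ℕ) + 1) + ε := by
    intro a
    have := O1_cross (a := a) (b := a) (by omega)
    rw [sub_self, zpow_zero, one_mul] at this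
    rw [ofReal_re, ofReal_re, ← mul_add, this]
    push_cast
    have e : (1 / (a + 1 + 1 : ℝ)) ^ 2 * (a + 2) = 1 / (a + 1 + 1) := by field_simp; ring
    linarith
  have h00 : O1 0 0 = 1 := by simp [O1, al]; norm_num
  have ha0 : al 0 = 1 := by simp [al]
  refine ⟨⟨_, _, psd_O1, psd_I1, fun k => k - 1, fun j => j - 1,
    fun k => if k = 0 then 0 else 1 / (k + 1), fun k => if k = 0 then 0 else 1 / (k + 1),
    fun j => if j = 0 then 1 / 2 else 1 / (j + 1),
    fun j => if j = 0 then 3 * cc / 2 else 1 / (j + 1), ?_, ?_, ?_⟩⟩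
  · intro k hk j _ hj
    obtain ⟨a, rfl⟩ : ∃ a, k = a + 1 := ⟨k - 1, by omega⟩
    refine le_trans (le_of_eq ?_) hε.le
    rw [norm_eq_zero]
    rcases j with _ | b
    · obtain rfl : a = 0 := by omega
      simp only [if_true, Nat.zero_sub, h00, ha0, zero_add, one_ne_zero, if_false, Nat.sub_self]
      have := ccC_ne
      push_cast
      norm_num
      field_simp
      norm_num
    · have h1 := congrArg (ofReal) (O1_cross (a := a) (b := b) (by omega))
      simp only [Nat.add_eq_zero_iff, one_ne_zero, and_false, if_false, Nat.add_sub_cancel]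
      rw [show ((b + 1 : ℕ) : ℤ) - (a + 1 : ℕ) = (b : ℤ) - a by push_cast; ring]
      have ha1 : (a : ℂ) + 1 + 1 ≠ 0 := by exact_mod_cast (by omega : a + 1 + 1 ≠ 0)
      have hb1 : (b : ℂ) + 1 + 1 ≠ 0 := by exact_mod_cast (by omega : b + 1 + 1 ≠ 0)
      push_cast at h1 ⊢
      field_simp
      linear_combination h1
  · intro k _
    rcases k with _ | a
    · simp only [if_true]
      norm_num
      linarith
    · simpa only [Nat.add_eq_zero_iff, one_ne_zero, and_false, if_false, Nat.add_sub_cancel]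
        using hn a
  · intro k _
    rcases k with _ | a
    · simp only [if_true, Nat.zero_sub, h00, ha0, div_pow, mul_pow, cc_sq]
      norm_num
      linarith
    · simpa only [Nat.add_eq_zero_iff, one_ne_zero, and_false, if_false, Nat.add_sub_cancel]
        using hn a

end Pool.Agent.Lib.MP_5cb574_an
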