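import Mathlib
import Pool.Agent.Lib.MP_5cb574_an.Bergman
import Pool.Agent.Lib.MP_5cb574_an.Ahlfors

/-! If `|f| ≥ 1` on the annulus `29 / 50 ≤ |z| < 1` then `f` dominates the constant `1`. -/

namespace Pool.Agent.Lib.MP_5cb574_an

open Complex Filter Topology Metric Real MeasureTheory
open scoped ComplexConjugate

/-- The mean of `|F|²` over the circle of radius `r`. -/
noncomputable def ms (F : ℂ → ℂ) (r : ℝ) : ℝ := (av r (fun z => F z * conj (F z))).re

lemma ms_mono {F : ℂ → ℂ} (hF : DifferentiableOn ℂ F (ball 0 1)) {t r : ℝ} (h0 : 0 < t)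
    (h1 : t ≤ r) (h2 : r < 1) : ms F t ≤ ms F r :=
  hasSum_le (fun k => by gcongr) (parseval hF h0 (h1.trans_lt h2)) (parseval hF (h0.trans_le h1) h2)

lemma ms_nonneg {F : ℂ → ℂ} (hF : DifferentiableOn ℂ F (ball 0 1)) {t : ℝ} (h0 : 0 < t)
    (h2 : t < 1) : 0 ≤ ms F t :=
  (parseval hF h0 h2).nonneg fun k => by positivity

lemma ms_le {F G H : ℂ → ℂ} {r α β : ℝ} (hr : 0 < r) (hF : CS r F) (hG : CS r G) (hH : CS r H)
    (h : ∀ z ∈ sphere (0 : ℂ) r, ‖F z‖ ^ 2 ≤ α * ‖G z‖ ^ 2 + β * ‖H z‖ ^ 2) :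
    ms F r ≤ α * ms G r + β * ms H r := by
  have h1 := (hG.mul hG.conj).cmul α
  have h2 := (hH.mul hH.conj).cmul β
  have := av_re_mono hr (hF.mul hF.conj) (h1.add h2) fun z hz => by
    simpa only [mul_conj', ← ofReal_pow, ← ofReal_mul, ← ofReal_add, ofReal_re] using h z hz
  rwa [av_add hr h1 h2, av_const_mul, av_const_mul, add_re, re_ofReal_mul, re_ofReal_mul] at this

lemma ms_key {f φ : ℂ → ℂ} {c s t r : ℝ} (hf : DifferentiableOn ℂ f (ball 0 1))
    (hφ : DifferentiableOn ℂ φ (ball 0 1)) (hs : c < s)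
    (hb : ∀ z : ℂ, c ≤ ‖z‖ → ‖z‖ < 1 → 1 ≤ ‖f z‖) (h0 : 0 < t) (h1 : t ≤ c) (h2 : c < r)
    (h3 : r < 1) :
    ms φ t ≤ ms (fun z => f z * φ z) t +
      (s ^ 2 - t ^ 2) / s * ((ms (fun z => f z * φ z) r - ms φ r) / sig c r) := by
  have hc : 0 < c := h0.trans_le h1
  have hr : 0 < r := hc.trans h2
  have hσ := sig_pos hc h2 h3
  have ht1 : t < 1 := by linarith
  have hκ : 0 ≤ (s ^ 2 - t ^ 2) / s := div_nonneg (by nlinarith) (by linarith)
  have hfφ : DifferentiableOn ℂ (fun z => f z * φ z) (ball 0 1) := hf.mul hφ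
  have hf' : DifferentiableOn ℂ (deriv f) (ball 0 1) := hf.deriv isOpen_ball
  have main : ∀ ε : ℝ, 0 < ε → ms φ t ≤ ms (fun z => f z * φ z) t + (s ^ 2 - t ^ 2) / s *
      (rexp ε / sig c r * ms (fun z => f z * φ z) r + rexp ε * (ε - 1 / sig c r) * ms φ r) := by
    intro ε hε
    have hK : ∀ z ∈ sphere (0 : ℂ) r, ‖deriv f z‖ ≤ (‖f z‖ ^ 2 - 1) / sig c r := by
      intro z hz
      have e := mem_sphere_zero_iff_norm.mp hz
      rw [le_div_iff₀ hσ, ← e]
      exact pick_ext hc (fun z _ b => diffAt_of_ball hf b) (fun z a b => hb z a.le b)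
        (e ▸ h2) (e ▸ h3)
    obtain ⟨p, hp, hp1⟩ := outer hr (K := fun z => (‖f z‖ ^ 2 - 1) / sig c r + ε)
      (((((cs_of_ball hf h3).norm.pow 2).sub continuousOn_const).div_const _).add
        continuousOn_const)
      (fun z hz => by linarith [hK z hz, norm_nonneg (deriv f z)]) hε
    have hm : ∀ z : ℂ, ‖z‖ ≤ r → ‖deriv f z‖ ≤ rexp (p z).re := by
      intro z hz
      have e : ∀ w, ‖deriv f w * cexp (-p w)‖ = ‖deriv f w‖ / rexp (p w).re := fun w => by
        rw [norm_mul, norm_exp, neg_re, Real.exp_neg, div_eq_mul_inv]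
      have := Complex.norm_le_of_forall_mem_frontier_norm_le (U := ball (0 : ℂ) r) (C := 1)
        (f := fun w => deriv f w * cexp (-p w)) isBounded_ball
        (DifferentiableOn.diffContOnCl (by
          rw [closure_ball _ hr.ne']
          exact (hf'.mono (closedBall_subset_ball h3)).mul hp.neg.cexp.differentiableOn))
        (fun w hw => by
          rw [frontier_ball _ hr.ne'] at hw
          rw [e, div_le_one (Real.exp_pos _)]
          linarith [hK w hw, (hp1 w hw).1])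
        (z := z) (by rw [closure_ball _ hr.ne']; exact mem_closedBall_zero_iff.mpr hz)
      rwa [e, div_le_one (Real.exp_pos _)] at this
    have hH : DifferentiableOn ℂ (fun z => cexp (p z / 2) * φ z) (ball 0 1) :=
      (hp.div_const 2).cexp.differentiableOn.mul hφ
    have e : ∀ z, ‖cexp (p z / 2) * φ z‖ ^ 2 = rexp (p z).re * ‖φ z‖ ^ 2 := fun z => by
      rw [norm_mul, mul_pow, norm_exp, sq, ← Real.exp_add, div_ofNat_re, add_halves]
    have a1 := ms_le (α := 1) (β := (s ^ 2 - t ^ 2) / s) h0 (cs_of_ball hφ ht1)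
      (cs_of_ball hfφ ht1) (cs_of_ball hH ht1) fun z hz => by
        have e1 := mem_sphere_zero_iff_norm.mp hz
        have := ahlfors hc hs (fun z hz => diffAt_of_ball hf (by linarith)) hp
          (fun z hz => hb z hz.ge (by linarith)) (fun z hz => hm z (by linarith)) (e1 ▸ h1 : ‖z‖ ≤ c)
        rw [e1] at this
        rw [e, norm_mul, mul_pow]
        nlinarith [mul_le_mul_of_nonneg_right this (sq_nonneg ‖φ z‖)]
    have a2 := ms_mono hH h0 (h1.trans h2.le) h3
    have a3 := ms_le (α := rexp ε / sig c r) (β := rexp ε * (ε - 1 / sig c r)) hr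
      (cs_of_ball hH h3) (cs_of_ball hfφ h3) (cs_of_ball hφ h3) fun z hz => by
        rw [e, norm_mul, mul_pow]
        refine (mul_le_mul_of_nonneg_right (hp1 z hz).2 (sq_nonneg ‖φ z‖)).trans (le_of_eq ?_)
        ring
    linarith [mul_le_mul_of_nonneg_left (a2.trans a3) hκ]
  have lim : Tendsto (fun ε : ℝ => ms (fun z => f z * φ z) t + (s ^ 2 - t ^ 2) / s *
      (rexp ε / sig c r * ms (fun z => f z * φ z) r + rexp ε * (ε - 1 / sig c r) * ms φ r))
      (𝓝[>] 0) _ := (Continuous.tendsto (by fun_prop) 0).mono_left nhdsWithin_le_nhds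
  refine (ge_of_tendsto lim (eventually_nhdsWithin_of_forall main)).trans (le_of_eq ?_)
  rw [Real.exp_zero]
  ring

lemma polar {F : ℂ → ℂ} (hF : DifferentiableOn ℂ F (ball 0 1)) :
    ∫⁻ z in ball (0 : ℂ) 1, ‖F z‖ₑ ^ 2 =
      ENNReal.ofReal (2 * π) * ∫⁻ t in Set.Ioo (0 : ℝ) 1, ENNReal.ofReal (t * ms F t) := by
  rw [← lintegral_indicator measurableSet_ball, ← Complex.lintegral_comp_polarCoord_symm,
    polarCoord_target]
  have e1 : ∫⁻ p in Set.Ioi (0 : ℝ) ×ˢ Set.Ioo (-π) π, ENNReal.ofReal p.1 •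
      (ball (0 : ℂ) 1).indicator (fun z => ‖F z‖ₑ ^ 2) (Complex.polarCoord.symm p) =
      ∫⁻ p in Set.Ioo (0 : ℝ) 1 ×ˢ Set.Ioo (-π) π,
        ENNReal.ofReal p.1 * ‖F (Complex.polarCoord.symm p)‖ₑ ^ 2 := by
    rw [← lintegral_indicator (measurableSet_Ioi.prod measurableSet_Ioo),
      ← lintegral_indicator (measurableSet_Ioo.prod measurableSet_Ioo)]
    congr 1
    ext p
    by_cases hp : p ∈ Set.Ioi (0 : ℝ) ×ˢ Set.Ioo (-π) π
    · have hn : ‖Complex.polarCoord.symm p‖ = p.1 := by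
        rw [norm_polarCoord_symm, abs_of_pos hp.1]
      by_cases h1 : p.1 < 1
      · rw [Set.indicator_of_mem hp, Set.indicator_of_mem (by rwa [mem_ball_zero_iff, hn]),
          Set.indicator_of_mem (show p ∈ Set.Ioo (0 : ℝ) 1 ×ˢ Set.Ioo (-π) π from
            ⟨⟨hp.1, h1⟩, hp.2⟩), smul_eq_mul]
      · rw [Set.indicator_of_mem hp, Set.indicator_of_notMem (by rwa [mem_ball_zero_iff, hn]),
          Set.indicator_of_notMem (fun h => h1 h.1.2), smul_zero]
    · rw [Set.indicator_of_notMem hp, Set.indicator_of_notMem (fun h => hp ⟨h.1.1, h.2⟩)]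
  have hcont : Continuous (fun p : ℝ × ℝ => Complex.polarCoord.symm p) := by
    simp only [Complex.polarCoord_symm_apply]; fun_prop
  have hmeas : AEMeasurable (fun p : ℝ × ℝ =>
      ENNReal.ofReal p.1 * ‖F (Complex.polarCoord.symm p)‖ₑ ^ 2)
      ((volume.prod volume).restrict (Set.Ioo (0 : ℝ) 1 ×ˢ Set.Ioo (-π) π)) := by
    refine (measurable_fst.ennreal_ofReal).aemeasurable.mul (AEMeasurable.pow_const ?_ 2)
    refine AEMeasurable.enorm ?_
    refine ContinuousOn.aemeasurable ?_ (measurableSet_Ioo.prod measurableSet_Ioo)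
    refine hF.continuousOn.comp hcont.continuousOn fun p hp => ?_
    rw [mem_ball_zero_iff, norm_polarCoord_symm, abs_of_pos hp.1.1]; exact hp.1.2
  rw [e1, Measure.volume_eq_prod, setLIntegral_prod _ hmeas,
    ← lintegral_const_mul' _ _ ENNReal.ofReal_ne_top]
  refine setLIntegral_congr_fun measurableSet_Ioo fun r hr => ?_
  simp only
  rw [lintegral_const_mul' _ _ ENNReal.ofReal_ne_top, lintegral_circle hr.1 (cs_of_ball hF hr.2),
    ← ENNReal.ofReal_mul hr.1.le, ← ENNReal.ofReal_mul (by positivity)]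
  unfold ms
  congr 1
  ring

lemma two_region {U V : Set ℝ} (hU : MeasurableSet U) (hV : MeasurableSet V)
    {a b s k : ℝ → ENNReal} (a1 : AEMeasurable a (volume.restrict U))
    (a2 : AEMeasurable a (volume.restrict V)) (b1 : AEMeasurable b (volume.restrict U))
    (b2 : AEMeasurable b (volume.restrict V)) (s1 : AEMeasurable s (volume.restrict V))
    (k1 : AEMeasurable k (volume.restrict U))
    (h : ∀ t ∈ U, ∀ r ∈ V, s r * a t + k t * a r ≤ s r * b t + k t * b r)
    (h2 : ∀ r ∈ V, a r ≤ b r) (h3 : ∫⁻ t in U, k t ≤ ∫⁻ r in V, s r) (h4 : ∫⁻ r in V, s r ≠ 0)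
    (h5 : ∫⁻ r in V, s r ≠ ⊤) :
    (∫⁻ t in U, a t) + ∫⁻ r in V, a r ≤ (∫⁻ t in U, b t) + ∫⁻ r in V, b r := by
  have c1 : ∀ r ∈ V, s r * (∫⁻ t in U, a t) + (∫⁻ t in U, k t) * a r ≤
      s r * (∫⁻ t in U, b t) + (∫⁻ t in U, k t) * b r := by
    intro r hr
    have := setLIntegral_mono' (μ := volume) hU fun t ht => h t ht r hr
    rwa [lintegral_add_left' (a1.const_mul _), lintegral_add_left' (b1.const_mul _),
      lintegral_const_mul'' _ a1, lintegral_const_mul'' _ b1, lintegral_mul_const'' _ k1,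
      lintegral_mul_const'' _ k1] at this
  have c2 := setLIntegral_mono' (μ := volume) hV c1
  rw [lintegral_add_left' (s1.mul_const _), lintegral_add_left' (s1.mul_const _),
    lintegral_mul_const'' _ s1, lintegral_mul_const'' _ s1, lintegral_const_mul'' _ a2,
    lintegral_const_mul'' _ b2] at c2
  have c3 := setLIntegral_mono' (μ := volume) hV h2
  obtain ⟨E, hE⟩ := exists_add_of_le h3
  rw [← ENNReal.mul_le_mul_iff_right h4 h5, mul_add, mul_add]
  nth_rewrite 2 [hE]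
  nth_rewrite 3 [hE]
  rw [add_mul, add_mul, ← add_assoc, ← add_assoc]
  exact add_le_add c2 (mul_le_mul_right c3 E)

lemma int_sig {c : ℝ} (hc : 0 < c) (h1 : c < 1) :
    ∫⁻ r in Set.Ioo c 1, ENNReal.ofReal (r * sig c r) =
      ENNReal.ofReal (2 * (1 + c ^ 3) / (9 + (π / -Real.log c) ^ 2)) := by
  have hL : 0 < -Real.log c := neg_pos.mpr (Real.log_neg hc h1)
  have hpos : ∀ r ∈ Set.Ioo c 1, 0 ≤ r * sig c r := fun r hr =>
    (mul_pos (hc.trans hr.1) (sig_pos hc hr.1 hr.2)).le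
  unfold sig at hpos ⊢
  set β := π / -Real.log c with hβ
  have hβ0 : 0 < β := by positivity
  have hcont : ContinuousOn (fun r : ℝ => r * (2 * r / β * Real.sin (β * Real.log (r / c))))
      (Set.Icc c 1) := by
    intro r hr
    have : r / c ≠ 0 := (div_pos (hc.trans_le hr.1) hc).ne'
    exact ContinuousAt.continuousWithinAt (by fun_prop (disch := assumption))
  have hd : ∀ r ∈ Set.uIcc c 1, HasDerivAt (fun r : ℝ => 2 / β / (9 + β ^ 2) *
      (r ^ 3 * (3 * Real.sin (β * Real.log (r / c)) - β * Real.cos (β * Real.log (r / c)))))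
      (r * (2 * r / β * Real.sin (β * Real.log (r / c)))) r := by
    intro r hr
    rw [Set.uIcc_of_le h1.le] at hr
    have hr0 : 0 < r := hc.trans_le hr.1
    have d1 := (((hasDerivAt_id' r).div_const c).log (div_pos hr0 hc).ne').const_mul β
    refine (((hasDerivAt_pow 3 r).fun_mul
      ((d1.sin.const_mul 3).fun_sub (d1.cos.const_mul β))).const_mul _).congr_deriv ?_
    simp only [Nat.cast_ofNat, Nat.add_one_sub_one]
    field_simp
    ring
  rw [← ofReal_integral_eq_lintegral_ofReal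
    (hcont.integrableOn_Icc.mono_set Set.Ioo_subset_Icc_self)
    ((ae_restrict_mem measurableSet_Ioo).mono hpos), ← integral_Ioc_eq_integral_Ioo,
    ← intervalIntegral.integral_of_le h1.le, intervalIntegral.integral_eq_sub_of_hasDerivAt hd
      (hcont.intervalIntegrable_of_Icc h1.le)]
  have e : β * Real.log (1 / c) = π := by
    rw [one_div, Real.log_inv, hβ, div_mul_cancel₀ _ hL.ne']
  rw [e, div_self hc.ne', Real.log_one, mul_zero, Real.sin_pi, Real.cos_pi, Real.sin_zero,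
    Real.cos_zero]
  congr 1
  field_simp
  ring

lemma int_kap {c s : ℝ} (hc : 0 < c) (hs : c < s) :
    ∫⁻ t in Set.Ioc 0 c, ENNReal.ofReal (t * ((s ^ 2 - t ^ 2) / s)) =
      ENNReal.ofReal ((s ^ 2 * c ^ 2 / 2 - c ^ 4 / 4) / s) := by
  have hcont : Continuous (fun t : ℝ => t * ((s ^ 2 - t ^ 2) / s)) := by fun_prop
  have hd : ∀ t ∈ Set.uIcc 0 c, HasDerivAt (fun t : ℝ => (s ^ 2 * t ^ 2 / 2 - t ^ 4 / 4) / s)
      (t * ((s ^ 2 - t ^ 2) / s)) t := by
    intro t _
    refine (((((hasDerivAt_pow 2 t).const_mul _).div_const 2).fun_sub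
      ((hasDerivAt_pow 4 t).div_const 4)).div_const s).congr_deriv ?_
    simp only [Nat.cast_ofNat, Nat.add_one_sub_one]
    ring
  rw [← ofReal_integral_eq_lintegral_ofReal
    (hcont.integrableOn_Icc.mono_set Set.Ioc_subset_Icc_self)
    ((ae_restrict_mem measurableSet_Ioc).mono fun t ht =>
      mul_nonneg ht.1.le (div_nonneg (by nlinarith [ht.1, ht.2]) (by linarith))),
    ← intervalIntegral.integral_of_le hc.le, intervalIntegral.integral_eq_sub_of_hasDerivAt hd
      (hcont.intervalIntegrable _ _)]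
  simp

lemma numeric : ((3 / 5 : ℝ) ^ 2 * (29 / 50) ^ 2 / 2 - (29 / 50) ^ 4 / 4) / (3 / 5) ≤
    2 * (1 + (29 / 50) ^ 3) / (9 + (π / -Real.log (29 / 50)) ^ 2) := by
  have h1 : (0.533 : ℝ) ≤ -Real.log (29 / 50) := by
    have e : (29 / 50 : ℝ) = 1.16 / 2 := by norm_num
    rw [e, Real.log_div (by norm_num) (by norm_num)]
    linarith [Real.log_two_gt_d9, Real.log_le_sub_one_of_pos (show (0 : ℝ) < 1.16 by norm_num)]
  have h2 : π / -Real.log (29 / 50) ≤ 5.91 := by
    rw [div_le_iff₀ (by linarith)]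
    linarith [Real.pi_lt_d2]
  have h3 : 0 ≤ π / -Real.log (29 / 50) := div_nonneg pi_pos.le (by linarith)
  rw [le_div_iff₀ (by positivity)]
  nlinarith

lemma ms_meas {F : ℂ → ℂ} (hF : DifferentiableOn ℂ F (ball 0 1)) {U : Set ℝ}
    (hU : MeasurableSet U) (h : U ⊆ Set.Ioo 0 1) :
    AEMeasurable (fun t => ENNReal.ofReal (t * ms F t)) (volume.restrict U) :=
  (aemeasurable_id.mul (aemeasurable_restrict_of_monotoneOn hU
    fun _ a _ b d => ms_mono hF (h a).1 d (h b).2)).ennreal_ofReal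

theorem dom_const {f φ : ℂ → ℂ} (hf : DifferentiableOn ℂ f (ball 0 1))
    (hφ : DifferentiableOn ℂ φ (ball 0 1))
    (hb : ∀ z : ℂ, 29 / 50 ≤ ‖z‖ → ‖z‖ < 1 → 1 ≤ ‖f z‖) :
    ∫⁻ z in ball (0 : ℂ) 1, ‖φ z‖ₑ ^ 2 ≤ ∫⁻ z in ball (0 : ℂ) 1, ‖f z * φ z‖ₑ ^ 2 := by
  have hfφ : DifferentiableOn ℂ (fun z => f z * φ z) (ball 0 1) := hf.mul hφ
  have hc : (0 : ℝ) < 29 / 50 := by norm_num
  have hc1 : (29 / 50 : ℝ) < 1 := by norm_num
  have hs : (29 / 50 : ℝ) < 3 / 5 := by norm_num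
  have hU : Set.Ioc (0 : ℝ) (29 / 50) ⊆ Set.Ioo 0 1 := Set.Ioc_subset_Ioo_right hc1
  have hV : Set.Ioo (29 / 50 : ℝ) 1 ⊆ Set.Ioo 0 1 := Set.Ioo_subset_Ioo_left hc.le
  have hdis : Disjoint (Set.Ioc (0 : ℝ) (29 / 50)) (Set.Ioo (29 / 50 : ℝ) 1) :=
    Set.disjoint_left.mpr fun t a b => a.2.not_gt b.1
  rw [polar hφ, polar hfφ, ← Set.Ioc_union_Ioo_eq_Ioo hc.le hc1,
    lintegral_union measurableSet_Ioo hdis, lintegral_union measurableSet_Ioo hdis]
  refine mul_le_mul_right ?_ _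
  have hAB : ∀ r ∈ Set.Ioo (29 / 50 : ℝ) 1, ms φ r ≤ ms (fun z => f z * φ z) r := by
    intro r hr
    have := ms_le (α := 1) (β := 0) (hV hr).1 (cs_of_ball hφ hr.2) (cs_of_ball hfφ hr.2)
      (cs_of_ball hφ hr.2) fun z hz => by
        have e := mem_sphere_zero_iff_norm.mp hz
        have h1 := hb z (e ▸ hr.1.le) (e ▸ hr.2)
        have h2 : 1 ≤ ‖f z‖ ^ 2 := one_le_pow₀ h1
        rw [norm_mul, mul_pow]
        nlinarith [sq_nonneg ‖φ z‖]
    linarith
  refine two_region (s := fun r => ENNReal.ofReal (r * sig (29 / 50) r))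
    (k := fun t => ENNReal.ofReal (t * (((3 / 5) ^ 2 - t ^ 2) / (3 / 5))))
    measurableSet_Ioc measurableSet_Ioo (ms_meas hφ measurableSet_Ioc hU)
    (ms_meas hφ measurableSet_Ioo hV) (ms_meas hfφ measurableSet_Ioc hU)
    (ms_meas hfφ measurableSet_Ioo hV) ?_ (by fun_prop) ?_ ?_ ?_ ?_ ?_
  · unfold sig
    fun_prop
  · intro t ht r hr
    have h1 := ms_key hf hφ hs hb ht.1 ht.2 hr.1 hr.2
    have h2 := sig_pos hc hr.1 hr.2
    have h3 : 0 ≤ (((3 / 5) ^ 2 - t ^ 2) / (3 / 5) : ℝ) :=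
      div_nonneg (by nlinarith [ht.1, ht.2]) (by norm_num)
    have p1 := ms_nonneg hφ ht.1 (hU ht).2
    have p2 := ms_nonneg hφ (hV hr).1 hr.2
    have p3 := ms_nonneg hfφ ht.1 (hU ht).2
    have p4 := ms_nonneg hfφ (hV hr).1 hr.2
    have t0 := ht.1
    have r0 := (hV hr).1
    rw [← ENNReal.ofReal_mul (by positivity), ← ENNReal.ofReal_mul (by positivity),
      ← ENNReal.ofReal_mul (by positivity), ← ENNReal.ofReal_mul (by positivity),
      ← ENNReal.ofReal_add (by positivity) (by positivity),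
      ← ENNReal.ofReal_add (by positivity) (by positivity)]
    refine ENNReal.ofReal_le_ofReal ?_
    have h4 := mul_le_mul_of_nonneg_left h1 (show 0 ≤ r * t * sig (29 / 50) r by positivity)
    generalize (((3 / 5) ^ 2 - t ^ 2) / (3 / 5) : ℝ) = κ at h4 ⊢
    have e : r * t * sig (29 / 50) r * (ms (fun z => f z * φ z) t +
        κ * ((ms (fun z => f z * φ z) r - ms φ r) / sig (29 / 50) r)) =
        r * t * sig (29 / 50) r * ms (fun z => f z * φ z) t +
        r * t * κ * (ms (fun z => f z * φ z) r - ms φ r) := by field_simp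
    rw [e] at h4
    linarith
  · exact fun r hr => ENNReal.ofReal_le_ofReal (mul_le_mul_of_nonneg_left (hAB r hr) (hV hr).1.le)
  · rw [int_sig hc hc1, int_kap hc hs]
    exact ENNReal.ofReal_le_ofReal numeric
  · rw [int_sig hc hc1]
    exact (ENNReal.ofReal_pos.mpr (by positivity)).ne'
  · rw [int_sig hc hc1]
    exact ENNReal.ofReal_ne_top

end Pool.Agent.Lib.MP_5cb574_an
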