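import Mathlib
import Pool.Agent.Lib.MP_5cb574_an.Certs
import Pool.Agent.Lib.MP_5cb574_an.Bergman

/-! The domination theorem at the level of Taylor coefficients. -/

namespace Pool.Agent.Lib.MP_5cb574_an

open Finset Complex Filter Topology Metric Real MeasureTheory
open scoped ComplexConjugate

lemma cc_lt34 : cc < 3 / 4 := by linarith [cc_lt]

lemma TC_radius {ω : ℂ → ℂ} (hd : ∀ z, cc < ‖z‖ → ‖z‖ < 1 → DifferentiableAt ℂ ω z)
    (hb : ∀ z, cc < ‖z‖ → ‖z‖ < 1 → ‖ω z‖ ≤ 1) {r : ℝ} (h1 : cc < r) (h2 : r < 1) :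
    TC (fun m => (r : ℂ) ^ m * co ω m) := by
  have h0 : 0 < r := cc_pos.trans h1
  have hn : ∀ η ∈ sphere (0 : ℂ) 1, ‖r * η‖ = r := by
    intro η hη
    rw [norm_mul, mem_sphere_zero_iff_norm.mp hη, norm_real, Real.norm_eq_abs, abs_of_pos h0,
      mul_one]
  have hW : CS 1 (fun η => ω (r * η)) := fun η hη =>
    (ContinuousAt.comp (f := fun η : ℂ => r * η)
      (hd _ (by rw [hn η hη]; exact h1) (by rw [hn η hη]; exact h2)).continuousAt
      (by fun_prop)).continuousWithinAt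
  have := TC_of_bound hW fun η hη => hb _ (by rw [hn η hη]; exact h1) (by rw [hn η hη]; exact h2)
  convert this using 2 with m
  rw [← co_radius cc_pos.le cc_lt34 hd h1 h2, av_scale (r := r), ← av_const_mul]
  refine av_congr one_pos fun η _ => ?_
  rw [mul_zpow, zpow_neg (r : ℂ)]
  have := zpow_ne_zero m (show (r : ℂ) ≠ 0 by exact_mod_cast h0.ne')
  field_simp

lemma TC_omega {ω : ℂ → ℂ} (hd : ∀ z, cc < ‖z‖ → ‖z‖ < 1 → DifferentiableAt ℂ ω z)
    (hb : ∀ z, cc < ‖z‖ → ‖z‖ < 1 → ‖ω z‖ ≤ 1) :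
    TC (co ω) ∧ TC (fun m => (cc : ℂ) ^ m * co ω m) := by
  have hc1 : cc < 1 := by linarith [cc_lt]
  have key : ∀ (x : ℝ), x ≠ 0 → ∀ m : ℤ, Tendsto (fun r : ℝ => (r : ℂ) ^ m * co ω m) (𝓝 x)
      (𝓝 ((x : ℂ) ^ m * co ω m)) := by
    intro x hx m
    refine Tendsto.mul_const _ ?_
    exact (continuous_ofReal.tendsto x).zpow₀ m (Or.inl (by exact_mod_cast hx))
  constructor
  · refine TC.of_tendsto (l := 𝓝[<] (1 : ℝ)) (w := fun r m => (r : ℂ) ^ m * co ω m) ?_ fun m => ?_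
    · filter_upwards [Ioo_mem_nhdsLT hc1] with r hr using TC_radius hd hb hr.1 hr.2
    · simpa using (key 1 one_ne_zero m).mono_left nhdsWithin_le_nhds
  · refine TC.of_tendsto (l := 𝓝[>] cc) (w := fun r m => (r : ℂ) ^ m * co ω m) ?_ fun m => ?_
    · filter_upwards [Ioo_mem_nhdsGT hc1] with r hr using TC_radius hd hb hr.1 hr.2
    · exact (key cc cc_pos.ne' m).mono_left nhdsWithin_le_nhds

/-- The terms of the squared Bergman norm. -/
noncomputable def tm (F : ℂ → ℂ) (k : ℕ) : ℝ := ‖co F k‖ ^ 2 / (k + 1)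

lemma tm_nonneg (F : ℂ → ℂ) (k : ℕ) : 0 ≤ tm F k := by unfold tm; positivity

theorem coeff_ineq {P : ℕ → ℕ → Prop} (hC : ∀ n, ∀ ε > 0, Nonempty (Cert n P ε))
    {ω F G : ℂ → ℂ} (hd : ∀ z, cc < ‖z‖ → ‖z‖ < 1 → DifferentiableAt ℂ ω z)
    (hb : ∀ z, cc < ‖z‖ → ‖z‖ < 1 → ‖ω z‖ ≤ 1) (hF : DifferentiableOn ℂ F (ball 0 1))
    (hG : ∀ z, cc < ‖z‖ → ‖z‖ < 1 → G z = ω z * F z)
    (hP : ∀ k j : ℕ, ¬ P k j → co ω ((j : ℤ) - k) * co F k * conj (co G j) = 0)
    (hs : Summable (tm F)) (n : ℕ) : ∑ j ∈ range n, tm G j ≤ ∑' k, tm F k := by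
  obtain ⟨t1, t2⟩ := taylor hF
  obtain ⟨c1, c2⟩ := TC_omega hd hb
  have hω : CS (3 / 4) ω := fun z hz => by
    have := mem_sphere_zero_iff_norm.mp hz
    exact (hd z (by linarith [cc_lt]) (by linarith)).continuousAt.continuousWithinAt
  have h34 : (0 : ℝ) < 3 / 4 := by norm_num
  have hsum : ∀ j : ℕ, HasSum (fun k : ℕ => co ω ((j : ℤ) - k) * co F k) (co G j) := by
    intro j
    have h := av_hasSum h34 (hω.mul (cs_zpow h34 (-(j : ℤ)))) (t1 _ h34 (by norm_num))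
      (fun z hz => t2 z (by rw [mem_sphere_zero_iff_norm.mp hz]; norm_num))
    have e : av (3 / 4) (fun z => F z * (ω z * z ^ (-(j : ℤ)))) = co G j := by
      refine av_congr h34 fun z hz => ?_
      have := mem_sphere_zero_iff_norm.mp hz
      rw [hG z (by linarith [cc_lt]) (by linarith)]; ring
    rw [e] at h
    refine h.congr_fun fun k => ?_
    rw [mul_comm]
    congr 1
    refine av_congr h34 fun z hz => ?_
    rw [neg_sub, sub_eq_add_neg, zpow_add₀ (ne_zero_of_sphere h34 hz), zpow_natCast]; ring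
  set b : ℕ → ℂ := fun j => if j < n then co G j else 0 with hb'
  have hlim : Tendsto (fun N => 2 * (∑ j ∈ range n,
      (∑ k ∈ range N, co ω ((j : ℤ) - k) * co F k) * conj (co G j) / (j + 1)).re) atTop
      (𝓝 (2 * (∑ j ∈ range n, co G j * conj (co G j) / (j + 1)).re)) := by
    refine Tendsto.const_mul _ ((continuous_re.tendsto _).comp ?_)
    exact tendsto_finsetSum _ fun j _ => ((hsum j).tendsto_sum_nat.mul_const _).div_const _
  have e1 : (∑ j ∈ range n, co G j * conj (co G j) / (j + 1)).re = ∑ j ∈ range n, tm G j := by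
    rw [re_sum]
    refine sum_congr rfl fun j _ => ?_
    have : co G j * conj (co G j) / (j + 1) = (tm G j : ℂ) := by
      rw [mul_conj']; unfold tm; push_cast; rfl
    rw [this, ofReal_re]
  rw [e1] at hlim
  have hle : 2 * ∑ j ∈ range n, tm G j ≤ ∑' k, tm F k + ∑ j ∈ range n, tm G j := by
    refine le_of_tendsto hlim ?_
    filter_upwards [eventually_ge_atTop n] with N hN
    have h := core_ineq (hC N) c1 c2 (fun k => co F k) b (fun k j hkj => by
      simp only [hb']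
      split_ifs
      · exact hP k j hkj
      · simp)
    have hsub : range n ⊆ range N := range_subset_range.mpr hN
    have e2 : ∑ k ∈ range N, ∑ j ∈ range N, co ω ((j : ℤ) - k) * co F k * conj (b j) / (j + 1) =
        ∑ j ∈ range n, (∑ k ∈ range N, co ω ((j : ℤ) - k) * co F k) * conj (co G j) / (j + 1) := by
      rw [sum_comm, ← sum_subset hsub]
      · refine sum_congr rfl fun j hj => ?_
        simp only [hb', if_pos (mem_range.mp hj), sum_mul, sum_div]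
      · intro j _ hj
        simp [hb', if_neg (fun h => hj (mem_range.mpr h))]
    have e3 : ∑ j ∈ range N, ‖b j‖ ^ 2 / (j + 1) = ∑ j ∈ range n, tm G j := by
      rw [← sum_subset hsub]
      · refine sum_congr rfl fun j hj => ?_
        simp only [hb', if_pos (mem_range.mp hj), tm]
      · intro j _ hj
        simp [hb', if_neg (fun h => hj (mem_range.mpr h))]
    rw [e2, e3] at h
    have h4 : ∑ k ∈ range N, tm F k ≤ ∑' k, tm F k := hs.sum_le_tsum _ fun k _ => tm_nonneg F k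
    exact h.trans (add_le_add_left h4 _)
  linarith

/-- The quotient with removable singularities removed. -/
noncomputable def quot (g f : ℂ → ℂ) (z : ℂ) : ℂ := limUnder (𝓝[≠] z) (fun w => g w / f w)

lemma quot_at {f g : ℂ → ℂ} (hf : DifferentiableOn ℂ f (ball 0 1))
    (hg : DifferentiableOn ℂ g (ball 0 1)) {z : ℂ} (hz : ‖z‖ < 1) (hne : ¬ ∀ᶠ w in 𝓝 z, f w = 0)
    {C : ℝ} (hC : ∀ᶠ w in 𝓝 z, ‖g w‖ ≤ C * ‖f w‖) :
    DifferentiableAt ℂ (quot g f) z ∧ g z = quot g f z * f z ∧ ‖quot g f z‖ ≤ C := by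
  have hz' : ball (0 : ℂ) 1 ∈ 𝓝 z := isOpen_ball.mem_nhds (mem_ball_zero_iff.mpr hz)
  have h1 := (hf.analyticAt hz').eventually_eq_zero_or_eventually_ne_zero.resolve_left hne
  rw [eventually_nhdsWithin_iff] at h1
  obtain ⟨s, hs, hso, hzs⟩ := _root_.eventually_nhds_iff.mp (h1.and (hC.and hz'))
  have hsn : s ∈ 𝓝 z := hso.mem_nhds hzs
  have hda : ∀ w ∈ s \ {z}, DifferentiableAt ℂ (fun w => g w / f w) w := fun w hw =>
    (hg.differentiableAt (isOpen_ball.mem_nhds (hs w hw.1).2.2)).div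
      (hf.differentiableAt (isOpen_ball.mem_nhds (hs w hw.1).2.2)) ((hs w hw.1).1 hw.2)
  have hbd : ∀ w ∈ s \ {z}, ‖g w / f w‖ ≤ C := fun w hw => by
    rw [norm_div, div_le_iff₀ (norm_pos_iff.mpr ((hs w hw.1).1 hw.2))]
    exact (hs w hw.1).2.1
  have h2 := differentiableOn_update_limUnder_of_bddAbove (f := fun w => g w / f w) hsn
    (fun w hw => (hda w hw).differentiableWithinAt) ⟨C, by
      rintro _ ⟨w, hw, rfl⟩; exact hbd w hw⟩
  have h3 : ∀ w ∈ s \ {z}, quot g f w = g w / f w := fun w hw =>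
    ((hda w hw).continuousAt.tendsto.mono_left nhdsWithin_le_nhds).limUnder_eq
  have h4 : DifferentiableAt ℂ (quot g f) z := by
    refine (h2.differentiableAt hsn).congr_of_eventuallyEq ?_
    filter_upwards [hsn] with w hw
    by_cases h : w = z
    · subst h; rw [Function.update_self]; rfl
    · rw [Function.update_of_ne h]; exact h3 w ⟨hw, h⟩
  have hp : ∀ᶠ w in 𝓝[≠] z, w ∈ s \ {z} := sdiff_mem_nhdsWithin_compl hsn _
  refine ⟨h4, ?_, ?_⟩
  · have a1 : Tendsto g (𝓝[≠] z) (𝓝 (g z)) :=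
      (hg.differentiableAt hz').continuousAt.tendsto.mono_left nhdsWithin_le_nhds
    have a2 : Tendsto (fun w => quot g f w * f w) (𝓝[≠] z) (𝓝 (quot g f z * f z)) :=
      (h4.continuousAt.tendsto.mul (hf.differentiableAt hz').continuousAt.tendsto).mono_left
        nhdsWithin_le_nhds
    refine tendsto_nhds_unique_of_eventuallyEq a1 a2 ?_
    filter_upwards [hp] with w hw
    rw [h3 w hw, div_mul_cancel₀ _ ((hs w hw.1).1 hw.2)]
  · refine le_of_tendsto (h4.continuousAt.norm.tendsto.mono_left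
      (nhdsWithin_le_nhds (s := {z}ᶜ))) ?_
    filter_upwards [hp] with w hw
    rw [h3 w hw]; exact hbd w hw

lemma annulus_nhds {z : ℂ} (h1 : cc < ‖z‖) (h2 : ‖z‖ < 1) : ∀ᶠ w in 𝓝 z, cc < ‖w‖ ∧ ‖w‖ < 1 :=
  (continuous_norm.tendsto z).eventually (Ioo_mem_nhds h1 h2)

lemma eq_zero_of_eventually {f : ℂ → ℂ} (hf : DifferentiableOn ℂ f (ball 0 1)) {z : ℂ}
    (hz : ‖z‖ < 1) (h : ∀ᶠ w in 𝓝 z, f w = 0) {w : ℂ} (hw : ‖w‖ < 1) : f w = 0 :=
  (hf.analyticOnNhd isOpen_ball).eqOn_zero_of_preconnected_of_eventuallyEq_zero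
    (convex_ball (0 : ℂ) 1).isPreconnected (mem_ball_zero_iff.mpr hz) h (mem_ball_zero_iff.mpr hw)

lemma co_zero {G : ℂ → ℂ} (hG : DifferentiableOn ℂ G (ball 0 1)) : co G 0 = G 0 := by
  unfold co
  simp only [neg_zero, zpow_zero, mul_one]
  exact av_mean (by norm_num) fun z hz => diffAt_of_ball hG (by linarith)

/-- The case that the smaller function vanishes at the origin. -/
theorem level_T {F G : ℂ → ℂ} (hF : DifferentiableOn ℂ F (ball 0 1))
    (hG : DifferentiableOn ℂ G (ball 0 1)) (h : ∀ z, cc < ‖z‖ → ‖z‖ < 1 → ‖G z‖ ≤ ‖F z‖)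
    (h0 : G 0 = 0) (hs : Summable (tm F)) (n : ℕ) : ∑ j ∈ range n, tm G j ≤ ∑' k, tm F k := by
  have hP : ∀ (ω : ℂ → ℂ) (k j : ℕ), ¬ 1 ≤ j →
      co ω ((j : ℤ) - k) * co F k * conj (co G j) = 0 := by
    intro ω k j hj
    obtain rfl : j = 0 := by omega
    rw [Nat.cast_zero, co_zero hG, h0, map_zero, mul_zero]
  by_cases hne : ∃ z : ℂ, ‖z‖ < 1 ∧ ∀ᶠ w in 𝓝 z, F w = 0
  · obtain ⟨z, hz, hz'⟩ := hne
    refine coeff_ineq cert_T (ω := fun _ => 0) (fun _ _ _ => differentiableAt_const _)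
      (fun _ _ _ => by simp) hF (fun w h1 h2 => ?_) (hP _) hs n
    have := h w h1 h2
    rw [eq_zero_of_eventually hF hz hz' h2, norm_zero] at this
    rw [zero_mul]; exact norm_le_zero_iff.mp this
  · have key := fun z (h1 : cc < ‖z‖) (h2 : ‖z‖ < 1) =>
      quot_at hF hG h2 (fun h' => hne ⟨z, h2, h'⟩) (C := 1)
        ((annulus_nhds h1 h2).mono fun w hw => by rw [one_mul]; exact h w hw.1 hw.2)
    exact coeff_ineq cert_T (fun z h1 h2 => (key z h1 h2).1) (fun z h1 h2 => (key z h1 h2).2.2) hF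
      (fun z h1 h2 => (key z h1 h2).2.1) (hP _) hs n

lemma co_eq_zero {F H : ℂ → ℂ} (hH : ∀ z, ‖z‖ < 1 → DifferentiableAt ℂ H z) {e m : ℤ}
    (hF : ∀ z, z ≠ 0 → ‖z‖ < 1 → F z = H z * z ^ e) (hm : m < e) : co F m = 0 := by
  obtain ⟨d, hd⟩ : ∃ d : ℕ, e + -m = (d + 1 : ℕ) := ⟨(e - m - 1).toNat, by omega⟩
  have h34 : (0 : ℝ) < 3 / 4 := by norm_num
  unfold co
  rw [av_congr h34 (g := fun z => H z * z ^ (d + 1)) fun z hz => by
    have h0 := ne_zero_of_sphere h34 hz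
    rw [hF z h0 (by rw [mem_sphere_zero_iff_norm.mp hz]; norm_num), mul_assoc, ← zpow_add₀ h0, hd,
      zpow_natCast], av_mean h34 fun z hz => (hH z (by linarith)).fun_mul (differentiableAt_pow _)]
  simp

lemma diff_patch {u k : ℂ → ℂ} (hu : ∀ z, z ≠ 0 → ‖z‖ < 1 → DifferentiableAt ℂ u z)
    (hk : DifferentiableAt ℂ k 0) (h : ∀ᶠ z in 𝓝 (0 : ℂ), z ≠ 0 → u z = k z) (z : ℂ)
    (hz : ‖z‖ < 1) : DifferentiableAt ℂ (fun z => if z = 0 then k 0 else u z) z := by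
  by_cases h0 : z = 0
  · subst h0
    refine hk.congr_of_eventuallyEq ?_
    filter_upwards [h] with w hw
    split_ifs with h1
    · rw [h1]
    · exact hw h1
  · refine (hu z h0 hz).congr_of_eventuallyEq ?_
    filter_upwards [eventually_ne_nhds h0] with w hw
    rw [if_neg hw]

/-- The case that the only zero of the larger function in the inner disc is the origin. -/
theorem level_B {f g φ : ℂ → ℂ} (hf : DifferentiableOn ℂ f (ball 0 1))
    (hg : DifferentiableOn ℂ g (ball 0 1)) (hφ : DifferentiableOn ℂ φ (ball 0 1))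
    (h : ∀ z, cc < ‖z‖ → ‖z‖ < 1 → ‖g z‖ ≤ ‖f z‖) (h0 : f 0 = 0)
    (h1 : ∀ z, z ≠ 0 → ‖z‖ ≤ cc → f z ≠ 0) (hs : Summable (tm (fun z => f z * φ z))) (n : ℕ) :
    ∑ j ∈ range n, tm (fun z => g z * φ z) j ≤ ∑' k, tm (fun z => f z * φ z) k := by
  have hcn : ‖(cc : ℂ)‖ = cc := by rw [norm_real, Real.norm_eq_abs, abs_of_pos cc_pos]
  have hne : ∀ z, ‖z‖ < 1 → ¬ ∀ᶠ w in 𝓝 z, f w = 0 := fun z hz h' =>
    h1 cc ccC_ne hcn.le (eq_zero_of_eventually hf hz h' (by rw [hcn]; linarith [cc_lt]))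
  have key := fun z (h1 : cc < ‖z‖) (h2 : ‖z‖ < 1) =>
    quot_at hf hg h2 (hne z h2) (C := 1)
      ((annulus_nhds h1 h2).mono fun w hw => by rw [one_mul]; exact h w hw.1 hw.2)
  have key2 : ∀ z, z ≠ 0 → ‖z‖ < 1 →
      DifferentiableAt ℂ (quot g f) z ∧ g z = quot g f z * f z := by
    intro z hz0 hz
    rcases lt_or_ge cc ‖z‖ with h2 | h2
    · exact ⟨(key z h2 hz).1, (key z h2 hz).2.1⟩
    · have h3 := h1 z hz0 h2
      have a1 := ((diffAt_of_ball hg hz).continuousAt.div (diffAt_of_ball hf hz).continuousAt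
        h3).norm
      have a2 := a1.eventually (gt_mem_nhds (lt_add_one _))
      have a3 := (diffAt_of_ball hf hz).continuousAt.eventually_ne h3
      have := quot_at hf hg hz (hne z hz) (C := ‖g z / f z‖ + 1) (by
        filter_upwards [a2, a3] with w b1 b2
        rw [Pi.div_apply, norm_div, div_lt_iff₀ (norm_pos_iff.mpr b2)] at b1
        exact b1.le)
      exact ⟨this.1, this.2.1⟩
  have han : AnalyticAt ℂ f 0 := hf.analyticAt (ball_mem_nhds _ one_pos)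
  obtain ⟨N, k, hk, hk0, hfk⟩ := han.exists_eventuallyEq_pow_smul_nonzero_iff.mpr
    (hne 0 (by simp))
  simp only [sub_zero, smul_eq_mul] at hfk
  have hN : N ≠ 0 := by
    rintro rfl
    have := hfk.self_of_nhds
    rw [h0, pow_zero, one_mul] at this
    exact hk0 this.symm
  have hkne := hk.continuousAt.eventually_ne hk0
  have z1 : ∀ m : ℤ, m < -N → co (quot g f) m = 0 := by
    intro m hm
    refine co_eq_zero (diff_patch (u := fun z => quot g f z * z ^ N) (k := fun z => g z / k z)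
      (fun z a b => (key2 z a b).1.mul (differentiableAt_pow _))
      ((diffAt_of_ball hg (by simp)).div hk.differentiableAt hk0) ?_) (fun z a _ => ?_) hm
    · filter_upwards [hfk, hkne, ball_mem_nhds (0 : ℂ) one_pos] with z a b c d
      rw [(key2 z d (mem_ball_zero_iff.mp c)).2, a]
      field_simp
    · rw [if_neg a, zpow_neg, zpow_natCast, mul_inv_cancel_right₀ (pow_ne_zero _ a)]
  have z2 : ∀ m : ℤ, m < N → co (fun z => f z * φ z) m = 0 := by
    intro m hm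
    refine co_eq_zero (diff_patch (u := fun z => f z * φ z / z ^ N) (k := fun z => k z * φ z)
      (fun z a b => ((diffAt_of_ball hf b).mul (diffAt_of_ball hφ b)).div (differentiableAt_pow _)
        (pow_ne_zero _ a))
      (hk.differentiableAt.mul (diffAt_of_ball hφ (by simp))) ?_) (fun z a _ => ?_) hm
    · filter_upwards [hfk] with z a d
      rw [a]
      field_simp
    · rw [if_neg a, zpow_natCast, div_mul_cancel₀ _ (pow_ne_zero _ a)]
  have hC : ∀ n, ∀ ε > 0, Nonempty (Cert n (fun k j => N ≤ k ∧ k ≤ j + N) ε) := by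
    intro n ε hε
    rcases N with _ | _ | m
    · exact absurd rfl hN
    · exact cert_one n ε hε
    · exact cert_B m n ε hε
  refine coeff_ineq hC (fun z h1 h2 => (key z h1 h2).1) (fun z h1 h2 => (key z h1 h2).2.2)
    (hf.fun_mul hφ) (fun z h1 h2 => by rw [(key z h1 h2).2.1, mul_assoc]) (fun k j hkj => ?_) hs n
  rcases lt_or_ge k N with h2 | h2
  · rw [z2 k (by exact_mod_cast h2), mul_zero, zero_mul]
  · rw [z1 _ (by omega), zero_mul, zero_mul]

lemma co_comb {F G : ℂ → ℂ} (hF : DifferentiableOn ℂ F (ball 0 1))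
    (hG : DifferentiableOn ℂ G (ball 0 1)) (a : ℂ) (m : ℤ) :
    co (fun z => F z - a * G z) m = co F m - a * co G m := by
  have h34 : (0 : ℝ) < 3 / 4 := by norm_num
  have c1 : CS (3 / 4) F := cs_of_ball hF (by norm_num)
  have c2 : CS (3 / 4) G := cs_of_ball hG (by norm_num)
  unfold co
  rw [← av_const_mul, ← av_sub h34 (c1.mul (cs_zpow h34 _)) ((c2.mul (cs_zpow h34 _)).cmul _)]
  exact av_congr h34 fun z _ => by ring

lemma hyp_id (x y a : ℂ) :
    ‖x - conj a * y‖ ^ 2 - ‖y - a * x‖ ^ 2 = (1 - ‖a‖ ^ 2) * (‖x‖ ^ 2 - ‖y‖ ^ 2) := by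
  simp only [← Complex.normSq_eq_norm_sq, Complex.normSq_apply, sub_re, sub_im, mul_re, mul_im,
    conj_re, conj_im]
  ring

lemma hyp_le {x y a : ℂ} (ha : ‖a‖ < 1) (h : ‖y‖ ≤ ‖x‖) : ‖y - a * x‖ ≤ ‖x - conj a * y‖ := by
  have h1 := hyp_id x y a
  have h2 : 0 ≤ (1 - ‖a‖ ^ 2) * (‖x‖ ^ 2 - ‖y‖ ^ 2) :=
    mul_nonneg (by nlinarith [norm_nonneg a]) (by nlinarith [norm_nonneg y])
  exact abs_le_of_sq_le_sq' (by linarith) (norm_nonneg _) |>.2

lemma summable_comb {F G : ℂ → ℂ} (hF : DifferentiableOn ℂ F (ball 0 1))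
    (hG : DifferentiableOn ℂ G (ball 0 1)) {a : ℂ} (ha : ‖a‖ < 1) (h1 : Summable (tm F))
    (h2 : Summable (tm G)) : Summable (tm (fun z => F z - a * G z)) := by
  refine Summable.of_nonneg_of_le (tm_nonneg _) (fun k => ?_) ((h1.add h2).mul_left 2)
  unfold tm
  rw [co_comb hF hG, ← add_div, ← mul_div_assoc]
  refine div_le_div_of_nonneg_right ?_ (by positivity)
  have h3 : ‖co F k - a * co G k‖ ≤ ‖co F k‖ + ‖co G k‖ := by
    refine (norm_sub_le _ _).trans ?_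
    rw [norm_mul]
    nlinarith [norm_nonneg (co G k)]
  nlinarith [norm_nonneg (co F k - a * co G k), sq_nonneg (‖co F k‖ - ‖co G k‖)]

lemma of_hyp {F G : ℂ → ℂ} (hF : DifferentiableOn ℂ F (ball 0 1))
    (hG : DifferentiableOn ℂ G (ball 0 1)) {a : ℂ} (ha : ‖a‖ < 1) (h1 : Summable (tm F))
    (h2 : Summable (tm G))
    (h : ∀ n, ∑ j ∈ range n, tm (fun z => G z - a * F z) j ≤
      ∑' k, tm (fun z => F z - conj a * G z) k) : ∑' k, tm G k ≤ ∑' k, tm F k := by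
  have s1 := summable_comb hF hG (a := conj a) (by rwa [norm_conj]) h1 h2
  have s2 := summable_comb hG hF ha h2 h1
  have h3 := Real.tsum_le_of_sum_range_le (tm_nonneg _) h
  have h4 : ∑' k, tm (fun z => F z - conj a * G z) k - ∑' k, tm (fun z => G z - a * F z) k =
      (1 - ‖a‖ ^ 2) * (∑' k, tm F k - ∑' k, tm G k) := by
    rw [← s1.tsum_sub s2, ← h1.tsum_sub h2, ← tsum_mul_left]
    congr 1
    ext k
    unfold tm
    rw [co_comb hF hG, co_comb hG hF, ← sub_div, hyp_id]; ring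
  have h5 : 0 < 1 - ‖a‖ ^ 2 := by nlinarith [norm_nonneg a]
  by_contra h6
  nlinarith [mul_pos h5 (sub_pos.mpr (not_le.mp h6))]

theorem level_lt {F G : ℂ → ℂ} (hF : DifferentiableOn ℂ F (ball 0 1))
    (hG : DifferentiableOn ℂ G (ball 0 1)) (h : ∀ z, cc < ‖z‖ → ‖z‖ < 1 → ‖G z‖ ≤ ‖F z‖)
    (h0 : ‖G 0‖ < ‖F 0‖) (h1 : Summable (tm F)) (h2 : Summable (tm G)) :
    ∑' k, tm G k ≤ ∑' k, tm F k := by
  have hF0 : F 0 ≠ 0 := norm_pos_iff.mp ((norm_nonneg _).trans_lt h0)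
  have ha : ‖G 0 / F 0‖ < 1 := by rw [norm_div, div_lt_one (norm_pos_iff.mpr hF0)]; exact h0
  refine of_hyp hF hG ha h1 h2 (level_T (hF.sub (hG.const_mul _)) (hG.sub (hF.const_mul _))
    (fun z a b => hyp_le ha (h z a b)) ?_
    (summable_comb hF hG (by rwa [norm_conj]) h1 h2))
  rw [div_mul_cancel₀ _ hF0, sub_self]

theorem level_le {F G : ℂ → ℂ} (hF : DifferentiableOn ℂ F (ball 0 1))
    (hG : DifferentiableOn ℂ G (ball 0 1)) (h : ∀ z, cc < ‖z‖ → ‖z‖ < 1 → ‖G z‖ ≤ ‖F z‖)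
    (h0 : ‖G 0‖ ≤ ‖F 0‖) (h1 : Summable (tm F)) (h2 : Summable (tm G)) :
    ∑' k, tm G k ≤ ∑' k, tm F k := by
  by_cases hG0 : G 0 = 0
  · exact Real.tsum_le_of_sum_range_le (tm_nonneg _) (level_T hF hG h hG0 h1)
  have key : ∀ t : ℝ, 0 < t → t < 1 → t ^ 2 * ∑' k, tm G k ≤ ∑' k, tm F k := by
    intro t t0 t1
    have e : tm (fun z => t * G z) = fun k => t ^ 2 * tm G k := by
      ext k
      have : co (fun z => t * G z) k = t * co G k := by
        unfold co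
        rw [← av_const_mul]; simp only [mul_assoc]
      unfold tm
      rw [this, norm_mul, norm_real, Real.norm_eq_abs, mul_pow, sq_abs, mul_div_assoc]
    have hn : ∀ z, ‖t * G z‖ = t * ‖G z‖ := fun z => by
      rw [norm_mul, norm_real, Real.norm_eq_abs, abs_of_pos t0]
    have := level_lt hF (hG.const_mul (t : ℂ)) (fun z a b => by
      rw [hn]; nlinarith [h z a b, norm_nonneg (G z)]) (by
      rw [hn]; nlinarith [norm_pos_iff.mpr hG0]) h1 (by rw [e]; exact h2.mul_left _)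
    rwa [e, tsum_mul_left] at this
  have hl : Tendsto (fun t : ℝ => t ^ 2 * ∑' k, tm G k) (𝓝[<] 1) (𝓝 (1 ^ 2 * ∑' k, tm G k)) :=
    (((continuous_pow 2).tendsto 1).mul_const _).mono_left nhdsWithin_le_nhds
  rw [one_pow, one_mul] at hl
  refine le_of_tendsto hl ?_
  filter_upwards [Ioo_mem_nhdsLT (zero_lt_one' ℝ)] with t ht using key t ht.1 ht.2

theorem level_main {f g φ : ℂ → ℂ} (hf : DifferentiableOn ℂ f (ball 0 1))
    (hg : DifferentiableOn ℂ g (ball 0 1)) (hφ : DifferentiableOn ℂ φ (ball 0 1))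
    (h : ∀ z, cc < ‖z‖ → ‖z‖ < 1 → ‖g z‖ ≤ ‖f z‖)
    (h0 : ‖g 0‖ ≤ ‖f 0‖ ∨ ∀ z, z ≠ 0 → ‖z‖ ≤ cc → f z * g 0 ≠ f 0 * g z)
    (h1 : Summable (tm (fun z => f z * φ z))) (h2 : Summable (tm (fun z => g z * φ z))) :
    ∑' k, tm (fun z => g z * φ z) k ≤ ∑' k, tm (fun z => f z * φ z) k := by
  by_cases hle : ‖g 0‖ ≤ ‖f 0‖
  · refine level_le (hf.mul hφ) (hg.mul hφ) (fun z a b => ?_) ?_ h1 h2
    · rw [norm_mul, norm_mul]; exact mul_le_mul_of_nonneg_right (h z a b) (norm_nonneg _)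
    · rw [norm_mul, norm_mul]; exact mul_le_mul_of_nonneg_right hle (norm_nonneg _)
  have h3 := h0.resolve_left hle
  have hlt := not_le.mp hle
  have hg0 : g 0 ≠ 0 := norm_pos_iff.mp ((norm_nonneg _).trans_lt hlt)
  have ha : ‖conj (f 0 / g 0)‖ < 1 := by
    rw [norm_conj, norm_div, div_lt_one (norm_pos_iff.mpr hg0)]; exact hlt
  refine of_hyp (hf.mul hφ) (hg.mul hφ) ha h1 h2 fun n => ?_
  have e1 : (fun z => f z * φ z - conj (conj (f 0 / g 0)) * (g z * φ z)) =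
      fun z => (f z - conj (conj (f 0 / g 0)) * g z) * φ z := by ext z; ring
  have e2 : (fun z => g z * φ z - conj (f 0 / g 0) * (f z * φ z)) =
      fun z => (g z - conj (f 0 / g 0) * f z) * φ z := by ext z; ring
  have hs := summable_comb (hf.mul hφ) (hg.mul hφ) (a := conj (conj (f 0 / g 0)))
    (by rwa [norm_conj]) h1 h2
  simp only [Pi.mul_apply] at hs ⊢
  rw [e1] at hs
  rw [e1, e2]
  refine level_B (hf.fun_sub (hg.const_mul _)) (hg.fun_sub (hf.const_mul _)) hφ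
    (fun z a b => hyp_le ha (h z a b)) ?_ (fun z a b c => h3 z a b ?_) hs n
  · rw [conj_conj, div_mul_cancel₀ _ hg0, sub_self]
  · rw [conj_conj, sub_eq_zero] at c
    rw [c]; field_simp

lemma summable_of_lt_top {F : ℂ → ℂ} (hF : DifferentiableOn ℂ F (ball 0 1))
    (h : ∫⁻ z in ball (0 : ℂ) 1, ‖F z‖ₑ ^ 2 ≠ ⊤) : Summable (tm F) := by
  rw [bergman_eq hF] at h
  have h1 : ∑' k : ℕ, ENNReal.ofReal (tm F k) ≠ ⊤ := by
    intro h2
    apply h
    unfold tm at h2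
    rw [h2, ENNReal.mul_top (by simpa using pi_pos)]
  have := ENNReal.summable_toReal h1
  simpa only [ENNReal.toReal_ofReal (tm_nonneg F _)] using this

lemma mul_lt_top {g φ : ℂ → ℂ} {C : ℝ} (hC : ∀ z ∈ ball (0 : ℂ) 1, ‖φ z‖ ≤ C)
    (h : ∫⁻ z in ball (0 : ℂ) 1, ‖g z‖ₑ ^ 2 ≠ ⊤) :
    ∫⁻ z in ball (0 : ℂ) 1, ‖g z * φ z‖ₑ ^ 2 ≠ ⊤ := by
  have h1 : ∫⁻ z in ball (0 : ℂ) 1, ‖g z * φ z‖ₑ ^ 2 ≤
      ∫⁻ z in ball (0 : ℂ) 1, ENNReal.ofReal C ^ 2 * ‖g z‖ₑ ^ 2 := by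
    refine setLIntegral_mono' measurableSet_ball fun z hz => ?_
    rw [enorm_mul, mul_pow, mul_comm]
    gcongr
    rw [← ofReal_norm]
    exact ENNReal.ofReal_le_ofReal (hC z hz)
  rw [lintegral_const_mul' _ _ (ENNReal.pow_ne_top ENNReal.ofReal_ne_top)] at h1
  exact ne_top_of_le_ne_top (ENNReal.mul_ne_top (ENNReal.pow_ne_top ENNReal.ofReal_ne_top) h) h1

theorem domination {f g φ : ℂ → ℂ} (hf : DifferentiableOn ℂ f (ball 0 1))
    (hg : DifferentiableOn ℂ g (ball 0 1)) (hφ : DifferentiableOn ℂ φ (ball 0 1))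
    (hf2 : ∫⁻ z in ball (0 : ℂ) 1, ‖f z‖ₑ ^ 2 ≠ ⊤) (hg2 : ∫⁻ z in ball (0 : ℂ) 1, ‖g z‖ₑ ^ 2 ≠ ⊤)
    {C : ℝ} (hC : ∀ z ∈ ball (0 : ℂ) 1, ‖φ z‖ ≤ C)
    (h : ∀ z, cc < ‖z‖ → ‖z‖ < 1 → ‖g z‖ ≤ ‖f z‖)
    (h0 : ‖g 0‖ ≤ ‖f 0‖ ∨ ∀ z, z ≠ 0 → ‖z‖ ≤ cc → f z * g 0 ≠ f 0 * g z) :
    ∫⁻ z in ball (0 : ℂ) 1, ‖g z * φ z‖ₑ ^ 2 ≤ ∫⁻ z in ball (0 : ℂ) 1, ‖f z * φ z‖ₑ ^ 2 := by
  have s1 := summable_of_lt_top (F := fun z => f z * φ z) (hf.mul hφ) (mul_lt_top hC hf2)
  have s2 := summable_of_lt_top (F := fun z => g z * φ z) (hg.mul hφ) (mul_lt_top hC hg2)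
  have := ENNReal.ofReal_le_ofReal (level_main hf hg hφ h h0 s1 s2)
  rw [ENNReal.ofReal_tsum_of_nonneg (tm_nonneg _) s1,
    ENNReal.ofReal_tsum_of_nonneg (tm_nonneg _) s2] at this
  rw [bergman_eq (F := fun z => f z * φ z) (hf.mul hφ),
    bergman_eq (F := fun z => g z * φ z) (hg.mul hφ)]
  exact mul_le_mul_right this _

end Pool.Agent.Lib.MP_5cb574_an
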